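import Pool.Agent.Q201.ML.Core

set_option autoImplicit false

/-!
# Bilinear mean squares of Dirichlet polynomials
-/

namespace Pool.Agent.Q201.ML

open Complex Finset

theorem hat_prod {ι κ : Type} (P : Finset ι) (p : ι → ℝ) (Q : Finset κ) (q : κ → ℝ) (m n : ℕ) :
    hat (P ×ˢ Q) (fun z => p z.1 + q z.2) m n = hat P p m n * hat Q q m n := by
  unfold hat
  rw [sum_mul_sum, sum_product]
  refine sum_congr rfl fun i _ => sum_congr rfl fun j _ => ?_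
  rw [exp_mul]
  congr 3
  ring

/-- the bound of the second moment -/
noncomputable def B2 {ι : Type} (k N : ℕ) (T : ℝ) (P : Finset ι) (p : ι → ℝ) : ℝ :=
  (N : ℝ) ^ 2 * co P (fun i => ⌊p i⌋) + MT k N T ^ 2 * (P.card : ℝ) ^ 2

theorem B2_nonneg {ι : Type} (k N : ℕ) (T : ℝ) (P : Finset ι) (p : ι → ℝ) : 0 ≤ B2 k N T P p := by
  unfold B2
  positivity

/-- **The bilinear mean square.** -/
theorem bilinear (k : ℕ) (hk : 2 ≤ k) (ε : ℝ) (hε : 0 < ε) : ∃ C : ℝ, 1 ≤ C ∧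
    ∀ (N : ℕ) (T : ℝ) (ι κ : Type) (P : Finset ι) (p : ι → ℝ) (Q : Finset κ) (q : κ → ℝ), 1 ≤ N →
      (∀ i ∈ P, ∀ j ∈ P, |p i - p j| ≤ 2 * T) → (∀ i ∈ Q, ∀ j ∈ Q, |q i - q j| ≤ 2 * T) →
      ∀ (a : ℕ → ℂ) (v : ℝ), (∀ n, ‖a n‖ ≤ 1) →
      ∑ z ∈ P ×ˢ Q, ‖Dp N a (v + (p z.1 + q z.2))‖ ^ 2 ≤
        C * (N : ℝ) ^ ε * (√(B2 k N T P p) * √(B2 k N T Q q)) := by
  obtain ⟨C, hC, h⟩ := sum_hat_sq_le k hk ε hε
  refine ⟨C, hC, ?_⟩
  intro N T ι κ P p Q q hN hP hQ a v ha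
  have h1 := sum_sq_le (P ×ˢ Q) (fun z => p z.1 + q z.2) N a ha v
  have h2 := h N T ι P p hN hP
  have h3 := h N T κ Q q hN hQ
  have hCN : 0 ≤ C * (N : ℝ) ^ ε := by positivity
  refine h1.trans ?_
  have e1 : ∑ m ∈ Icc 1 N, ∑ n ∈ Icc 1 N, ‖hat (P ×ˢ Q) (fun z => p z.1 + q z.2) m n‖ =
      ∑ w ∈ Icc 1 N ×ˢ Icc 1 N, ‖hat P p w.1 w.2‖ * ‖hat Q q w.1 w.2‖ := by
    rw [sum_product]
    refine sum_congr rfl fun m _ => sum_congr rfl fun n _ => ?_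
    rw [hat_prod, norm_mul]
  rw [e1]
  refine (Real.sum_mul_le_sqrt_mul_sqrt _ _ _).trans ?_
  rw [sum_product, sum_product]
  calc √(∑ m ∈ Icc 1 N, ∑ n ∈ Icc 1 N, ‖hat P p m n‖ ^ 2) *
        √(∑ m ∈ Icc 1 N, ∑ n ∈ Icc 1 N, ‖hat Q q m n‖ ^ 2)
      ≤ √(C * (N : ℝ) ^ ε * B2 k N T P p) * √(C * (N : ℝ) ^ ε * B2 k N T Q q) := by
        gcongr
        · exact h2
        · exact h3
    _ = (√(C * (N : ℝ) ^ ε) * √(C * (N : ℝ) ^ ε)) * (√(B2 k N T P p) * √(B2 k N T Q q)) := by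
        rw [Real.sqrt_mul hCN, Real.sqrt_mul hCN]
        ring
    _ = _ := by rw [Real.mul_self_sqrt hCN]

/-! ## Moving the points -/

theorem abel (g b : ℕ → ℂ) (N : ℕ) (hN : 1 ≤ N) :
    ∑ n ∈ Icc 1 N, g n * b n = g N * (∑ n ∈ Icc 1 N, b n) -
      ∑ m ∈ Ico 1 N, (g (m + 1) - g m) * ∑ n ∈ Icc 1 m, b n := by
  induction N, hN using Nat.le_induction with
  | base => simp
  | succ N hN ih =>
    rw [sum_Icc_succ_top (by omega), ih, sum_Icc_succ_top (by omega),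
      sum_Ico_succ_top (by omega)]
    ring

theorem norm_exp_sub (x y : ℝ) :
    ‖Complex.exp ((x : ℂ) * I) - Complex.exp ((y : ℂ) * I)‖ ≤ |x - y| := by
  have h : Complex.exp ((x : ℂ) * I) - Complex.exp ((y : ℂ) * I) =
      Complex.exp ((y : ℂ) * I) * (Complex.exp (I * ((x - y : ℝ) : ℂ)) - 1) := by
    rw [mul_sub, ← Complex.exp_add, mul_one]
    congr 2
    push_cast
    ring
  rw [h, norm_mul, Complex.norm_exp_ofReal_mul_I, one_mul]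
  exact Real.norm_exp_I_mul_ofReal_sub_one_le

/-- truncated coefficients -/
noncomputable def tr (a : ℕ → ℂ) (m : ℕ) : ℕ → ℂ := fun n => if n ≤ m then a n else 0

theorem tr_le {a : ℕ → ℂ} (ha : ∀ n, ‖a n‖ ≤ 1) (m n : ℕ) : ‖tr a m n‖ ≤ 1 := by
  unfold tr
  split_ifs
  · exact ha n
  · simp

/-- moving a point by at most `1 / Q`, `log N ≤ Q` -/
theorem move (N : ℕ) (hN : 1 ≤ N) (Q : ℝ) (hQ : 0 < Q) (hNQ : Real.log N ≤ Q) (a : ℕ → ℂ)
    (t x : ℝ) (hx : 0 ≤ x) (hxQ : x ≤ 1 / Q) :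
    ‖Dp N a (t + x)‖ ^ 2 ≤ 2 * ‖Dp N a t‖ ^ 2 +
      2 * ∑ m ∈ Ico 1 N, (Real.log (m + 1) - Real.log m) / Q * ‖Dp N (tr a m) t‖ ^ 2 := by
  set w : ℕ → ℝ := fun m => (Real.log (m + 1) - Real.log m) / Q with hw
  have hw0 : ∀ m ∈ Ico 1 N, 0 ≤ w m := by
    intro m hm
    have hm1 : (1 : ℝ) ≤ m := by exact_mod_cast (mem_Ico.1 hm).1
    have : Real.log m ≤ Real.log (m + 1) := Real.log_le_log (by linarith) (by linarith)
    rw [hw]
    simp only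
    have : 0 ≤ Real.log (m + 1) - Real.log m := by linarith
    positivity
  have hwsum : ∑ m ∈ Ico 1 N, w m ≤ 1 := by
    have h1 : ∑ m ∈ Ico 1 N, w m = (Real.log N - Real.log (1 : ℕ)) / Q := by
      rw [hw, ← sum_div]
      congr 1
      have := Finset.sum_Ico_sub (fun m : ℕ => Real.log (m : ℝ)) hN
      simpa using this
    rw [h1, div_le_one hQ]
    simpa using hNQ
  have hg : Dp N a (t + x) = ∑ n ∈ Icc 1 N, Complex.exp (((x * Real.log n : ℝ) : ℂ) * I) *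
      (a n * Complex.exp (((t * Real.log n : ℝ) : ℂ) * I)) := by
    unfold Dp
    refine sum_congr rfl fun n _ => ?_
    have : Complex.exp ((((t + x) * Real.log n : ℝ) : ℂ) * I) =
        Complex.exp (((x * Real.log n : ℝ) : ℂ) * I) *
          Complex.exp (((t * Real.log n : ℝ) : ℂ) * I) := by
      rw [exp_mul]
      congr 3
      ring
    rw [this]
    ring
  have hB : ∀ m, m ≤ N → ∑ n ∈ Icc 1 m, a n * Complex.exp (((t * Real.log n : ℝ) : ℂ) * I) =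
      Dp N (tr a m) t := by
    intro m hm
    unfold Dp tr
    rw [← sum_subset (Icc_subset_Icc_right hm)]
    · refine sum_congr rfl fun n hn => ?_
      rw [if_pos (mem_Icc.1 hn).2]
    · intro n hn hn'
      have : ¬ n ≤ m := by
        intro h
        exact hn' (mem_Icc.2 ⟨(mem_Icc.1 hn).1, h⟩)
      rw [if_neg this, zero_mul]
  have hle : ‖Dp N a (t + x)‖ ≤ ‖Dp N a t‖ + ∑ m ∈ Ico 1 N, w m * ‖Dp N (tr a m) t‖ := by
    rw [hg, abel _ _ N hN]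
    refine (norm_sub_le _ _).trans ?_
    apply add_le_add
    · rw [norm_mul, Complex.norm_exp_ofReal_mul_I, one_mul]
      exact le_of_eq rfl
    · refine (norm_sum_le _ _).trans (sum_le_sum fun m hm => ?_)
      have hm2 := mem_Ico.1 hm
      have hm1 : (1 : ℝ) ≤ m := by exact_mod_cast hm2.1
      rw [norm_mul, hB m hm2.2.le]
      apply mul_le_mul_of_nonneg_right _ (norm_nonneg _)
      refine (norm_exp_sub _ _).trans ?_
      have hl : Real.log m ≤ Real.log (m + 1) := Real.log_le_log (by linarith) (by linarith)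
      have e1 : x * Real.log ((m + 1 : ℕ) : ℝ) - x * Real.log m =
          x * (Real.log (m + 1) - Real.log m) := by
        push_cast
        ring
      rw [e1, abs_of_nonneg (mul_nonneg hx (by linarith))]
      calc x * (Real.log (m + 1) - Real.log m) ≤ 1 / Q * (Real.log (m + 1) - Real.log m) := by
            apply mul_le_mul_of_nonneg_right hxQ (by linarith)
        _ = w m := by rw [hw]; ring
  have hcs : (∑ m ∈ Ico 1 N, w m * ‖Dp N (tr a m) t‖) ^ 2 ≤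
      ∑ m ∈ Ico 1 N, w m * ‖Dp N (tr a m) t‖ ^ 2 := by
    have h1 := Finset.sum_mul_sq_le_sq_mul_sq (Ico 1 N) (fun m => √(w m))
      (fun m => √(w m) * ‖Dp N (tr a m) t‖)
    have e1 : ∑ m ∈ Ico 1 N, √(w m) * (√(w m) * ‖Dp N (tr a m) t‖) =
        ∑ m ∈ Ico 1 N, w m * ‖Dp N (tr a m) t‖ := by
      refine sum_congr rfl fun m hm => ?_
      rw [← mul_assoc, Real.mul_self_sqrt (hw0 m hm)]
    have e2 : ∑ m ∈ Ico 1 N, √(w m) ^ 2 = ∑ m ∈ Ico 1 N, w m :=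
      sum_congr rfl fun m hm => Real.sq_sqrt (hw0 m hm)
    have e3 : ∑ m ∈ Ico 1 N, (√(w m) * ‖Dp N (tr a m) t‖) ^ 2 =
        ∑ m ∈ Ico 1 N, w m * ‖Dp N (tr a m) t‖ ^ 2 := by
      refine sum_congr rfl fun m hm => ?_
      rw [mul_pow, Real.sq_sqrt (hw0 m hm)]
    rw [e1, e2, e3] at h1
    have h2 : 0 ≤ ∑ m ∈ Ico 1 N, w m * ‖Dp N (tr a m) t‖ ^ 2 :=
      sum_nonneg fun m hm => mul_nonneg (hw0 m hm) (sq_nonneg _)
    calc _ ≤ _ := h1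
      _ ≤ 1 * ∑ m ∈ Ico 1 N, w m * ‖Dp N (tr a m) t‖ ^ 2 := by gcongr
      _ = _ := one_mul _
  have h0 : 0 ≤ ∑ m ∈ Ico 1 N, w m * ‖Dp N (tr a m) t‖ :=
    sum_nonneg fun m hm => mul_nonneg (hw0 m hm) (norm_nonneg _)
  calc ‖Dp N a (t + x)‖ ^ 2 ≤ (‖Dp N a t‖ + ∑ m ∈ Ico 1 N, w m * ‖Dp N (tr a m) t‖) ^ 2 := by
        gcongr
    _ ≤ 2 * (‖Dp N a t‖ ^ 2 + (∑ m ∈ Ico 1 N, w m * ‖Dp N (tr a m) t‖) ^ 2) := add_sq_le
    _ ≤ 2 * (‖Dp N a t‖ ^ 2 + ∑ m ∈ Ico 1 N, w m * ‖Dp N (tr a m) t‖ ^ 2) := by gcongr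
    _ = _ := by ring

/-- the right side of `move` -/
noncomputable def GG (N : ℕ) (Q : ℝ) (a : ℕ → ℂ) (t : ℝ) : ℝ :=
  2 * ‖Dp N a t‖ ^ 2 +
      2 * ∑ m ∈ Ico 1 N, (Real.log (m + 1) - Real.log m) / Q * ‖Dp N (tr a m) t‖ ^ 2

theorem GG_nonneg (N : ℕ) (Q : ℝ) (hQ : 0 < Q) (a : ℕ → ℂ) (t : ℝ) : 0 ≤ GG N Q a t := by
  unfold GG
  have : ∀ m ∈ Ico 1 N, 0 ≤ (Real.log (m + 1) - Real.log m) / Q * ‖Dp N (tr a m) t‖ ^ 2 := by
    intro m hm
    have hm1 : (1 : ℝ) ≤ m := by exact_mod_cast (mem_Ico.1 hm).1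
    have : Real.log m ≤ Real.log (m + 1) := Real.log_le_log (by linarith) (by linarith)
    have : 0 ≤ Real.log (m + 1) - Real.log m := by linarith
    positivity
  have := sum_nonneg this
  positivity

theorem sum_GG_le {ι : Type} (P : Finset ι) (p : ι → ℝ) (N : ℕ) (hN : 1 ≤ N) (Q : ℝ) (hQ : 0 < Q)
    (hNQ : Real.log N ≤ Q) (S : ℝ)
    (h : ∀ a : ℕ → ℂ, (∀ n, ‖a n‖ ≤ 1) → ∑ i ∈ P, ‖Dp N a (p i)‖ ^ 2 ≤ S)
    (a : ℕ → ℂ) (ha : ∀ n, ‖a n‖ ≤ 1) :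
    ∑ i ∈ P, GG N Q a (p i) ≤ 4 * S := by
  unfold GG
  rw [sum_add_distrib, ← mul_sum, ← mul_sum, sum_comm]
  have h1 := h a ha
  have hS : 0 ≤ S := (sum_nonneg fun i _ => sq_nonneg _).trans h1
  have h2 : ∑ m ∈ Ico 1 N, ∑ i ∈ P, (Real.log (m + 1) - Real.log m) / Q *
      ‖Dp N (tr a m) (p i)‖ ^ 2 ≤ ∑ m ∈ Ico 1 N, (Real.log (m + 1) - Real.log m) / Q * S := by
    refine sum_le_sum fun m hm => ?_
    have hm1 : (1 : ℝ) ≤ m := by exact_mod_cast (mem_Ico.1 hm).1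
    have : Real.log m ≤ Real.log (m + 1) := Real.log_le_log (by linarith) (by linarith)
    have h3 : 0 ≤ (Real.log (m + 1) - Real.log m) / Q := div_nonneg (by linarith) hQ.le
    rw [← mul_sum]
    exact mul_le_mul_of_nonneg_left (h (tr a m) (tr_le ha m)) h3
  have h3 : ∑ m ∈ Ico 1 N, (Real.log (m + 1) - Real.log m) / Q * S ≤ S := by
    rw [← sum_mul, ← sum_div]
    have e1 : ∑ m ∈ Ico 1 N, (Real.log ((m : ℝ) + 1) - Real.log m) = Real.log N := by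
      have := Finset.sum_Ico_sub (fun m : ℕ => Real.log (m : ℝ)) hN
      simpa using this
    rw [e1]
    calc Real.log N / Q * S ≤ 1 * S := by
          gcongr
          rwa [div_le_one hQ]
      _ = S := one_mul S
  linarith

end Pool.Agent.Q201.ML
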