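import Pool.Agent.Q201.ML.Zeta

set_option autoImplicit false

/-!
# Mean squares of Dirichlet polynomials over finite families, by positive definiteness
-/

namespace Pool.Agent.Q201.ML

open Complex Finset

/-- `∑_{n ≤ N} a n n^{it}` -/
noncomputable def Dp (N : ℕ) (a : ℕ → ℂ) (t : ℝ) : ℂ :=
  ∑ n ∈ Icc 1 N, a n * Complex.exp (((t * Real.log n : ℝ) : ℂ) * I)

/-- the zeta sum `∑_{n ≤ N} n^{iu}` -/
noncomputable def ZZ (N : ℕ) (u : ℝ) : ℂ :=
  ∑ n ∈ Icc 1 N, Complex.exp (((u * Real.log n : ℝ) : ℂ) * I)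

/-- the exponential sum of the family `p` at `log (m / n)` -/
noncomputable def hat {ι : Type} (P : Finset ι) (p : ι → ℝ) (m n : ℕ) : ℂ :=
  ∑ i ∈ P, Complex.exp (((p i * (Real.log m - Real.log n) : ℝ) : ℂ) * I)

theorem conj_exp (x : ℝ) : (starRingEnd ℂ) (Complex.exp ((x : ℂ) * I)) =
    Complex.exp (((-x : ℝ) : ℂ) * I) := by
  rw [← Complex.exp_conj, map_mul, Complex.conj_ofReal, Complex.conj_I]
  congr 1
  push_cast
  ring

theorem exp_mul (x y : ℝ) : Complex.exp ((x : ℂ) * I) * Complex.exp ((y : ℂ) * I) =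
    Complex.exp (((x + y : ℝ) : ℂ) * I) := by
  rw [← Complex.exp_add]
  congr 1
  push_cast
  ring

theorem sq_norm (z : ℂ) : ((‖z‖ ^ 2 : ℝ) : ℂ) = z * (starRingEnd ℂ) z := by
  rw [Complex.mul_conj, Complex.normSq_eq_norm_sq]

/-- the basic inequality -/
theorem sum_sq_le {ι : Type} (P : Finset ι) (p : ι → ℝ) (N : ℕ) (a : ℕ → ℂ)
    (ha : ∀ n, ‖a n‖ ≤ 1) (v : ℝ) :
    ∑ i ∈ P, ‖Dp N a (v + p i)‖ ^ 2 ≤ ∑ m ∈ Icc 1 N, ∑ n ∈ Icc 1 N, ‖hat P p m n‖ := by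
  have h1 : ((∑ i ∈ P, ‖Dp N a (v + p i)‖ ^ 2 : ℝ) : ℂ) =
      ∑ m ∈ Icc 1 N, ∑ n ∈ Icc 1 N, a m * (starRingEnd ℂ) (a n) *
        Complex.exp (((v * (Real.log m - Real.log n) : ℝ) : ℂ) * I) * hat P p m n := by
    rw [Complex.ofReal_sum]
    have : ∀ i ∈ P, ((‖Dp N a (v + p i)‖ ^ 2 : ℝ) : ℂ) =
        ∑ m ∈ Icc 1 N, ∑ n ∈ Icc 1 N, a m * (starRingEnd ℂ) (a n) *
        Complex.exp (((v * (Real.log m - Real.log n) : ℝ) : ℂ) * I) *
          Complex.exp (((p i * (Real.log m - Real.log n) : ℝ) : ℂ) * I) := by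
      intro i _
      rw [sq_norm]
      unfold Dp
      rw [map_sum, sum_mul_sum]
      refine sum_congr rfl fun m _ => sum_congr rfl fun n _ => ?_
      rw [map_mul, conj_exp]
      have e1 : Complex.exp ((((v + p i) * Real.log m : ℝ) : ℂ) * I) *
          Complex.exp (((-((v + p i) * Real.log n) : ℝ) : ℂ) * I) =
          Complex.exp (((v * (Real.log m - Real.log n) : ℝ) : ℂ) * I) *
          Complex.exp (((p i * (Real.log m - Real.log n) : ℝ) : ℂ) * I) := by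
        rw [exp_mul, exp_mul]
        congr 3
        ring
      calc _ = a m * (starRingEnd ℂ) (a n) * (Complex.exp ((((v + p i) * Real.log m : ℝ) : ℂ) * I) *
          Complex.exp (((-((v + p i) * Real.log n) : ℝ) : ℂ) * I)) := by ring
        _ = _ := by rw [e1]; ring
    rw [sum_congr rfl this, sum_comm]
    refine sum_congr rfl fun m _ => ?_
    rw [sum_comm]
    refine sum_congr rfl fun n _ => ?_
    unfold hat
    rw [mul_sum]
  have h2 : ∑ i ∈ P, ‖Dp N a (v + p i)‖ ^ 2 =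
      ‖((∑ i ∈ P, ‖Dp N a (v + p i)‖ ^ 2 : ℝ) : ℂ)‖ := by
    rw [Complex.norm_real, Real.norm_eq_abs, abs_of_nonneg (by positivity)]
  rw [h2, h1]
  refine (norm_sum_le _ _).trans (sum_le_sum fun m _ => (norm_sum_le _ _).trans
    (sum_le_sum fun n _ => ?_))
  rw [norm_mul, norm_mul, norm_mul, Complex.norm_exp_ofReal_mul_I, mul_one, RCLike.norm_conj]
  have := ha m
  have := ha n
  have h3 : ‖a m‖ * ‖a n‖ ≤ 1 := by
    nlinarith [norm_nonneg (a m), norm_nonneg (a n)]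
  calc _ ≤ 1 * ‖hat P p m n‖ := by gcongr
    _ = _ := one_mul _

theorem sum_hat_sq {ι : Type} (P : Finset ι) (p : ι → ℝ) (N : ℕ) :
    ∑ m ∈ Icc 1 N, ∑ n ∈ Icc 1 N, ‖hat P p m n‖ ^ 2 =
      ∑ i ∈ P, ∑ j ∈ P, ‖ZZ N (p i - p j)‖ ^ 2 := by
  have h : ((∑ m ∈ Icc 1 N, ∑ n ∈ Icc 1 N, ‖hat P p m n‖ ^ 2 : ℝ) : ℂ) =
      ((∑ i ∈ P, ∑ j ∈ P, ‖ZZ N (p i - p j)‖ ^ 2 : ℝ) : ℂ) := by
    have e1 : ∀ m ∈ Icc 1 N, ∀ n ∈ Icc 1 N, ((‖hat P p m n‖ ^ 2 : ℝ) : ℂ) =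
        ∑ i ∈ P, ∑ j ∈ P, Complex.exp ((((p i - p j) * Real.log m : ℝ) : ℂ) * I) *
          Complex.exp (((-((p i - p j) * Real.log n) : ℝ) : ℂ) * I) := by
      intro m _ n _
      rw [sq_norm]
      unfold hat
      rw [map_sum, sum_mul_sum]
      refine sum_congr rfl fun i _ => sum_congr rfl fun j _ => ?_
      rw [conj_exp, exp_mul, exp_mul]
      congr 3
      ring
    have e2 : ∀ i ∈ P, ∀ j ∈ P, ((‖ZZ N (p i - p j)‖ ^ 2 : ℝ) : ℂ) =
        ∑ m ∈ Icc 1 N, ∑ n ∈ Icc 1 N, Complex.exp ((((p i - p j) * Real.log m : ℝ) : ℂ) * I) *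
          Complex.exp (((-((p i - p j) * Real.log n) : ℝ) : ℂ) * I) := by
      intro i _ j _
      rw [sq_norm]
      unfold ZZ
      rw [map_sum, sum_mul_sum]
      refine sum_congr rfl fun m _ => sum_congr rfl fun n _ => ?_
      rw [conj_exp]
    set F : ι → ι → ℕ → ℕ → ℂ := fun i j m n =>
      Complex.exp ((((p i - p j) * Real.log m : ℝ) : ℂ) * I) *
          Complex.exp (((-((p i - p j) * Real.log n) : ℝ) : ℂ) * I) with hF
    have l1 : ((∑ m ∈ Icc 1 N, ∑ n ∈ Icc 1 N, ‖hat P p m n‖ ^ 2 : ℝ) : ℂ) =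
        ∑ m ∈ Icc 1 N, ∑ n ∈ Icc 1 N, ∑ i ∈ P, ∑ j ∈ P, F i j m n := by
      rw [Complex.ofReal_sum]
      refine sum_congr rfl fun m hm => ?_
      rw [Complex.ofReal_sum]
      exact sum_congr rfl fun n hn => e1 m hm n hn
    have l2 : ((∑ i ∈ P, ∑ j ∈ P, ‖ZZ N (p i - p j)‖ ^ 2 : ℝ) : ℂ) =
        ∑ i ∈ P, ∑ j ∈ P, ∑ m ∈ Icc 1 N, ∑ n ∈ Icc 1 N, F i j m n := by
      rw [Complex.ofReal_sum]
      refine sum_congr rfl fun i hi => ?_
      rw [Complex.ofReal_sum]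
      exact sum_congr rfl fun j hj => e2 i hi j hj
    rw [l1, l2]
    calc ∑ m ∈ Icc 1 N, ∑ n ∈ Icc 1 N, ∑ i ∈ P, ∑ j ∈ P, F i j m n
        = ∑ m ∈ Icc 1 N, ∑ i ∈ P, ∑ n ∈ Icc 1 N, ∑ j ∈ P, F i j m n :=
          sum_congr rfl fun m _ => sum_comm
      _ = ∑ i ∈ P, ∑ m ∈ Icc 1 N, ∑ n ∈ Icc 1 N, ∑ j ∈ P, F i j m n := sum_comm
      _ = ∑ i ∈ P, ∑ m ∈ Icc 1 N, ∑ j ∈ P, ∑ n ∈ Icc 1 N, F i j m n :=
          sum_congr rfl fun i _ => sum_congr rfl fun m _ => sum_comm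
      _ = ∑ i ∈ P, ∑ j ∈ P, ∑ m ∈ Icc 1 N, ∑ n ∈ Icc 1 N, F i j m n :=
          sum_congr rfl fun i _ => sum_comm
  exact_mod_cast h

theorem norm_ZZ (N : ℕ) (u : ℝ) : ‖ZZ N u‖ = ‖ZS N |u|‖ := by
  have h1 : ∀ t : ℝ, ‖ZZ N t‖ = ‖ZS N t‖ := by
    intro t
    rw [← RCLike.norm_conj (ZZ N t)]
    congr 1
    unfold ZZ ZS
    rw [map_sum]
    have : Icc 1 N = (range N).image (fun n => n + 1) := by
      ext x
      simp only [mem_Icc, mem_image, mem_range]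
      constructor
      · intro h; exact ⟨x - 1, by omega, by omega⟩
      · rintro ⟨y, hy, rfl⟩; omega
    rw [this, sum_image (by intro x _ y _ h; simpa using h)]
    refine sum_congr rfl fun n _ => ?_
    rw [conj_exp]
    unfold Pool.Agent.Helper153.Vdc.ee
    congr 1
    have hpi : ((Real.pi : ℝ) : ℂ) ≠ 0 := by exact_mod_cast Real.pi_ne_zero
    push_cast
    field_simp
  have h2 : ‖ZZ N (-u)‖ = ‖ZZ N u‖ := by
    rw [← RCLike.norm_conj (ZZ N u)]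
    congr 1
    unfold ZZ
    rw [map_sum]
    refine sum_congr rfl fun n _ => ?_
    rw [conj_exp]
    congr 3
    ring
  rcases abs_choice u with h | h
  · rw [h, h1]
  · rw [h, ← h1, h2]

theorem norm_ZZ_le (N : ℕ) (u : ℝ) : ‖ZZ N u‖ ≤ N := by
  unfold ZZ
  refine (norm_sum_le _ _).trans ?_
  simp only [Complex.norm_exp_ofReal_mul_I]
  simp

/-- the weights -/
noncomputable def Wt (h : ℤ) : ℝ := 1 / (h : ℝ) ^ 2 + if h = 0 then 1 else 0

theorem Wt_nonneg (h : ℤ) : 0 ≤ Wt h := by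
  unfold Wt
  split_ifs <;> positivity

theorem Wt_summable : Summable Wt := by
  unfold Wt
  apply Summable.add
  · exact (Real.summable_one_div_int_pow (p := 2)).2 (by norm_num)
  · apply summable_of_ne_finset_zero (s := {0})
    intro b hb
    rw [Finset.mem_singleton] at hb
    simp [hb]

theorem ZZ_sq_le (k : ℕ) (hk : 2 ≤ k) (ε : ℝ) (hε : 0 < ε) : ∃ C : ℝ, 1 ≤ C ∧
    ∀ (N : ℕ) (T u : ℝ) (h : ℤ), 1 ≤ N → |u| ≤ 2 * T → |u - h| < 1 →
      ‖ZZ N u‖ ^ 2 ≤ C * (N : ℝ) ^ ε * (N ^ 2 * Wt h + MT k N T ^ 2) := by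
  obtain ⟨C, hC, hz⟩ := ZS_le k hk (ε / 2) (by positivity)
  refine ⟨32 * C ^ 2, by nlinarith, ?_⟩
  intro N T u h hN huT huh
  have hN' : (1 : ℝ) ≤ N := by exact_mod_cast hN
  have hN0 : (0 : ℝ) < N := by linarith
  have hNe : 1 ≤ (N : ℝ) ^ ε := Real.one_le_rpow hN' hε.le
  have hT : 0 ≤ T := by have := abs_nonneg u; linarith
  have hM0 : 0 ≤ MT k N T := by unfold MT; positivity
  have hW := Wt_nonneg h
  have hC2 : 1 ≤ C ^ 2 := by nlinarith
  have hpre : 1 ≤ 32 * C ^ 2 * (N : ℝ) ^ ε := by nlinarith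
  rcases le_or_gt |h| 1 with h1 | h1
  · have hW1 : 1 ≤ Wt h := by
      unfold Wt
      have : h = 0 ∨ h = 1 ∨ h = -1 := by
        rw [abs_le] at h1
        omega
      rcases this with rfl | rfl | rfl <;> norm_num
    have h2 : ‖ZZ N u‖ ^ 2 ≤ (N : ℝ) ^ 2 := by
      have := norm_ZZ_le N u
      gcongr
    calc ‖ZZ N u‖ ^ 2 ≤ (N : ℝ) ^ 2 := h2
      _ ≤ N ^ 2 * Wt h + MT k N T ^ 2 := by nlinarith [sq_nonneg (MT k N T), sq_nonneg (N : ℝ)]
      _ = 1 * (N ^ 2 * Wt h + MT k N T ^ 2) := by ring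
      _ ≤ _ := by gcongr
  · have h2 : (2 : ℝ) ≤ |(h : ℝ)| := by
      have : (2 : ℤ) ≤ |h| := by omega
      have h3 : ((2 : ℤ) : ℝ) ≤ ((|h| : ℤ) : ℝ) := by exact_mod_cast this
      rw [Int.cast_abs] at h3
      simpa using h3
    have h3 : |(h : ℝ)| / 2 ≤ |u| := by
      have h4 : |(h : ℝ)| ≤ |u| + |u - h| := by
        calc |(h : ℝ)| = |u - (u - h)| := by ring_nf
          _ ≤ _ := abs_sub _ _
      linarith
    have hu1 : 1 ≤ |u| := by linarith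
    have hu0 : 0 < |u| := by linarith
    have hb0 := eb_pos hk
    have h5 := hz N |u| hN hu1
    rw [← norm_ZZ] at h5
    have h6 : MT k N |u| ≤ 2 * MT k N T := by
      unfold MT
      have hb1 : eb k ≤ 1 := by
        unfold eb
        have := two_mul_le_pow hk
        have hk' : (2 : ℝ) ≤ k := by exact_mod_cast hk
        rw [div_le_one (by linarith)]
        linarith
      have e1 : |u| ^ eb k ≤ 2 * T ^ eb k := by
        calc |u| ^ eb k ≤ (2 * T) ^ eb k := Real.rpow_le_rpow hu0.le huT hb0.le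
          _ = 2 ^ eb k * T ^ eb k := Real.mul_rpow (by norm_num) hT
          _ ≤ 2 * T ^ eb k := by
            gcongr
            calc (2 : ℝ) ^ eb k ≤ 2 ^ (1 : ℝ) := Real.rpow_le_rpow_of_exponent_le (by norm_num) hb1
              _ = 2 := by simp
      calc (N : ℝ) ^ ea k * |u| ^ eb k ≤ (N : ℝ) ^ ea k * (2 * T ^ eb k) := by gcongr
        _ = _ := by ring
    have hh0 : (0 : ℝ) < |(h : ℝ)| := by linarith
    have h7 : (N : ℝ) / |u| ≤ 2 * N / |(h : ℝ)| := by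
      rw [div_le_div_iff₀ hu0 hh0]
      nlinarith
    have h8 : ‖ZZ N u‖ ≤ C * (N : ℝ) ^ (ε / 2) * (2 * N / |(h : ℝ)| + 2 * MT k N T) := by
      refine h5.trans ?_
      gcongr
    have h9 : Wt h = 1 / |(h : ℝ)| ^ 2 := by
      unfold Wt
      have : h ≠ 0 := by
        intro h0
        rw [h0] at h1
        simp at h1
      rw [if_neg this, sq_abs]
      ring
    have h10 : ((N : ℝ) ^ (ε / 2)) ^ 2 = (N : ℝ) ^ ε := by
      rw [← Real.rpow_natCast, ← Real.rpow_mul hN0.le]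
      congr 1
      push_cast
      ring
    calc ‖ZZ N u‖ ^ 2 ≤ (C * (N : ℝ) ^ (ε / 2) * (2 * N / |(h : ℝ)| + 2 * MT k N T)) ^ 2 := by gcongr
      _ = C ^ 2 * (N : ℝ) ^ ε * (2 * N / |(h : ℝ)| + 2 * MT k N T) ^ 2 := by
        rw [mul_pow, mul_pow, h10]
      _ ≤ C ^ 2 * (N : ℝ) ^ ε * (2 * ((2 * N / |(h : ℝ)|) ^ 2 + (2 * MT k N T) ^ 2)) := by
        gcongr
        exact add_sq_le
      _ = 8 * C ^ 2 * (N : ℝ) ^ ε * (N ^ 2 * Wt h + MT k N T ^ 2) := by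
        rw [h9]
        field_simp
        ring
      _ ≤ 32 * C ^ 2 * (N : ℝ) ^ ε * (N ^ 2 * Wt h + MT k N T ^ 2) := by gcongr; norm_num

/-- the number of pairs with the same integral part -/
def co {ι : Type} (P : Finset ι) (f : ι → ℤ) : ℕ := ((P ×ˢ P).filter fun q => f q.1 = f q.2).card

theorem co_shift {ι : Type} (P : Finset ι) (f : ι → ℤ) (h : ℤ) :
    ((P ×ˢ P).filter fun q => f q.1 - f q.2 = h).card ≤ co P f := by
  classical
  have key : ∀ h : ℤ, ((P ×ˢ P).filter fun q => f q.1 - f q.2 = h).card =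
      ∑ n ∈ P.image f, (P.filter fun i => f i = n).card * (P.filter fun i => f i = n - h).card := by
    intro h
    rw [card_eq_sum_card_fiberwise (f := fun q : ι × ι => f q.1) (t := P.image f)]
    · refine sum_congr rfl fun n _ => ?_
      rw [← card_product]
      congr 1
      ext q
      simp only [mem_filter, mem_product]
      constructor
      · rintro ⟨⟨⟨h1, h2⟩, h3⟩, h4⟩
        exact ⟨⟨h1, h4⟩, h2, by omega⟩
      · rintro ⟨⟨h1, h4⟩, h2, h3⟩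
        exact ⟨⟨⟨h1, h2⟩, by omega⟩, h4⟩
    · intro q hq
      simp only [coe_filter, mem_product, Set.mem_ofPred_eq] at hq
      exact mem_coe.2 (mem_image_of_mem f hq.1.1)
  set s : ℤ → ℕ := fun n => (P.filter fun i => f i = n).card with hs
  have h0 : co P f = ∑ n ∈ P.image f, s n * s n := by
    have := key 0
    simp only [sub_eq_zero, sub_zero] at this
    exact this
  rw [key h, h0]
  have h2 : ∑ n ∈ P.image f, s (n - h) * s (n - h) ≤ ∑ n ∈ P.image f, s n * s n := by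
    have e1 : ∑ n ∈ P.image f, s (n - h) * s (n - h) =
        ∑ m ∈ (P.image f).image (fun n => n - h), s m * s m := by
      exact (Finset.sum_image (f := fun m => s m * s m) (s := P.image f) (g := fun n => n - h)
        (by intro x _ y _ hxy; simpa using hxy)).symm
    rw [e1]
    have e2 : ∑ m ∈ (P.image f).image (fun n => n - h), s m * s m =
        ∑ m ∈ ((P.image f).image (fun n => n - h)).filter (fun m => m ∈ P.image f), s m * s m := by
      rw [sum_filter]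
      refine sum_congr rfl fun m _ => ?_
      split_ifs with hm
      · rfl
      · have : s m = 0 := by
          rw [hs]
          simp only [card_eq_zero, filter_eq_empty_iff]
          intro i hi hfi
          exact hm (mem_image.2 ⟨i, hi, hfi⟩)
        simp [this]
    rw [e2]
    apply sum_le_sum_of_subset
    intro m hm
    exact (mem_filter.1 hm).2
  have h3 : 2 * ∑ n ∈ P.image f, s n * s (n - h) ≤
      ∑ n ∈ P.image f, s n * s n + ∑ n ∈ P.image f, s (n - h) * s (n - h) := by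
    rw [mul_sum, ← sum_add_distrib]
    refine sum_le_sum fun n _ => ?_
    nlinarith [two_mul_le_add_sq (s n) (s (n - h))]
  have h4 : ∑ n ∈ P.image f, s n * s (n - h) ≤ ∑ n ∈ P.image f, s n * s n := by omega
  exact h4

theorem sum_Wt_le {ι : Type} (P : Finset ι) (f : ι → ℤ) :
    ∑ i ∈ P, ∑ j ∈ P, Wt (f i - f j) ≤ (∑' h : ℤ, Wt h) * co P f := by
  classical
  rw [← sum_product']
  have h1 : ∑ q ∈ P ×ˢ P, Wt (f q.1 - f q.2) =
      ∑ h ∈ (P ×ˢ P).image (fun q => f q.1 - f q.2),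
        (((P ×ˢ P).filter fun q => f q.1 - f q.2 = h).card : ℝ) * Wt h := by
    rw [← sum_fiberwise_of_maps_to (g := fun q : ι × ι => f q.1 - f q.2)
      (t := (P ×ˢ P).image (fun q => f q.1 - f q.2)) (fun q hq => mem_image_of_mem _ hq)]
    refine sum_congr rfl fun h _ => ?_
    rw [← nsmul_eq_mul, ← sum_const]
    refine sum_congr rfl fun q hq => ?_
    rw [(mem_filter.1 hq).2]
  rw [h1]
  calc _ ≤ ∑ h ∈ (P ×ˢ P).image (fun q => f q.1 - f q.2), (co P f : ℝ) * Wt h := by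
        refine sum_le_sum fun h _ => ?_
        have := co_shift P f h
        have hW := Wt_nonneg h
        gcongr
    _ = (∑ h ∈ (P ×ˢ P).image (fun q => f q.1 - f q.2), Wt h) * co P f := by
        rw [← mul_sum, mul_comm]
    _ ≤ _ := by
        gcongr
        exact Wt_summable.sum_le_tsum _ (fun h _ => Wt_nonneg h)

/-- **Second moment of the exponential sums.** -/
theorem sum_hat_sq_le (k : ℕ) (hk : 2 ≤ k) (ε : ℝ) (hε : 0 < ε) : ∃ C : ℝ, 1 ≤ C ∧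
    ∀ (N : ℕ) (T : ℝ) (ι : Type) (P : Finset ι) (p : ι → ℝ), 1 ≤ N →
      (∀ i ∈ P, ∀ j ∈ P, |p i - p j| ≤ 2 * T) →
      ∑ m ∈ Icc 1 N, ∑ n ∈ Icc 1 N, ‖hat P p m n‖ ^ 2 ≤
        C * (N : ℝ) ^ ε * (N ^ 2 * co P (fun i => ⌊p i⌋) + MT k N T ^ 2 * (P.card : ℝ) ^ 2) := by
  obtain ⟨C, hC, h⟩ := ZZ_sq_le k hk ε hε
  set S := ∑' h : ℤ, Wt h with hS
  have hS0 : 0 ≤ S := tsum_nonneg Wt_nonneg
  refine ⟨C * (S + 1), by nlinarith, ?_⟩
  intro N T ι P p hN hT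
  rw [sum_hat_sq]
  have hCN : 0 ≤ C * (N : ℝ) ^ ε := by positivity
  have h1 : ∀ i ∈ P, ∀ j ∈ P, ‖ZZ N (p i - p j)‖ ^ 2 ≤
      C * (N : ℝ) ^ ε * (N ^ 2 * Wt (⌊p i⌋ - ⌊p j⌋) + MT k N T ^ 2) := by
    intro i hi j hj
    apply h N T (p i - p j) (⌊p i⌋ - ⌊p j⌋) hN (hT i hi j hj)
    rw [abs_lt]
    push_cast
    have h2 := Int.floor_le (p i)
    have h3 := Int.lt_floor_add_one (p i)
    have h4 := Int.floor_le (p j)
    have h5 := Int.lt_floor_add_one (p j)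
    constructor <;> linarith
  calc ∑ i ∈ P, ∑ j ∈ P, ‖ZZ N (p i - p j)‖ ^ 2
      ≤ ∑ i ∈ P, ∑ j ∈ P, C * (N : ℝ) ^ ε * (N ^ 2 * Wt (⌊p i⌋ - ⌊p j⌋) + MT k N T ^ 2) :=
        sum_le_sum fun i hi => sum_le_sum fun j hj => h1 i hi j hj
    _ = C * (N : ℝ) ^ ε * (N ^ 2 * (∑ i ∈ P, ∑ j ∈ P, Wt (⌊p i⌋ - ⌊p j⌋)) +
        MT k N T ^ 2 * (P.card : ℝ) ^ 2) := by
        simp only [← mul_sum, sum_add_distrib, sum_const, nsmul_eq_mul]
        ring
    _ ≤ C * (N : ℝ) ^ ε * (N ^ 2 * (S * co P (fun i => ⌊p i⌋)) +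
        MT k N T ^ 2 * (P.card : ℝ) ^ 2) := by
        gcongr
        exact sum_Wt_le P (fun i => ⌊p i⌋)
    _ ≤ C * (N : ℝ) ^ ε * ((S + 1) * (N ^ 2 * co P (fun i => ⌊p i⌋) +
        MT k N T ^ 2 * (P.card : ℝ) ^ 2)) := by
        apply mul_le_mul_of_nonneg_left _ hCN
        have e1 : 0 ≤ (N : ℝ) ^ 2 * co P (fun i => ⌊p i⌋) := by positivity
        have e2 : 0 ≤ MT k N T ^ 2 * (P.card : ℝ) ^ 2 := by positivity
        nlinarith
    _ = _ := by ring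

end Pool.Agent.Q201.ML
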