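import Pool.Agent.Q201.ML.Bil

set_option autoImplicit false

/-!
# Large values on sets of large approximate additive energy
-/

namespace Pool.Agent.Q201.ML

open Complex Finset

theorem near_sum (A : Finset ℝ) (hA : ∀ t ∈ A, ∀ u ∈ A, t ≠ u → 1 ≤ |t - u|) (N : ℕ)
    (hN : 1 ≤ N) (Q : ℕ) (hQ : 1 ≤ Q) (hNQ : Real.log N ≤ Q) (a : ℕ → ℂ) (x : ℝ) :
    ∑ d ∈ A.filter (fun d => |x - d| ≤ 1), ‖Dp N a d‖ ^ 2 ≤
      ∑ j ∈ Icc (-(Q : ℤ)) Q, GG N Q a (x + j / Q) := by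
  classical
  have hQ1 : (1 : ℝ) ≤ Q := by exact_mod_cast hQ
  have hQ0 : (0 : ℝ) < Q := by linarith
  set g : ℝ → ℤ := fun d => ⌊(d - x) * Q⌋ with hg
  have h1 : ∀ d ∈ A.filter (fun d => |x - d| ≤ 1),
      ‖Dp N a d‖ ^ 2 ≤ GG N Q a (x + (g d : ℝ) / Q) := by
    intro d _
    have l1 : (g d : ℝ) ≤ (d - x) * Q := Int.floor_le _
    have l2 : (d - x) * Q < g d + 1 := Int.lt_floor_add_one _
    have l3 : (g d : ℝ) / Q ≤ d - x := by rw [div_le_iff₀ hQ0]; exact l1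
    have l4 : d - x - (g d : ℝ) / Q ≤ 1 / Q := by
      rw [le_div_iff₀ hQ0, sub_mul, div_mul_cancel₀ _ hQ0.ne']
      linarith
    have h2 := move N hN Q hQ0 hNQ a (x + (g d : ℝ) / Q) (d - x - (g d : ℝ) / Q) (by linarith) l4
    have e1 : x + (g d : ℝ) / Q + (d - x - (g d : ℝ) / Q) = d := by ring
    rw [e1] at h2
    exact h2
  have hinj : Set.InjOn g (A.filter (fun d => |x - d| ≤ 1) : Set ℝ) := by
    intro d hd e he hde
    have hd' := (mem_filter.1 (mem_coe.1 hd)).1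
    have he' := (mem_filter.1 (mem_coe.1 he)).1
    by_contra hne
    have h3 := hA d hd' e he' hne
    have l1 : (g d : ℝ) ≤ (d - x) * Q := Int.floor_le _
    have l2 : (d - x) * Q < g d + 1 := Int.lt_floor_add_one _
    have l3 : (g e : ℝ) ≤ (e - x) * Q := Int.floor_le _
    have l4 : (e - x) * Q < g e + 1 := Int.lt_floor_add_one _
    rw [hde] at l1 l2
    have h4 : |d - e| * Q < 1 := by
      have e0 : |d - e| * Q = |(d - e) * Q| := by rw [abs_mul, abs_of_pos hQ0]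
      rw [e0, abs_lt]
      constructor <;> nlinarith
    nlinarith
  have hmem : ∀ d ∈ A.filter (fun d => |x - d| ≤ 1), g d ∈ Icc (-(Q : ℤ)) Q := by
    intro d hd
    have h5 := (mem_filter.1 hd).2
    rw [abs_le] at h5
    rw [mem_Icc]
    constructor
    · rw [hg, Int.le_floor]
      push_cast
      nlinarith
    · rw [hg]
      have : (d - x) * Q ≤ (Q : ℤ) := by
        push_cast
        nlinarith
      calc ⌊(d - x) * Q⌋ ≤ ⌊((Q : ℤ) : ℝ)⌋ := Int.floor_le_floor this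
        _ = Q := Int.floor_intCast _
  calc ∑ d ∈ A.filter (fun d => |x - d| ≤ 1), ‖Dp N a d‖ ^ 2
      ≤ ∑ d ∈ A.filter (fun d => |x - d| ≤ 1), GG N Q a (x + (g d : ℝ) / Q) := sum_le_sum h1
    _ = ∑ j ∈ (A.filter (fun d => |x - d| ≤ 1)).image g, GG N Q a (x + (j : ℝ) / Q) :=
        (sum_image (f := fun j : ℤ => GG N Q a (x + (j : ℝ) / Q)) hinj).symm
    _ ≤ ∑ j ∈ Icc (-(Q : ℤ)) Q, GG N Q a (x + (j : ℝ) / Q) := by
        apply sum_le_sum_of_subset_of_nonneg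
        · intro j hj
          obtain ⟨d, hd, rfl⟩ := mem_image.1 hj
          exact hmem d hd
        · intro j _ _
          exact GG_nonneg N Q hQ0 a _

/-- The number of quadruples `(a, b, c, d)` of elements of `A` with `|a - b + c - d| ≤ 1`. -/
noncomputable def energy (A : Finset ℝ) : ℕ :=
  ((A ×ˢ A ×ˢ A ×ˢ A).filter fun q => |q.1 - q.2.1 + q.2.2.1 - q.2.2.2| ≤ 1).card

theorem energy_eq (A : Finset ℝ) : (energy A : ℝ) =
    ∑ z ∈ (A ×ˢ A) ×ˢ A, ∑ d ∈ A.filter (fun d => |(z.1.1 - z.1.2) + z.2 - d| ≤ 1), (1 : ℝ) := by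
  unfold energy
  rw [card_filter]
  push_cast
  simp only [sum_product, sum_filter]

theorem co_le_energy (A : Finset ℝ) :
    co (A ×ˢ A) (fun i : ℝ × ℝ => ⌊i.1 - i.2⌋) ≤ energy A := by
  classical
  unfold co energy
  apply card_le_card_of_injOn (fun q : (ℝ × ℝ) × (ℝ × ℝ) => (q.1.1, q.1.2, q.2.2, q.2.1))
  · intro q hq
    simp only [coe_filter, mem_product, Set.mem_ofPred_eq] at hq
    obtain ⟨⟨⟨h1, h2⟩, h3, h4⟩, h5⟩ := hq
    simp only [coe_filter, mem_product, Set.mem_ofPred_eq]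
    refine ⟨⟨h1, h2, h4, h3⟩, ?_⟩
    have l1 := Int.floor_le (q.1.1 - q.1.2)
    have l2 := Int.lt_floor_add_one (q.1.1 - q.1.2)
    have l3 := Int.floor_le (q.2.1 - q.2.2)
    have l4 := Int.lt_floor_add_one (q.2.1 - q.2.2)
    rw [h5] at l1 l2
    rw [abs_le]
    constructor <;> linarith
  · intro q _ r _ h
    simp only [Prod.mk.injEq] at h
    obtain ⟨h1, h2, h3, h4⟩ := h
    ext <;> assumption

theorem co_spaced (A : Finset ℝ) (hA : ∀ t ∈ A, ∀ u ∈ A, t ≠ u → 1 ≤ |t - u|) :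
    co A (fun i : ℝ => ⌊i⌋) ≤ A.card := by
  classical
  unfold co
  apply card_le_card_of_injOn (fun q : ℝ × ℝ => q.1)
  · intro q hq
    simp only [coe_filter, mem_product, Set.mem_ofPred_eq] at hq
    exact hq.1.1
  · have key : ∀ q : ℝ × ℝ, q ∈ ((A ×ˢ A).filter fun q : ℝ × ℝ => ⌊q.1⌋ = ⌊q.2⌋) → q.1 = q.2 := by
      intro q hq
      simp only [mem_filter, mem_product] at hq
      by_contra hne
      have h3 := hA q.1 hq.1.1 q.2 hq.1.2 hne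
      have l1 := Int.floor_le q.1
      have l2 := Int.lt_floor_add_one q.1
      have l3 := Int.floor_le q.2
      have l4 := Int.lt_floor_add_one q.2
      rw [hq.2] at l1 l2
      have : |q.1 - q.2| < 1 := by
        rw [abs_lt]
        constructor <;> linarith
      linarith
    intro q hq r hr h
    have h1 := key q (mem_coe.1 hq)
    have h2 := key r (mem_coe.1 hr)
    ext
    · exact h
    · rw [← h1, ← h2]; exact h

/-- the number of steps -/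
theorem steps_le (N : ℕ) (hN : 1 ≤ N) {ε : ℝ} (hε : 0 < ε) :
    2 * ((⌈Real.log N⌉₊ + 1 : ℕ) : ℝ) + 1 ≤ (2 / ε + 5) * (N : ℝ) ^ ε := by
  have hN' : (1 : ℝ) ≤ N := by exact_mod_cast hN
  have h0 : 0 ≤ Real.log N := Real.log_nonneg hN'
  have h1 := Nat.ceil_lt_add_one h0
  have h2 : Real.log N ≤ (N : ℝ) ^ ε / ε := Real.log_le_rpow_div (by linarith) hε
  have h3 : 1 ≤ (N : ℝ) ^ ε := Real.one_le_rpow hN' hε.le
  push_cast
  have h4 : (2 / ε + 5) * (N : ℝ) ^ ε = 2 * ((N : ℝ) ^ ε / ε) + 5 * (N : ℝ) ^ ε := by ring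
  rw [h4]
  linarith

/-- **The energy inequality.** -/
theorem energy_bound (k : ℕ) (hk : 2 ≤ k) (ε : ℝ) (hε : 0 < ε) : ∃ C : ℝ, 1 ≤ C ∧
    ∀ (N : ℕ) (T V : ℝ) (A : Finset ℝ) (a : ℕ → ℂ), 1 ≤ N → 0 ≤ V → (∀ n, ‖a n‖ ≤ 1) →
      (∀ t ∈ A, 0 ≤ t ∧ t ≤ T) → (∀ t ∈ A, ∀ u ∈ A, t ≠ u → 1 ≤ |t - u|) →
      (∀ t ∈ A, V ≤ ‖Dp N a t‖) →
      V ^ 2 * energy A ≤ C * (N : ℝ) ^ ε *
        (√((N : ℝ) ^ 2 * energy A + MT k N T ^ 2 * (A.card : ℝ) ^ 4) *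
          √((N : ℝ) ^ 2 * A.card + MT k N T ^ 2 * (A.card : ℝ) ^ 2)) := by
  obtain ⟨C, hC, h⟩ := bilinear k hk (ε / 2) (by positivity)
  have hC1 : 1 ≤ 2 / (ε / 2) + 5 := by
    have : 0 < 2 / (ε / 2) := by positivity
    linarith
  refine ⟨(2 / (ε / 2) + 5) * (4 * C), by nlinarith, ?_⟩
  intro N T V A a hN hV ha hT hA hD
  have hN' : (1 : ℝ) ≤ N := by exact_mod_cast hN
  set Q : ℕ := ⌈Real.log N⌉₊ + 1 with hQ
  have hQ1 : 1 ≤ Q := by omega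
  have hNQ : Real.log N ≤ Q := by
    have := Nat.le_ceil (Real.log N)
    rw [hQ]
    push_cast
    linarith
  have hQ0 : (0 : ℝ) < Q := by
    have : (1 : ℝ) ≤ Q := by exact_mod_cast hQ1
    linarith
  set f : (ℝ × ℝ) × ℝ → ℝ := fun z => (z.1.1 - z.1.2) + z.2 with hf
  set S : ℝ := C * (N : ℝ) ^ (ε / 2) * (√(B2 k N T (A ×ˢ A) (fun i : ℝ × ℝ => i.1 - i.2)) *
    √(B2 k N T A (fun i : ℝ => i))) with hS
  have hS0 : 0 ≤ S := by rw [hS]; positivity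
  have h1 : V ^ 2 * energy A ≤ ∑ z ∈ (A ×ˢ A) ×ˢ A,
      ∑ d ∈ A.filter (fun d => |f z - d| ≤ 1), ‖Dp N a d‖ ^ 2 := by
    rw [energy_eq, mul_sum]
    refine sum_le_sum fun z _ => ?_
    rw [mul_sum]
    refine sum_le_sum fun d hd => ?_
    have := hD d (mem_filter.1 hd).1
    rw [mul_one]
    gcongr
  have h2 : ∑ z ∈ (A ×ˢ A) ×ˢ A, ∑ d ∈ A.filter (fun d => |f z - d| ≤ 1), ‖Dp N a d‖ ^ 2 ≤
      ∑ j ∈ Icc (-(Q : ℤ)) Q, ∑ z ∈ (A ×ˢ A) ×ˢ A, GG N Q a (f z + j / Q) := by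
    rw [sum_comm]
    exact sum_le_sum fun z _ => near_sum A hA N hN Q hQ1 hNQ a (f z)
  have h3 : ∀ j ∈ Icc (-(Q : ℤ)) Q, ∑ z ∈ (A ×ˢ A) ×ˢ A, GG N Q a (f z + j / Q) ≤ 4 * S := by
    intro j _
    refine sum_GG_le ((A ×ˢ A) ×ˢ A) (fun z => f z + j / Q) N hN Q hQ0 hNQ S ?_ a ha
    intro b hb
    have h4 := h N T (ℝ × ℝ) ℝ (A ×ˢ A) (fun i : ℝ × ℝ => i.1 - i.2) A (fun i : ℝ => i) hN ?_ ?_ b
      ((j : ℝ) / Q) hb
    · refine le_trans (le_of_eq ?_) h4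
      refine sum_congr rfl fun z _ => ?_
      rw [hf]
      congr 3
      ring
    · intro i hi i' hi'
      rw [mem_product] at hi hi'
      have m1 := hT _ hi.1
      have m2 := hT _ hi.2
      have m3 := hT _ hi'.1
      have m4 := hT _ hi'.2
      rw [abs_le]
      constructor <;> linarith
    · intro i hi i' hi'
      have m1 := hT _ hi
      have m2 := hT _ hi'
      rw [abs_le]
      constructor <;> linarith
  have h4 : V ^ 2 * energy A ≤ (2 * (Q : ℝ) + 1) * (4 * S) := by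
    refine h1.trans (h2.trans ((sum_le_sum h3).trans (le_of_eq ?_)))
    rw [sum_const, nsmul_eq_mul]
    congr 1
    rw [Int.card_Icc]
    have : ((Q : ℤ) + 1 - -(Q : ℤ)).toNat = 2 * Q + 1 := by omega
    rw [this]
    push_cast
    ring
  have h5 := steps_le N hN (by positivity : 0 < ε / 2)
  have hB1 : B2 k N T (A ×ˢ A) (fun i : ℝ × ℝ => i.1 - i.2) ≤
      (N : ℝ) ^ 2 * energy A + MT k N T ^ 2 * (A.card : ℝ) ^ 4 := by
    unfold B2
    have e1 : (co (A ×ˢ A) (fun i : ℝ × ℝ => ⌊i.1 - i.2⌋) : ℝ) ≤ energy A := by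
      exact_mod_cast co_le_energy A
    have e2 : (((A ×ˢ A).card : ℕ) : ℝ) ^ 2 = (A.card : ℝ) ^ 4 := by
      rw [card_product]
      push_cast
      ring
    rw [e2]
    gcongr
  have hB2 : B2 k N T A (fun i : ℝ => i) ≤
      (N : ℝ) ^ 2 * A.card + MT k N T ^ 2 * (A.card : ℝ) ^ 2 := by
    unfold B2
    have e1 : (co A (fun i : ℝ => ⌊i⌋) : ℝ) ≤ A.card := by
      exact_mod_cast co_spaced A hA
    gcongr
  calc V ^ 2 * energy A ≤ (2 * (Q : ℝ) + 1) * (4 * S) := h4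
    _ ≤ ((2 / (ε / 2) + 5) * (N : ℝ) ^ (ε / 2)) * (4 * S) := by
        gcongr
    _ ≤ ((2 / (ε / 2) + 5) * (N : ℝ) ^ (ε / 2)) * (4 * (C * (N : ℝ) ^ (ε / 2) *
        (√((N : ℝ) ^ 2 * energy A + MT k N T ^ 2 * (A.card : ℝ) ^ 4) *
          √((N : ℝ) ^ 2 * A.card + MT k N T ^ 2 * (A.card : ℝ) ^ 2)))) := by
        rw [hS]
        gcongr
    _ = (2 / (ε / 2) + 5) * (4 * C) * ((N : ℝ) ^ (ε / 2) * (N : ℝ) ^ (ε / 2)) *
        (√((N : ℝ) ^ 2 * energy A + MT k N T ^ 2 * (A.card : ℝ) ^ 4) *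
          √((N : ℝ) ^ 2 * A.card + MT k N T ^ 2 * (A.card : ℝ) ^ 2)) := by ring
    _ = _ := by
        rw [← Real.rpow_add (by linarith)]
        congr 3
        ring

/-- **Large values on a set of large energy.** -/
theorem large_values (k : ℕ) (hk : 2 ≤ k) (ε : ℝ) (hε : 0 < ε) : ∃ C : ℝ, 1 ≤ C ∧
    ∀ (N : ℕ) (T V K : ℝ) (A : Finset ℝ) (a : ℕ → ℂ), 1 ≤ N → 0 ≤ V → 1 ≤ K → (∀ n, ‖a n‖ ≤ 1) →
      (∀ t ∈ A, 0 ≤ t ∧ t ≤ T) → (∀ t ∈ A, ∀ u ∈ A, t ≠ u → 1 ≤ |t - u|) →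
      (∀ t ∈ A, V ≤ ‖Dp N a t‖) → (A.card : ℝ) ^ 3 ≤ K * energy A →
      A.card * V ^ 2 ≤ C * (N : ℝ) ^ ε * √K * ((N : ℝ) ^ 2 + K * MT k N T ^ 2 * A.card) := by
  obtain ⟨C, hC, h⟩ := energy_bound k hk ε hε
  refine ⟨C, hC, ?_⟩
  intro N T V K A a hN hV hK ha hT hA hD hE
  have hmain := h N T V A a hN hV ha hT hA hD
  rcases Nat.eq_zero_or_pos A.card with h0 | h0
  · rw [h0]
    push_cast
    have : 0 ≤ C * (N : ℝ) ^ ε * √K * ((N : ℝ) ^ 2 + K * MT k N T ^ 2 * 0) := by positivity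
    linarith
  have hR : (0 : ℝ) < A.card := by exact_mod_cast h0
  set R : ℝ := (A.card : ℝ) with hRdef
  set E : ℝ := (energy A : ℝ) with hEdef
  set M := MT k N T with hM
  have hK0 : 0 < K := by linarith
  have hE0 : 0 < E := by
    have : 0 < K * E := lt_of_lt_of_le (by positivity) hE
    exact (pos_iff_pos_of_mul_pos this).1 hK0
  set Y : ℝ := (N : ℝ) ^ 2 + K * M ^ 2 * R with hY
  have hY0 : 0 ≤ Y := by positivity
  have hCN : 0 ≤ C * (N : ℝ) ^ ε := by positivity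
  have h1 : (N : ℝ) ^ 2 * E + M ^ 2 * R ^ 4 ≤ E * Y := by
    have : M ^ 2 * R ^ 4 ≤ M ^ 2 * R * (K * E) := by
      calc M ^ 2 * R ^ 4 = M ^ 2 * R * R ^ 3 := by ring
        _ ≤ M ^ 2 * R * (K * E) := by gcongr
    rw [hY]
    nlinarith
  have h2 : (N : ℝ) ^ 2 * R + M ^ 2 * R ^ 2 ≤ R * Y := by
    have : M ^ 2 * R ^ 2 ≤ K * (M ^ 2 * R ^ 2) := le_mul_of_one_le_left (by positivity) hK
    rw [hY]
    nlinarith
  have h3 : √((N : ℝ) ^ 2 * E + M ^ 2 * R ^ 4) * √((N : ℝ) ^ 2 * R + M ^ 2 * R ^ 2) ≤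
      √K * (E / R) * Y := by
    calc _ ≤ √(E * Y) * √(R * Y) := by gcongr
      _ = √E * √R * (√Y * √Y) := by
        rw [Real.sqrt_mul hE0.le, Real.sqrt_mul hR.le]
        ring
      _ = √E * √R * Y := by rw [Real.mul_self_sqrt hY0]
      _ ≤ √K * (E / R) * Y := by
        apply mul_le_mul_of_nonneg_right _ hY0
        rw [← Real.sqrt_mul hE0.le]
        have e1 : √K * (E / R) = √(K * (E / R) ^ 2) := by
          rw [Real.sqrt_mul hK0.le, Real.sqrt_sq (by positivity)]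
        rw [e1]
        apply Real.sqrt_le_sqrt
        rw [div_pow, ← mul_div_assoc, le_div_iff₀ (by positivity)]
        calc E * R * R ^ 2 = E * R ^ 3 := by ring
          _ ≤ E * (K * E) := by gcongr
          _ = K * E ^ 2 := by ring
  have h4 : V ^ 2 * E ≤ C * (N : ℝ) ^ ε * (√K * (E / R) * Y) :=
    hmain.trans (mul_le_mul_of_nonneg_left h3 hCN)
  have h5 : V ^ 2 * E * R ≤ C * (N : ℝ) ^ ε * √K * Y * E := by
    calc V ^ 2 * E * R ≤ C * (N : ℝ) ^ ε * (√K * (E / R) * Y) * R := by gcongr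
      _ = C * (N : ℝ) ^ ε * √K * Y * E * (R / R) := by ring
      _ = _ := by rw [div_self hR.ne', mul_one]
  have h6 : R * V ^ 2 * E ≤ C * (N : ℝ) ^ ε * √K * Y * E := by
    calc _ = V ^ 2 * E * R := by ring
      _ ≤ _ := h5
  exact le_of_mul_le_mul_right h6 hE0

end Pool.Agent.Q201.ML
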