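import Mathlib

/-!
# The little Grothendieck inequality, finite form, with a crude constant

If `∑_k |∑_i a_i M_{ik}|² ≤ B` for all `|a_i| ≤ 1` then there are weights `w_i ≥ 0`, `∑ w_i = 1`, with
`∑_k |∑_i a_i M_{ik}|² ≤ 48 B ∑ w_i |a_i|²` for all `a`.
-/

set_option autoImplicit false

namespace Pool.Agent.Q201.ML.LG

open Finset

/-- the signed sum over `s`, with sign `+` on `A` -/
noncomputable def sg {P : Type} [DecidableEq P] (s A : Finset P) (z : P → ℂ) : ℂ :=
  ∑ p ∈ s, if p ∈ A then z p else - z p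

theorem sg_insert_of {P : Type} [DecidableEq P] {s A : Finset P} {a : P} (ha : a ∉ s)
    (hA : A ∈ s.powerset) (z : P → ℂ) : sg (insert a s) A z = sg s A z - z a := by
  unfold sg
  rw [sum_insert ha, if_neg (fun h => ha (mem_powerset.1 hA h))]
  ring

theorem sg_insert_insert {P : Type} [DecidableEq P] {s A : Finset P} {a : P} (ha : a ∉ s)
    (z : P → ℂ) : sg (insert a s) (insert a A) z = sg s A z + z a := by
  unfold sg
  rw [sum_insert ha, if_pos (mem_insert_self a A), add_comm]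
  congr 1
  apply sum_congr rfl
  intro p hp
  have : p ≠ a := fun h => ha (h ▸ hp)
  simp [mem_insert, this]

theorem two (x z : ℂ) : ‖x - z‖ ^ 2 + ‖x + z‖ ^ 2 = 2 * ‖x‖ ^ 2 + 2 * ‖z‖ ^ 2 := by
  have := parallelogram_law_with_norm ℝ x z
  nlinarith

theorem four (x z : ℂ) : ‖x - z‖ ^ 4 + ‖x + z‖ ^ 4 ≤
    2 * (‖x‖ ^ 4 + 6 * (‖x‖ ^ 2 * ‖z‖ ^ 2) + ‖z‖ ^ 4) := by
  have h1 : ‖x + z‖ ^ 2 = ‖x‖ ^ 2 + 2 * inner ℝ x z + ‖z‖ ^ 2 := norm_add_sq_real x z
  have h2 : ‖x - z‖ ^ 2 = ‖x‖ ^ 2 - 2 * inner ℝ x z + ‖z‖ ^ 2 := norm_sub_sq_real x z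
  have h3 : |inner ℝ x z| ≤ ‖x‖ * ‖z‖ := abs_real_inner_le_norm x z
  have h4 : (inner ℝ x z) ^ 2 ≤ ‖x‖ ^ 2 * ‖z‖ ^ 2 := by
    rw [← mul_pow, ← sq_abs (inner ℝ x z)]
    gcongr
  have e : ∀ u : ℝ, u ^ 4 = (u ^ 2) ^ 2 := fun u => by ring
  rw [e ‖x - z‖, e ‖x + z‖, h1, h2]
  nlinarith

theorem moment2 {P : Type} [DecidableEq P] (s : Finset P) (z : P → ℂ) :
    ∑ A ∈ s.powerset, ‖sg s A z‖ ^ 2 = 2 ^ s.card * ∑ p ∈ s, ‖z p‖ ^ 2 := by
  induction s using Finset.induction_on with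
  | empty => simp [sg]
  | insert a s ha ih =>
    rw [sum_powerset_insert ha, ← sum_add_distrib, card_insert_of_notMem ha, sum_insert ha]
    have : ∀ A ∈ s.powerset, ‖sg (insert a s) A z‖ ^ 2 + ‖sg (insert a s) (insert a A) z‖ ^ 2 =
        2 * ‖sg s A z‖ ^ 2 + 2 * ‖z a‖ ^ 2 := by
      intro A hA
      rw [sg_insert_of ha hA, sg_insert_insert ha, two]
    rw [sum_congr rfl this, sum_add_distrib, ← mul_sum, ih, sum_const, card_powerset,
      nsmul_eq_mul, pow_succ]
    push_cast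
    ring

theorem moment4 {P : Type} [DecidableEq P] (s : Finset P) (z : P → ℂ) :
    ∑ A ∈ s.powerset, ‖sg s A z‖ ^ 4 ≤ 3 * 2 ^ s.card * (∑ p ∈ s, ‖z p‖ ^ 2) ^ 2 := by
  induction s using Finset.induction_on with
  | empty => simp [sg]
  | insert a s ha ih =>
    rw [sum_powerset_insert ha, ← sum_add_distrib, card_insert_of_notMem ha, sum_insert ha]
    have h1 : ∀ A ∈ s.powerset, ‖sg (insert a s) A z‖ ^ 4 + ‖sg (insert a s) (insert a A) z‖ ^ 4 ≤
        2 * (‖sg s A z‖ ^ 4 + 6 * (‖sg s A z‖ ^ 2 * ‖z a‖ ^ 2) + ‖z a‖ ^ 4) := by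
      intro A hA
      rw [sg_insert_of ha hA, sg_insert_insert ha]
      exact four _ _
    refine (sum_le_sum h1).trans ?_
    rw [← mul_sum, sum_add_distrib, sum_add_distrib, ← mul_sum, ← sum_mul, moment2, sum_const,
      card_powerset, nsmul_eq_mul, pow_succ (2 : ℝ)]
    push_cast
    have h3 : 0 ≤ (2 : ℝ) ^ s.card * ‖z a‖ ^ 4 := by positivity
    have h4 : 3 * ((2 : ℝ) ^ s.card * 2) * (‖z a‖ ^ 2 + ∑ p ∈ s, ‖z p‖ ^ 2) ^ 2 =
        6 * ((2 : ℝ) ^ s.card * ‖z a‖ ^ 4) +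
        12 * ((2 : ℝ) ^ s.card * (∑ p ∈ s, ‖z p‖ ^ 2) * ‖z a‖ ^ 2) +
        2 * (3 * 2 ^ s.card * (∑ p ∈ s, ‖z p‖ ^ 2) ^ 2) := by ring
    rw [h4]
    linarith

variable {ι κ : Type} [Fintype ι] [Fintype κ]

/-- the quadratic form -/
noncomputable def Q (M : ι → κ → ℂ) (a : ι → ℂ) : ℝ := ∑ k, ‖∑ i, a i * M i k‖ ^ 2

theorem Q_nonneg (M : ι → κ → ℂ) (a : ι → ℂ) : 0 ≤ Q M a := by
  unfold Q
  positivity

theorem Q_smul (M : ι → κ → ℂ) (a : ι → ℂ) (r : ℝ) : Q M (fun i => (r : ℂ) * a i) = r ^ 2 * Q M a := by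
  unfold Q
  rw [mul_sum]
  refine sum_congr rfl fun k _ => ?_
  have : ∑ i, (r : ℂ) * a i * M i k = (r : ℂ) * ∑ i, a i * M i k := by
    rw [mul_sum]
    refine sum_congr rfl fun i _ => ?_
    ring
  rw [this, norm_mul, mul_pow, Complex.norm_real, Real.norm_eq_abs, sq_abs]

theorem Q_add (M : ι → κ → ℂ) (a b : ι → ℂ) : Q M (fun i => a i + b i) ≤ 2 * Q M a + 2 * Q M b := by
  unfold Q
  rw [mul_sum, mul_sum, ← sum_add_distrib]
  refine sum_le_sum fun k _ => ?_
  have : ∑ i, (a i + b i) * M i k = ∑ i, a i * M i k + ∑ i, b i * M i k := by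
    rw [← sum_add_distrib]
    refine sum_congr rfl fun i _ => ?_
    ring
  rw [this]
  have h1 := two (∑ i, a i * M i k) (∑ i, b i * M i k)
  nlinarith [sq_nonneg ‖∑ i, a i * M i k - ∑ i, b i * M i k‖]

theorem Q_trivial (M : ι → κ → ℂ) (a : ι → ℂ) :
    Q M a ≤ (∑ i, ‖a i‖ ^ 2) * ∑ k, ∑ i, ‖M i k‖ ^ 2 := by
  unfold Q
  rw [mul_sum]
  refine sum_le_sum fun k _ => ?_
  calc ‖∑ i, a i * M i k‖ ^ 2 ≤ (∑ i, ‖a i‖ * ‖M i k‖) ^ 2 := by
        gcongr
        refine (norm_sum_le _ _).trans (le_of_eq ?_)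
        simp only [norm_mul]
    _ ≤ _ := sum_mul_sq_le_sq_mul_sq _ _ _

/-- the bound for families -/
def Fam (M : ι → κ → ℂ) (c : ℝ) : Prop :=
  ∀ (P : Type) [Fintype P] (x : P → ι → ℂ), (∀ i, ∑ p, ‖x p i‖ ^ 2 ≤ 1) → ∑ p, Q M (x p) ≤ c

theorem sum_signs (M : ι → κ → ℂ) {P : Type} [Fintype P] [DecidableEq P] (x : P → ι → ℂ) :
    ∑ A : Finset P, Q M (fun i => sg univ A fun p => x p i) =
      2 ^ Fintype.card P * ∑ p, Q M (x p) := by
  unfold Q
  rw [sum_comm, sum_comm (s := (univ : Finset P)), mul_sum]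
  refine sum_congr rfl fun k _ => ?_
  have h1 : ∀ A : Finset P, ∑ i, (sg univ A fun p => x p i) * M i k =
      sg univ A fun p => ∑ i, x p i * M i k := by
    intro A
    unfold sg
    simp only [sum_mul]
    rw [sum_comm]
    refine sum_congr rfl fun p _ => ?_
    split_ifs
    · rfl
    · rw [← sum_neg_distrib]
      refine sum_congr rfl fun i _ => ?_
      ring
  simp only [h1]
  have h2 := moment2 (univ : Finset P) fun p => ∑ i, x p i * M i k
  rw [powerset_univ, card_univ] at h2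
  exact h2

/-- truncation -/
noncomputable def tr (v : ℂ) : ℂ := if ‖v‖ ^ 2 ≤ 12 then v else 0

theorem tr_le (v : ℂ) : ‖tr v‖ ^ 2 ≤ 12 := by
  unfold tr
  split_ifs with h
  · exact h
  · simp

theorem rest_le (v : ℂ) : ‖v - tr v‖ ^ 2 ≤ ‖v‖ ^ 4 / 12 := by
  unfold tr
  split_ifs with h
  · rw [sub_self, norm_zero]
    have : 0 ≤ ‖v‖ ^ 4 := by positivity
    linarith
  · push Not at h
    rw [sub_zero]
    have : ‖v‖ ^ 4 = ‖v‖ ^ 2 * ‖v‖ ^ 2 := by ring
    rw [this]
    nlinarith [sq_nonneg ‖v‖]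

theorem step (M : ι → κ → ℂ) (B c : ℝ) (hB : ∀ a : ι → ℂ, (∀ i, ‖a i‖ ≤ 1) → Q M a ≤ B)
    (hc : Fam M c) : Fam M (24 * B + c / 2) := by
  classical
  intro P _ x hx
  set m : ℝ := 2 ^ Fintype.card P with hm
  have hm0 : 0 < m := by positivity
  set X : Finset P → ι → ℂ := fun A i => sg univ A fun p => x p i with hX
  -- truncated part
  have h1 : ∀ A, Q M (fun i => tr (X A i)) ≤ 12 * B := by
    intro A
    have h2 := hB (fun i => ((1 / √12 : ℝ) : ℂ) * tr (X A i)) (by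
      intro i
      rw [norm_mul, Complex.norm_real, Real.norm_of_nonneg (by positivity)]
      have h3 : ‖tr (X A i)‖ ≤ √12 := Real.le_sqrt_of_sq_le (tr_le _)
      calc 1 / √12 * ‖tr (X A i)‖ ≤ 1 / √12 * √12 := by gcongr
        _ = 1 := by field_simp)
    rw [Q_smul, div_pow, Real.sq_sqrt (by norm_num)] at h2
    linarith
  -- the rest
  have h4 : ∑ A : Finset P, Q M (fun i => X A i - tr (X A i)) ≤ m * c / 4 := by
    have h5 := hc (Finset P) (fun A i => ((2 / √m : ℝ) : ℂ) * (X A i - tr (X A i))) (by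
      intro i
      have h6 : ∀ A : Finset P, ‖((2 / √m : ℝ) : ℂ) * (X A i - tr (X A i))‖ ^ 2 ≤
          4 / m * (‖X A i‖ ^ 4 / 12) := by
        intro A
        rw [norm_mul, mul_pow, Complex.norm_real, Real.norm_eq_abs, sq_abs, div_pow,
          Real.sq_sqrt hm0.le]
        have := rest_le (X A i)
        calc (2 : ℝ) ^ 2 / m * ‖X A i - tr (X A i)‖ ^ 2 ≤ 2 ^ 2 / m * (‖X A i‖ ^ 4 / 12) := by
              gcongr
          _ = _ := by norm_num
      refine (sum_le_sum fun A _ => h6 A).trans ?_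
      rw [← mul_sum, ← sum_div]
      have h7 := moment4 (univ : Finset P) fun p => x p i
      rw [powerset_univ, card_univ] at h7
      have h8 : (∑ p, ‖x p i‖ ^ 2) ^ 2 ≤ 1 := by
        have : 0 ≤ ∑ p, ‖x p i‖ ^ 2 := by positivity
        nlinarith [hx i]
      have h9 : ∑ A : Finset P, ‖X A i‖ ^ 4 ≤ 3 * m := by
        refine h7.trans ?_
        calc 3 * (2 : ℝ) ^ Fintype.card P * (∑ p, ‖x p i‖ ^ 2) ^ 2
            ≤ 3 * (2 : ℝ) ^ Fintype.card P * 1 := by gcongr
          _ = 3 * m := by rw [hm]; ring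
      calc 4 / m * ((∑ A : Finset P, ‖X A i‖ ^ 4) / 12) ≤ 4 / m * (3 * m / 12) := by gcongr
        _ = 1 := by field_simp; norm_num)
    simp only [Q_smul] at h5
    rw [← mul_sum, div_pow, Real.sq_sqrt hm0.le, div_mul_eq_mul_div, div_le_iff₀ hm0] at h5
    linarith
  have h10 := sum_signs M x
  have h11 : ∀ A : Finset P, Q M (X A) ≤
      2 * (12 * B) + 2 * Q M (fun i => X A i - tr (X A i)) := by
    intro A
    have h12 := Q_add M (fun i => tr (X A i)) (fun i => X A i - tr (X A i))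
    simp only [add_sub_cancel] at h12
    have := h1 A
    have e : (fun i => X A i) = X A := rfl
    rw [e] at h12
    linarith
  have h13 : ∑ A : Finset P, Q M (X A) ≤ m * (24 * B) + 2 * (m * c / 4) := by
    refine (sum_le_sum fun A _ => h11 A).trans ?_
    rw [sum_add_distrib, sum_const, ← mul_sum, card_univ, Fintype.card_finset, nsmul_eq_mul]
    push_cast
    rw [← hm]
    linarith
  rw [h10, ← hm] at h13
  have h14 : m * ∑ p, Q M (x p) ≤ m * (24 * B + c / 2) := by linarith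
  exact le_of_mul_le_mul_left h14 hm0

theorem fam_trivial (M : ι → κ → ℂ) :
    Fam M (Fintype.card ι * ∑ k, ∑ i, ‖M i k‖ ^ 2) := by
  intro P _ x hx
  refine (sum_le_sum fun p _ => Q_trivial M (x p)).trans ?_
  rw [← sum_mul, sum_comm]
  gcongr
  calc ∑ i, ∑ p, ‖x p i‖ ^ 2 ≤ ∑ i : ι, (1 : ℝ) := sum_le_sum fun i _ => hx i
    _ = _ := by simp

theorem fam_bound (M : ι → κ → ℂ) (B : ℝ) (hB : ∀ a : ι → ℂ, (∀ i, ‖a i‖ ≤ 1) → Q M a ≤ B) :
    Fam M (48 * B) := by
  have hB0 : 0 ≤ B := (Q_nonneg M 0).trans (hB 0 (by simp))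
  set c₀ : ℝ := Fintype.card ι * ∑ k, ∑ i, ‖M i k‖ ^ 2 with hc₀
  have hc₀0 : 0 ≤ c₀ := by positivity
  have h1 : ∀ n : ℕ, Fam M (48 * B + c₀ / 2 ^ n) := by
    intro n
    induction n with
    | zero =>
      intro P _ x hx
      have := fam_trivial M P x hx
      rw [← hc₀] at this
      simp only [pow_zero, div_one]
      linarith
    | succ n ih =>
      have := step M B _ hB ih
      have e : 24 * B + (48 * B + c₀ / 2 ^ n) / 2 = 48 * B + c₀ / 2 ^ (n + 1) := by
        rw [pow_succ]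
        field_simp
        ring
      rw [e] at this
      exact this
  intro P _ x hx
  refine le_of_forall_pos_le_add fun δ hδ => ?_
  obtain ⟨n, hn⟩ := exists_pow_lt_of_lt_one (show 0 < δ / (c₀ + 1) by positivity)
    (by norm_num : (1 / 2 : ℝ) < 1)
  have h2 := h1 n P x hx
  refine h2.trans ?_
  have h3 : c₀ / 2 ^ n ≤ δ := by
    have e : c₀ / 2 ^ n = c₀ * (1 / 2) ^ n := by
      rw [one_div, inv_pow]
      rfl
    rw [e]
    calc c₀ * (1 / 2) ^ n ≤ (c₀ + 1) * (δ / (c₀ + 1)) := by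
          gcongr
          linarith
      _ = δ := by field_simp
  linarith

/-- **Weights.** -/
theorem weights [Nonempty ι] (M : ι → κ → ℂ) (B : ℝ) (hB0 : 0 < B)
    (hB : ∀ a : ι → ℂ, (∀ i, ‖a i‖ ≤ 1) → Q M a ≤ B) :
    ∃ w : ι → ℝ, (∀ i, 0 ≤ w i) ∧ ∑ i, w i = 1 ∧
      ∀ a : ι → ℂ, Q M a ≤ 48 * B * ∑ i, w i * ‖a i‖ ^ 2 := by
  classical
  set K : ℝ := 48 * B with hK
  have hK0 : 0 < K := by positivity
  have hF : Fam M K := fam_bound M B hB
  set φ : (ι → ℂ) → ι → ℝ := fun a i => K * ‖a i‖ ^ 2 - Q M a with hφ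
  set s : Set (ι → ℝ) := {v | ∀ i, v i < 0} with hs
  set t : Set (ι → ℝ) := convexHull ℝ (Set.range φ) with ht
  have hsc : Convex ℝ s := by
    intro u hu v hv α β hα hβ hαβ i
    have h1 := hu i
    have h2 := hv i
    simp only [Pi.add_apply, Pi.smul_apply, smul_eq_mul]
    rcases hα.eq_or_lt with h | h
    · rw [← h] at hαβ ⊢
      have : β = 1 := by linarith
      rw [this]
      linarith
    · have : α * u i < 0 := mul_neg_of_pos_of_neg h h1
      have : β * v i ≤ 0 := mul_nonpos_of_nonneg_of_nonpos hβ h2.le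
      linarith
  have hso : IsOpen s := by
    have : s = ⋂ i, (fun v : ι → ℝ => v i) ⁻¹' Set.Iio 0 := by
      ext v
      simp [hs]
    rw [this]
    exact isOpen_iInter_of_finite fun i => isOpen_Iio.preimage (continuous_apply i)
  have hdisj : Disjoint s t := by
    rw [Set.disjoint_left]
    intro v hv hvt
    rw [ht, _root_.convexHull_eq] at hvt
    obtain ⟨P, T, l, z, hl, hl1, hz, hvz⟩ := hvt
    rw [Finset.centerMass_eq_of_sum_1 _ _ hl1] at hvz
    choose! a ha using hz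
    have hv1 : ∀ i, v i = K * (∑ p ∈ T, l p * ‖a p i‖ ^ 2) - ∑ p ∈ T, l p * Q M (a p) := by
      intro i
      rw [← hvz, Finset.sum_apply, mul_sum, ← sum_sub_distrib]
      refine sum_congr rfl fun p hp => ?_
      rw [Pi.smul_apply, smul_eq_mul, ← ha p hp]
      simp only [hφ]
      ring
    set q : ℝ := ∑ p ∈ T, l p * Q M (a p) with hq
    obtain ⟨i₀, -, hi₀⟩ := Finset.exists_max_image univ (fun i => ∑ p ∈ T, l p * ‖a p i‖ ^ 2)
      univ_nonempty
    set μ : ℝ := ∑ p ∈ T, l p * ‖a p i₀‖ ^ 2 with hμ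
    have hμ0 : 0 ≤ μ := sum_nonneg fun p hp => mul_nonneg (hl p hp) (by positivity)
    have h1 : K * μ < q := by
      have := hv i₀
      rw [hv1 i₀] at this
      linarith
    -- the bound for all multiples
    have h2 : ∀ r : ℝ, 0 < r → μ ≤ r → q ≤ K * r := by
      intro r hr hμr
      have h3 := hF T (fun p i => ((√(l p) / √r : ℝ) : ℂ) * a p i) (by
        intro i
        have h4 : ∀ p : T, ‖((√(l p) / √r : ℝ) : ℂ) * a p i‖ ^ 2 = l p * ‖a p i‖ ^ 2 / r := by
          intro p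
          rw [norm_mul, mul_pow, Complex.norm_real, Real.norm_eq_abs, sq_abs, div_pow,
            Real.sq_sqrt (hl p p.2), Real.sq_sqrt hr.le]
          ring
        simp only [h4]
        rw [← sum_div, div_le_one hr, Finset.sum_coe_sort T (fun p => l p * ‖a p i‖ ^ 2)]
        exact (hi₀ i (mem_univ _)).trans hμr)
      have h5 : ∀ p : T, Q M (fun i => ((√(l p) / √r : ℝ) : ℂ) * a p i) = l p * Q M (a p) / r := by
        intro p
        rw [Q_smul, div_pow, Real.sq_sqrt (hl p p.2), Real.sq_sqrt hr.le]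
        ring
      simp only [h5] at h3
      rw [← sum_div, Finset.sum_coe_sort T (fun p => l p * Q M (a p)), ← hq,
        div_le_iff₀ hr] at h3
      exact h3
    rcases hμ0.eq_or_lt with h | h
    · have hq0 : 0 < q := by
        rw [← h] at h1
        linarith
      have := h2 (q / (2 * K)) (by positivity) (by rw [← h]; positivity)
      have e : K * (q / (2 * K)) = q / 2 := by field_simp
      rw [e] at this
      linarith
    · have := h2 μ h le_rfl
      linarith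
  obtain ⟨f, u, hfs, hft⟩ := geometric_hahn_banach_open hsc hso (convex_convexHull ℝ _) hdisj
  set w : ι → ℝ := fun i => f (Pi.single i 1) with hw
  have hf : ∀ v : ι → ℝ, f v = ∑ i, v i * w i := by
    intro v
    conv_lhs => rw [← Finset.univ_sum_single v]
    rw [map_sum]
    refine sum_congr rfl fun i _ => ?_
    have : (Pi.single i (v i) : ι → ℝ) = v i • Pi.single i 1 := by
      rw [← Pi.single_smul, smul_eq_mul, mul_one]
    rw [this, map_smul, smul_eq_mul]
  have hu0 : u ≤ 0 := by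
    have h1 := hft (φ 0) (subset_convexHull ℝ _ ⟨0, rfl⟩)
    have h2 : φ 0 = 0 := by
      funext i
      simp [hφ, Q]
    rw [h2, map_zero] at h1
    exact h1
  have hw0 : ∀ i, 0 ≤ w i := by
    intro i
    by_contra hneg
    push Not at hneg
    set W : ℝ := ∑ j, w j with hW
    set R : ℝ := (|W| + 1 - u) / |w i| with hR
    have hR0 : 0 ≤ R := by
      have : 0 < |W| + 1 - u := by
        have := abs_nonneg W
        linarith
      positivity
    have h1 := hfs (fun j => - (1 : ℝ) - (if j = i then R else 0)) (by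
      intro j
      simp only
      split_ifs <;> linarith)
    rw [hf] at h1
    have h2 : ∑ j, (- (1 : ℝ) - (if j = i then R else 0)) * w j = - W - R * w i := by
      have : ∀ j, (- (1 : ℝ) - (if j = i then R else 0)) * w j = - w j -
          (if j = i then R * w j else 0) := by
        intro j
        split_ifs <;> ring
      simp only [this]
      rw [sum_sub_distrib, sum_neg_distrib, Finset.sum_ite_eq' univ i]
      simp [hW]
    rw [h2] at h1
    have h3 : R * w i = - (|W| + 1 - u) := by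
      have hne : w i ≠ 0 := hneg.ne
      rw [hR, abs_of_neg hneg, div_neg, neg_mul, div_mul_cancel₀ _ hne]
    rw [h3] at h1
    have := le_abs_self W
    linarith
  have hW0 : 0 < ∑ i, w i := by
    have h1 := hfs (fun _ => - (1 : ℝ)) (by intro j; norm_num)
    rw [hf] at h1
    have : ∑ i, (- (1 : ℝ)) * w i = - ∑ i, w i := by
      rw [← mul_sum]
      ring
    rw [this] at h1
    linarith
  have hmain : ∀ a : ι → ℂ, Q M a * ∑ i, w i ≤ K * ∑ i, w i * ‖a i‖ ^ 2 := by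
    intro a
    have h1 : ∀ r : ℝ, 0 < r → u ≤ r ^ 2 * (K * ∑ i, w i * ‖a i‖ ^ 2 - Q M a * ∑ i, w i) := by
      intro r hr
      have h2 := hft (φ (fun i => (r : ℂ) * a i)) (subset_convexHull ℝ _ ⟨_, rfl⟩)
      rw [hf] at h2
      refine h2.trans (le_of_eq ?_)
      simp only [hφ, Q_smul]
      rw [mul_sub, mul_sum, mul_sum, mul_sum, mul_sum, ← sum_sub_distrib]
      refine sum_congr rfl fun i _ => ?_
      rw [norm_mul, mul_pow, Complex.norm_real, Real.norm_eq_abs, sq_abs]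
      ring
    by_contra hcon
    push Not at hcon
    set X : ℝ := Q M a * ∑ i, w i - K * ∑ i, w i * ‖a i‖ ^ 2 with hX
    have hX0 : 0 < X := by rw [hX]; linarith
    have h3 := h1 (√((1 - u) / X)) (Real.sqrt_pos.2 (div_pos (by linarith) hX0))
    rw [Real.sq_sqrt (div_pos (by linarith) hX0).le] at h3
    have h4 : (1 - u) / X * (K * ∑ i, w i * ‖a i‖ ^ 2 - Q M a * ∑ i, w i) = - (1 - u) := by
      have : K * ∑ i, w i * ‖a i‖ ^ 2 - Q M a * ∑ i, w i = - X := by rw [hX]; ring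
      rw [this]
      field_simp
    rw [h4] at h3
    linarith
  refine ⟨fun i => w i / ∑ j, w j, fun i => div_nonneg (hw0 i) hW0.le, ?_, ?_⟩
  · rw [← sum_div, div_self hW0.ne']
  · intro a
    have h1 := hmain a
    have h2 : ∑ i, w i / (∑ j, w j) * ‖a i‖ ^ 2 = (∑ i, w i * ‖a i‖ ^ 2) / ∑ j, w j := by
      rw [sum_div]
      refine sum_congr rfl fun i _ => ?_
      ring
    rw [h2, ← mul_div_assoc, le_div_iff₀ hW0]
    exact h1

end Pool.Agent.Q201.ML.LG
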