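import Mathlib

set_option autoImplicit false

/-!
# Polynomials supported on a short interval: many large values
-/

namespace Pool.Agent.Q201.ML.LpN

open Finset Complex

/-- `D(t) = ∑_{N ≤ n ≤ 2N} b_n n^{it}` -/
noncomputable def D (N : ℕ) (b : ℕ → ℂ) (t : ℝ) : ℂ :=
  ∑ n ∈ Icc N (2 * N), b n * Complex.exp (((t * Real.log n : ℝ) : ℂ) * I)

/-- the coefficients -/
noncomputable def bb (N k : ℕ) (β : ℝ) (n : ℕ) : ℂ :=
  if n ∈ Icc N (N + k) then (β : ℂ) else 0

/-- the points -/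
noncomputable def pt (N : ℕ) (q : ℕ × ℕ) : ℤ := ⌈2 * Real.pi * N * q.1⌉ + q.2

theorem phase (N k m l L M j : ℕ) (hN : 0 < N) (hk : 1 ≤ k) (hm : m < M) (hl : l < L) (hj : j ≤ k)
    (hL : 8 * k * L ≤ N) (hM : 64 * k ^ 2 * M ≤ N) (hkN : 8 * k ≤ N) :
    |(pt N (m, l) : ℝ) * (Real.log ((N + j : ℕ) : ℝ) - Real.log N) - (j : ℕ) * m * (2 * Real.pi)| ≤
      1 / 2 := by
  have hNr : (0 : ℝ) < N := by exact_mod_cast hN
  have hkr : (1 : ℝ) ≤ k := by exact_mod_cast hk
  have hjr : (j : ℝ) ≤ k := by exact_mod_cast hj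
  have hj0 : (0 : ℝ) ≤ j := Nat.cast_nonneg _
  have hLr : 8 * (k : ℝ) * L ≤ N := by exact_mod_cast hL
  have hMr : 64 * (k : ℝ) ^ 2 * M ≤ N := by exact_mod_cast hM
  have hkNr : 8 * (k : ℝ) ≤ N := by exact_mod_cast hkN
  have hmr : (m : ℝ) ≤ M := by exact_mod_cast hm.le
  have hlr : (l : ℝ) ≤ L := by exact_mod_cast hl.le
  have hm0 : (0 : ℝ) ≤ m := Nat.cast_nonneg _
  have hl0 : (0 : ℝ) ≤ l := Nat.cast_nonneg _
  have hM0 : (0 : ℝ) ≤ M := Nat.cast_nonneg _
  have hpi := Real.pi_pos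
  have hpi4 := Real.pi_le_four
  set t : ℝ := (pt N (m, l) : ℝ) with ht
  have ht1 : 2 * Real.pi * N * m ≤ t := by
    rw [ht, pt]
    push_cast
    have := Int.le_ceil (2 * Real.pi * N * (m : ℝ))
    linarith
  have ht2 : t ≤ 2 * Real.pi * N * m + 1 + L := by
    rw [ht, pt]
    push_cast
    have := Int.ceil_lt_add_one (2 * Real.pi * N * (m : ℝ))
    linarith
  have ht0 : 0 ≤ t := le_trans (by positivity) ht1
  set x : ℝ := (j : ℝ) / N with hx
  have hx0 : 0 ≤ x := by positivity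
  have hlog : Real.log ((N + j : ℕ) : ℝ) - Real.log N = Real.log (1 + x) := by
    rw [← Real.log_div (by positivity) hNr.ne']
    congr 1
    push_cast
    rw [hx]
    field_simp
  rw [hlog]
  have hu : Real.log (1 + x) ≤ x := by
    have := Real.log_le_sub_one_of_pos (show 0 < 1 + x by linarith)
    linarith
  have hlow : x - x ^ 2 / 2 ≤ Real.log (1 + x) := by
    -- `log (1 + x) ≥ 2x / (2 + x) ≥ x - x²/2`
    have h1 := Real.le_log_one_add_of_nonneg hx0
    refine le_trans ?_ h1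
    rw [le_div_iff₀ (by linarith)]
    nlinarith [mul_nonneg hx0 (sq_nonneg x)]
  have hxN : x * N = j := by
    rw [hx]
    field_simp
  have hxk : x * N ≤ k := by rw [hxN]; exact hjr
  have e1 : (j : ℝ) * m * (2 * Real.pi) = 2 * Real.pi * N * m * x := by
    rw [← hxN]
    ring
  rw [e1]
  have hL1 : (1 + (L : ℝ)) * x ≤ 1 / 4 := by
    have h2 : (1 + (L : ℝ)) * (x * N) ≤ (1 + L) * k := by gcongr
    have h3 : (1 + (L : ℝ)) * k ≤ N / 4 := by nlinarith
    have h4 : ((1 + (L : ℝ)) * x) * N ≤ (1 / 4) * N := by nlinarith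
    exact le_of_mul_le_mul_right h4 hNr
  have hM1 : 2 * Real.pi * N * m * (x ^ 2 / 2) ≤ 1 / 16 * 4 := by
    have h5 : (m : ℝ) * k ^ 2 ≤ N / 64 := by
      have : (m : ℝ) * k ^ 2 ≤ M * k ^ 2 := by gcongr
      nlinarith
    have h6 : 2 * Real.pi * N * m * (x ^ 2 / 2) * N = Real.pi * (m * (x * N) ^ 2) := by ring
    have h7 : (m : ℝ) * (x * N) ^ 2 ≤ m * k ^ 2 := by gcongr
    have h8 : 2 * Real.pi * N * m * (x ^ 2 / 2) * N ≤ (1 / 16 * 4) * N := by
      rw [h6]
      calc Real.pi * (m * (x * N) ^ 2) ≤ 4 * (N / 64) := by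
            apply mul_le_mul hpi4 (h7.trans h5) (by positivity) (by norm_num)
        _ ≤ _ := by linarith
    exact le_of_mul_le_mul_right h8 hNr
  have hx1 : x ≤ 1 / 8 := by
    have : x * N ≤ (1 / 8) * N := by linarith
    exact le_of_mul_le_mul_right this hNr
  rw [abs_le]
  constructor
  · have h9 : t * (x - x ^ 2 / 2) ≤ t * Real.log (1 + x) := by gcongr
    have h10 : (2 * Real.pi * N * m) * x - t * (x ^ 2 / 2) ≤ t * (x - x ^ 2 / 2) := by
      have : (2 * Real.pi * N * m) * x ≤ t * x := by gcongr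
      nlinarith
    have h11 : t * (x ^ 2 / 2) ≤ (2 * Real.pi * N * m + 1 + L) * (x ^ 2 / 2) := by gcongr
    have h12 : (1 + (L : ℝ)) * (x ^ 2 / 2) ≤ 1 / 4 := by
      have : (1 + (L : ℝ)) * (x ^ 2 / 2) = ((1 + L) * x) * (x / 2) := by ring
      rw [this]
      nlinarith [mul_nonneg (by positivity : (0 : ℝ) ≤ 1 + L) hx0]
    nlinarith
  · have h9 : t * Real.log (1 + x) ≤ t * x := by gcongr
    have h10 : t * x ≤ (2 * Real.pi * N * m + 1 + L) * x := by gcongr
    nlinarith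

theorem large (N k m l L M : ℕ) (hN : 0 < N) (hk : 1 ≤ k) (hm : m < M) (hl : l < L)
    (hL : 8 * k * L ≤ N) (hM : 64 * k ^ 2 * M ≤ N) (hkN : 8 * k ≤ N) (β : ℝ) (hβ : 0 ≤ β) :
    β * (k + 1) * (7 / 8) ≤ ‖D N (bb N k β) (pt N (m, l))‖ := by
  have hkN' : N + k ≤ 2 * N := by omega
  set t : ℝ := (pt N (m, l) : ℝ) with ht
  have e1 : D N (bb N k β) t = ∑ j ∈ range (k + 1),
      (β : ℂ) * Complex.exp (((t * Real.log ((N + j : ℕ) : ℝ) : ℝ) : ℂ) * I) := by
    unfold D bb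
    have h1 : ∀ n ∈ Icc N (2 * N), (if n ∈ Icc N (N + k) then (β : ℂ) else 0) *
        Complex.exp (((t * Real.log n : ℝ) : ℂ) * I) =
        if n ∈ Icc N (N + k) then (β : ℂ) * Complex.exp (((t * Real.log n : ℝ) : ℂ) * I) else 0 := by
      intro n _
      split_ifs
      · rfl
      · rw [zero_mul]
    rw [sum_congr rfl h1, ← sum_filter]
    have h2 : (Icc N (2 * N)).filter (fun n => n ∈ Icc N (N + k)) = Icc N (N + k) := by
      ext n
      simp only [mem_filter, mem_Icc]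
      omega
    rw [h2]
    have h3 : Icc N (N + k) = (range (k + 1)).image fun j => N + j := by
      ext n
      simp only [mem_Icc, mem_image, mem_range]
      constructor
      · rintro ⟨h4, h5⟩
        exact ⟨n - N, by omega, by omega⟩
      · rintro ⟨j, hj, rfl⟩
        omega
    rw [h3, sum_image (fun x _ y _ hxy => by omega)]
  have e2 : ∀ j ∈ range (k + 1), (β : ℂ) * Complex.exp (((t * Real.log ((N + j : ℕ) : ℝ) : ℝ) : ℂ) * I)
      = Complex.exp (((t * Real.log N : ℝ) : ℂ) * I) * ((β : ℂ) *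
        Complex.exp ((((t * (Real.log ((N + j : ℕ) : ℝ) - Real.log N) -
          (j : ℕ) * m * (2 * Real.pi)) : ℝ) : ℂ) * I)) := by
    intro j _
    have h5 : Complex.exp (((t * Real.log ((N + j : ℕ) : ℝ) : ℝ) : ℂ) * I) =
        Complex.exp (((t * Real.log N : ℝ) : ℂ) * I) *
        Complex.exp ((((t * (Real.log ((N + j : ℕ) : ℝ) - Real.log N) -
          (j : ℕ) * m * (2 * Real.pi)) : ℝ) : ℂ) * I) * Complex.exp (((j * m : ℕ) : ℂ) * (2 * Real.pi * I)) := by
      rw [← Complex.exp_add, ← Complex.exp_add]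
      congr 1
      push_cast
      ring
    rw [h5, Complex.exp_nat_mul_two_pi_mul_I, mul_one]
    ring
  rw [e1, sum_congr rfl e2, ← mul_sum, norm_mul, Complex.norm_exp_ofReal_mul_I, one_mul, ← mul_sum,
    norm_mul, Complex.norm_real, Real.norm_of_nonneg hβ, mul_assoc]
  apply mul_le_mul_of_nonneg_left _ hβ
  refine le_trans ?_ (Complex.re_le_norm _)
  rw [Complex.re_sum]
  calc ((k : ℝ) + 1) * (7 / 8) = ∑ j ∈ range (k + 1), (7 / 8 : ℝ) := by
        rw [sum_const, card_range, nsmul_eq_mul]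
        push_cast
        ring
    _ ≤ _ := by
        apply sum_le_sum
        intro j hj
        rw [Complex.exp_ofReal_mul_I_re]
        have h6 := phase N k m l L M j hN hk hm hl (by rw [mem_range] at hj; omega) hL hM hkN
        have h7 := Real.one_sub_sq_div_two_le_cos
          (x := t * (Real.log ((N + j : ℕ) : ℝ) - Real.log N) - (j : ℕ) * m * (2 * Real.pi))
        refine le_trans ?_ h7
        have h8 : (t * (Real.log ((N + j : ℕ) : ℝ) - Real.log N) - (j : ℕ) * m * (2 * Real.pi)) ^ 2 ≤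
            (1 / 2) ^ 2 := by
          rw [← sq_abs]
          gcongr
        linarith

theorem pt_inj (N L M : ℕ) (hN : 0 < N) (hL : 8 * L ≤ N) :
    Set.InjOn (pt N) ((range M ×ˢ range L : Finset (ℕ × ℕ)) : Set (ℕ × ℕ)) := by
  have hpi := Real.pi_gt_three
  have hNr : (1 : ℝ) ≤ N := by exact_mod_cast hN
  have hLr : 8 * (L : ℝ) ≤ N := by exact_mod_cast hL
  have key : ∀ m m' l l' : ℕ, m < m' → l < L → pt N (m, l) ≠ pt N (m', l') := by
    intro m m' l l' hmm hl h
    unfold pt at h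
    dsimp only at h
    have h1 := Int.ceil_lt_add_one (2 * Real.pi * N * (m : ℝ))
    have h2 := Int.le_ceil (2 * Real.pi * N * (m' : ℝ))
    have h3 : ((⌈2 * Real.pi * N * (m : ℝ)⌉ : ℤ) : ℝ) + l =
      ((⌈2 * Real.pi * N * (m' : ℝ)⌉ : ℤ) : ℝ) + l' := by exact_mod_cast h
    have h4 : (m : ℝ) + 1 ≤ m' := by exact_mod_cast hmm
    have h5 : (l : ℝ) + 1 ≤ L := by exact_mod_cast hl
    have h6 : (0 : ℝ) ≤ l' := Nat.cast_nonneg _
    have h7 : 2 * Real.pi * N * ((m : ℝ) + 1) ≤ 2 * Real.pi * N * m' := by gcongr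
    nlinarith
  rintro ⟨m, l⟩ h1 ⟨m', l'⟩ h2 h
  have h1' := mem_product.1 (mem_coe.1 h1)
  have h2' := mem_product.1 (mem_coe.1 h2)
  simp only [mem_range] at h1' h2'
  rcases lt_trichotomy m m' with h3 | h3 | h3
  · exact absurd h (key m m' l l' h3 h1'.2)
  · subst h3
    unfold pt at h
    dsimp only at h
    have : l = l' := by omega
    rw [this]
  · exact absurd h.symm (key m' m l' l h3 h2'.2)

end Pool.Agent.Q201.ML.LpN
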