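import Pool.Agent.Q201.ML.Per
import Pool.Agent.Y959.Her.Mom
import Pool.Agent.H510R2.Div

set_option autoImplicit false

/-!
# Even moments over sumsets, and moments over sets with many almost periods
-/

namespace Pool.Agent.Q201.ML

open Complex Finset
open Pool.Agent.TH705.DL (ph DP)
open Pool.Agent.Y959.Her (pw pow_eq)

theorem ph_eq (t : ℝ) (n : ℕ) : ph t n = Complex.exp (((t * Real.log n : ℝ) : ℂ) * I) := by
  unfold ph
  congr 1
  push_cast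
  ring

theorem DP_eq (N : ℕ) (a : ℕ → ℂ) (t : ℝ) : DP N a t = Dp N a t := by
  unfold DP Dp
  exact sum_congr rfl fun n _ => by rw [ph_eq]

theorem pw_sup (N : ℕ) (hN : 1 ≤ N) (a : ℕ → ℂ) (ha : ∀ n, ‖a n‖ ≤ 1) (J : ℕ) (D : ℝ)
    (hD1 : 1 ≤ D) (hD : ∀ m ∈ Icc 1 (N ^ J), (m.divisors.card : ℝ) ≤ D) :
    ∀ j ≤ J, ∀ m, ‖pw N a j m‖ ≤ D ^ j := by
  intro j
  induction j with
  | zero =>
    intro _ m
    unfold pw
    split_ifs <;> simp
  | succ j ih =>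
    intro hj m
    have ih' := ih (by omega)
    unfold pw
    set F := (Icc 1 N ×ˢ Icc 1 (N ^ j)).filter (fun p : ℕ × ℕ => p.1 * p.2 = m) with hF
    rcases F.eq_empty_or_nonempty with he | ⟨p0, hp0⟩
    · rw [he]
      simp only [sum_empty, norm_zero]
      positivity
    · have hm : m ∈ Icc 1 (N ^ J) := by
        rw [hF, mem_filter, mem_product, mem_Icc, mem_Icc] at hp0
        obtain ⟨⟨h1, h2⟩, h3⟩ := hp0
        rw [mem_Icc, ← h3]
        refine ⟨Nat.mul_pos h1.1 h2.1, ?_⟩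
        calc p0.1 * p0.2 ≤ N * N ^ j := Nat.mul_le_mul h1.2 h2.2
          _ = N ^ (j + 1) := by ring
          _ ≤ N ^ J := Nat.pow_le_pow_right hN hj
      have hcard : (F.card : ℝ) ≤ D := by
        refine le_trans ?_ (hD m hm)
        have : F.card ≤ m.divisors.card := by
          apply card_le_card_of_injOn (fun p => p.1)
          · intro p hp
            rw [hF] at hp
            simp only [coe_filter, mem_product, mem_Icc, Set.mem_ofPred_eq] at hp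
            simp only [mem_coe, Nat.mem_divisors]
            exact ⟨⟨p.2, hp.2.symm⟩, by have := (mem_Icc.1 hm).1; omega⟩
          · intro p hp r hr hpr
            rw [hF] at hp hr
            simp only [coe_filter, mem_product, mem_Icc, Set.mem_ofPred_eq] at hp hr
            have h1 : p.1 = r.1 := hpr
            have h2 : p.2 = r.2 := by
              have h3 : p.1 * p.2 = p.1 * r.2 := by rw [hp.2, h1, hr.2]
              exact Nat.eq_of_mul_eq_mul_left hp.1.1.1 h3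
            exact Prod.ext h1 h2
        exact_mod_cast this
      calc ‖∑ p ∈ F, a p.1 * pw N a j p.2‖ ≤ ∑ p ∈ F, ‖a p.1 * pw N a j p.2‖ := norm_sum_le _ _
        _ ≤ ∑ p ∈ F, D ^ j := by
            refine sum_le_sum fun p _ => ?_
            rw [norm_mul]
            calc ‖a p.1‖ * ‖pw N a j p.2‖ ≤ 1 * D ^ j := by
                  gcongr
                  · exact ha _
                  · exact ih' _
              _ = _ := one_mul _
        _ = F.card * D ^ j := by rw [sum_const, nsmul_eq_mul]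
        _ ≤ D * D ^ j := by gcongr
        _ = D ^ (j + 1) := by ring

/-- the sup norm of the coefficients of the powers -/
theorem pw_sup_eps (J : ℕ) (ε : ℝ) (hε : 0 < ε) : ∃ K : ℝ, 1 ≤ K ∧ ∀ (N : ℕ) (a : ℕ → ℂ), 1 ≤ N →
    (∀ n, ‖a n‖ ≤ 1) → ∀ m, ‖pw N a J m‖ ≤ K * (N : ℝ) ^ ε := by
  obtain ⟨C, hC0, hC⟩ := Pool.Agent.H510R2.divisor_bound (ε / ((J : ℝ) + 1) ^ 2) (by positivity)
  set C1 : ℝ := max C 1 with hC1
  have hC11 : 1 ≤ C1 := le_max_right _ _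
  refine ⟨C1 ^ J, one_le_pow₀ hC11, ?_⟩
  intro N a hN ha m
  have hN1 : (1 : ℝ) ≤ N := by exact_mod_cast hN
  have hJ1 : (0 : ℝ) < (J : ℝ) + 1 := by positivity
  set D : ℝ := C1 * (N : ℝ) ^ (ε / (J + 1)) with hD
  have hD1 : 1 ≤ D := one_le_mul_of_one_le_of_one_le hC11 (Real.one_le_rpow hN1 (by positivity))
  have hdiv : ∀ m ∈ Icc 1 (N ^ J), (m.divisors.card : ℝ) ≤ D := by
    intro m hm
    rw [mem_Icc] at hm
    have h1 := hC m hm.1
    refine h1.trans ?_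
    apply mul_le_mul (le_max_left _ _) _ (by positivity) (by positivity)
    have hm2 : (m : ℝ) ≤ (N : ℝ) ^ J := by exact_mod_cast hm.2
    calc (m : ℝ) ^ (ε / ((J : ℝ) + 1) ^ 2) ≤ ((N : ℝ) ^ J) ^ (ε / ((J : ℝ) + 1) ^ 2) :=
          Real.rpow_le_rpow (Nat.cast_nonneg _) hm2 (by positivity)
      _ = (N : ℝ) ^ ((J : ℝ) * (ε / ((J : ℝ) + 1) ^ 2)) := by
          rw [← Real.rpow_natCast, ← Real.rpow_mul (by linarith)]
      _ ≤ (N : ℝ) ^ (ε / (J + 1)) := by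
          apply Real.rpow_le_rpow_of_exponent_le hN1
          rw [mul_div_assoc', div_le_div_iff₀ (by positivity) hJ1]
          have : (J : ℝ) ≤ J + 1 := by linarith
          nlinarith [mul_pos hε hJ1]
  refine (pw_sup N hN a ha J D hD1 hdiv J le_rfl m).trans ?_
  calc D ^ J = C1 ^ J * ((N : ℝ) ^ (ε / (J + 1))) ^ J := by rw [hD, mul_pow]
    _ ≤ C1 ^ J * (N : ℝ) ^ ε := by
        gcongr
        rw [← Real.rpow_natCast, ← Real.rpow_mul (by linarith)]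
        apply Real.rpow_le_rpow_of_exponent_le hN1
        rw [div_mul_eq_mul_div, div_le_iff₀ hJ1]
        nlinarith

/-- the saving in the `2J`-th moment -/
noncomputable def et' (A : ℝ) (k J : ℕ) : ℝ := ((J : ℝ) * k - A) / (2 ^ k - 2)

theorem MT_pow (k : ℕ) (hk : 2 ≤ k) (A : ℝ) (J N : ℕ) (hN : 1 ≤ N) :
    MT k ((2 * N) ^ J : ℕ) ((N : ℝ) ^ A) ≤ 2 ^ J * (N : ℝ) ^ (J - et' A k J) := by
  have hN' : (1 : ℝ) ≤ N := by exact_mod_cast hN
  have hN0 : (0 : ℝ) < N := by linarith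
  have h2 : (2 : ℝ) ^ k - 2 ≠ 0 := by
    have := two_mul_le_pow hk
    have hk' : (2 : ℝ) ≤ k := by exact_mod_cast hk
    have : 0 < (2 : ℝ) ^ k - 2 := by linarith
    exact this.ne'
  have hea1 : ea k ≤ 1 := by
    unfold ea
    have := two_mul_le_pow hk
    have hk' : (2 : ℝ) ≤ k := by exact_mod_cast hk
    have : 0 ≤ (k : ℝ) / (2 ^ k - 2) := by
      apply div_nonneg <;> linarith
    linarith
  unfold MT
  push_cast
  rw [← Real.rpow_natCast (2 * (N : ℝ)) J, ← Real.rpow_mul (by positivity),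
    Real.mul_rpow (by norm_num) hN0.le, ← Real.rpow_mul hN0.le, mul_assoc,
    ← Real.rpow_add hN0]
  have h1 : (J : ℝ) * ea k + A * eb k = J - et' A k J := by
    unfold ea eb et'
    field_simp
    ring
  rw [h1]
  gcongr
  calc (2 : ℝ) ^ ((J : ℝ) * ea k) ≤ 2 ^ ((J : ℝ) * 1) := by
        apply Real.rpow_le_rpow_of_exponent_le (by norm_num)
        gcongr
    _ = 2 ^ J := by rw [mul_one, Real.rpow_natCast]

/-- **Even moments over sumsets.** -/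
theorem moment_int (A : ℝ) (k : ℕ) (hk : 2 ≤ k) (J : ℕ) (ε : ℝ) (hε : 0 < ε) :
    ∃ C : ℝ, 1 ≤ C ∧ ∀ (N : ℕ) (b : ℕ → ℂ) (X Y : Finset ℤ), 1 ≤ N → (∀ n, ‖b n‖ ≤ 1) →
      (∀ x ∈ X, |(x : ℝ)| ≤ (N : ℝ) ^ A) → (∀ y ∈ Y, |(y : ℝ)| ≤ (N : ℝ) ^ A) →
      ∑ z ∈ X ×ˢ Y, ‖DD N b ((z.1 : ℝ) + z.2)‖ ^ (2 * J) ≤ C * (N : ℝ) ^ (2 * J + ε) *
        (√(X.card + (N : ℝ) ^ (-(2 * et' A k J)) * (X.card : ℝ) ^ 2) *
          √(Y.card + (N : ℝ) ^ (-(2 * et' A k J)) * (Y.card : ℝ) ^ 2)) := by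
  obtain ⟨C, hC, h⟩ := bilinear k hk (ε / (2 * (J + 1))) (by positivity)
  obtain ⟨B, hB1, hB⟩ := pw_sup_eps J (ε / 4) (by positivity)
  have h2e : (1 : ℝ) ≤ 2 ^ ε := Real.one_le_rpow (by norm_num) hε.le
  have hCB : 1 ≤ B ^ 2 * C * 4 ^ J * 2 ^ ε := by
    have h1 : (1 : ℝ) ≤ 4 ^ J := one_le_pow₀ (by norm_num)
    have h2 : 1 ≤ B ^ 2 := one_le_pow₀ hB1
    exact one_le_mul_of_one_le_of_one_le (one_le_mul_of_one_le_of_one_le
      (one_le_mul_of_one_le_of_one_le h2 hC) h1) h2e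
  refine ⟨B ^ 2 * C * 4 ^ J * 2 ^ ε, hCB, ?_⟩
  intro N b X Y hN hb hX hY
  have hN' : (1 : ℝ) ≤ N := by exact_mod_cast hN
  have hN0 : (0 : ℝ) < N := by linarith
  set T : ℝ := (N : ℝ) ^ A with hT
  have hsp : ∀ Z : Finset ℤ, (∀ x ∈ Z, |(x : ℝ)| ≤ T) →
      ∀ i ∈ Z, ∀ j ∈ Z, |((i : ℤ) : ℝ) - ((j : ℤ) : ℝ)| ≤ 2 * T := by
    intro Z hZ i hi j hj
    have h1 := abs_le.1 (hZ i hi)
    have h2 := abs_le.1 (hZ j hj)
    rw [abs_le]
    constructor <;> linarith [h1.1, h1.2, h2.1, h2.2]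
  set c : ℕ → ℂ := fun n => if N ≤ n then b n else 0 with hc
  have hc1 : ∀ n, ‖c n‖ ≤ 1 := by
    intro n
    rw [hc]
    simp only
    split_ifs
    · exact hb n
    · simp
  set S : ℝ := B * (2 * N : ℕ) ^ (ε / 4) with hS
  have h2N : (1 : ℝ) ≤ ((2 * N : ℕ) : ℝ) := by
    push_cast
    linarith
  have hS1 : 1 ≤ S := one_le_mul_of_one_le_of_one_le hB1 (Real.one_le_rpow h2N (by positivity))
  have hS0 : 0 < S := by linarith
  have hpw : ∀ m, ‖(S : ℂ)⁻¹ * pw (2 * N) c J m‖ ≤ 1 := by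
    intro m
    rw [norm_mul, norm_inv, Complex.norm_real, Real.norm_eq_abs, abs_of_pos hS0]
    rw [inv_mul_le_iff₀ hS0, mul_one]
    exact hB (2 * N) c (by omega) hc1 m
  have hNJ : 1 ≤ (2 * N) ^ J := Nat.one_le_pow _ _ (by omega)
  have h1 := h ((2 * N) ^ J) T ℤ ℤ X (fun i => (i : ℝ)) Y (fun i => (i : ℝ)) hNJ (hsp X hX)
    (hsp Y hY) (fun m => (S : ℂ)⁻¹ * pw (2 * N) c J m) 0 hpw
  have h3 : ∑ z ∈ X ×ˢ Y, ‖DD N b ((z.1 : ℝ) + z.2)‖ ^ (2 * J) = S ^ 2 *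
      ∑ z ∈ X ×ˢ Y, ‖Dp ((2 * N) ^ J) (fun m => (S : ℂ)⁻¹ * pw (2 * N) c J m)
        (0 + ((z.1 : ℝ) + z.2))‖ ^ 2 := by
    rw [mul_sum]
    refine sum_congr rfl fun z _ => ?_
    set t : ℝ := (z.1 : ℝ) + z.2
    have e1 : Dp ((2 * N) ^ J) (fun m => (S : ℂ)⁻¹ * pw (2 * N) c J m) (0 + t) =
        (S : ℂ)⁻¹ * DD N b t ^ J := by
      rw [DD_eq N hN, zero_add, ← DP_eq (2 * N), pow_eq, DP_eq]
      unfold Dp
      rw [mul_sum]
      refine sum_congr rfl fun n _ => ?_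
      ring
    rw [e1, norm_mul, norm_inv, Complex.norm_real, Real.norm_eq_abs, abs_of_pos hS0, norm_pow]
    field_simp
    ring
  rw [h3]
  have hM := MT_pow k hk A J N hN
  rw [← hT] at hM
  have hM0 : 0 ≤ MT k ((2 * N) ^ J : ℕ) T := by unfold MT; positivity
  have hBZ : ∀ Z : Finset ℤ, B2 k ((2 * N) ^ J) T Z (fun i => (i : ℝ)) ≤
      (4 ^ J * (N : ℝ) ^ (2 * J)) * (Z.card + (N : ℝ) ^ (-(2 * et' A k J)) * (Z.card : ℝ) ^ 2) := by
    intro Z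
    unfold B2
    rw [co_int]
    have e1 : MT k ((2 * N) ^ J : ℕ) T ^ 2 ≤ 4 ^ J * (N : ℝ) ^ (2 * J) *
        (N : ℝ) ^ (-(2 * et' A k J)) := by
      calc MT k ((2 * N) ^ J : ℕ) T ^ 2 ≤ (2 ^ J * (N : ℝ) ^ (J - et' A k J)) ^ 2 := by gcongr
        _ = (2 ^ J) ^ 2 * ((N : ℝ) ^ (J - et' A k J)) ^ 2 := by ring
        _ = 4 ^ J * ((N : ℝ) ^ (2 * J) * (N : ℝ) ^ (-(2 * et' A k J))) := by
          have e2 : ((2 : ℝ) ^ J) ^ 2 = 4 ^ J := by
            rw [← pow_mul, mul_comm, pow_mul]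
            norm_num
          rw [e2]
          congr 1
          rw [← Real.rpow_natCast ((N : ℝ) ^ (J - et' A k J)) 2, ← Real.rpow_mul hN0.le,
            ← Real.rpow_natCast (N : ℝ) (2 * J), ← Real.rpow_add hN0]
          congr 1
          push_cast
          ring
        _ = _ := by ring
    push_cast at e1 ⊢
    have e3 : ((2 * (N : ℝ)) ^ J) ^ 2 = 4 ^ J * (N : ℝ) ^ (2 * J) := by
      rw [mul_pow, mul_pow, ← pow_mul, ← pow_mul, mul_comm J 2, pow_mul 2 2 J]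
      norm_num
    rw [e3]
    calc 4 ^ J * (N : ℝ) ^ (2 * J) * Z.card + MT k ((2 * (N : ℝ)) ^ J) T ^ 2 * (Z.card : ℝ) ^ 2
        ≤ 4 ^ J * (N : ℝ) ^ (2 * J) * Z.card +
          (4 ^ J * (N : ℝ) ^ (2 * J) * (N : ℝ) ^ (-(2 * et' A k J))) * (Z.card : ℝ) ^ 2 := by
          gcongr
      _ = _ := by ring
  set RX := √(X.card + (N : ℝ) ^ (-(2 * et' A k J)) * (X.card : ℝ) ^ 2) with hRX
  set RY := √(Y.card + (N : ℝ) ^ (-(2 * et' A k J)) * (Y.card : ℝ) ^ 2) with hRY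
  have hR0 : 0 ≤ RX * RY := by positivity
  have h4 : C * (((2 * N) ^ J : ℕ) : ℝ) ^ (ε / (2 * (J + 1))) *
      (√(B2 k ((2 * N) ^ J) T X (fun i => (i : ℝ))) *
        √(B2 k ((2 * N) ^ J) T Y (fun i => (i : ℝ)))) ≤
      C * (2 * N : ℝ) ^ (ε / 2) * ((4 ^ J * (N : ℝ) ^ (2 * J)) * (RX * RY)) := by
    have e1 : (((2 * N) ^ J : ℕ) : ℝ) ^ (ε / (2 * (J + 1))) ≤ (2 * N : ℝ) ^ (ε / 2) := by
      push_cast
      rw [← Real.rpow_natCast (2 * (N : ℝ)) J, ← Real.rpow_mul (by positivity)]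
      apply Real.rpow_le_rpow_of_exponent_le (by linarith)
      rw [mul_div_assoc', div_le_div_iff₀ (by positivity) (by norm_num)]
      nlinarith
    calc _ ≤ C * (2 * N : ℝ) ^ (ε / 2) *
        (√((4 ^ J * (N : ℝ) ^ (2 * J)) *
          (X.card + (N : ℝ) ^ (-(2 * et' A k J)) * (X.card : ℝ) ^ 2)) *
        √((4 ^ J * (N : ℝ) ^ (2 * J)) *
          (Y.card + (N : ℝ) ^ (-(2 * et' A k J)) * (Y.card : ℝ) ^ 2))) := by
          gcongr
          · exact hBZ X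
          · exact hBZ Y
      _ = C * (2 * N : ℝ) ^ (ε / 2) * ((√(4 ^ J * (N : ℝ) ^ (2 * J)) *
          √(4 ^ J * (N : ℝ) ^ (2 * J))) * (RX * RY)) := by
          rw [Real.sqrt_mul (by positivity : (0 : ℝ) ≤ 4 ^ J * (N : ℝ) ^ (2 * J)),
            Real.sqrt_mul (by positivity : (0 : ℝ) ≤ 4 ^ J * (N : ℝ) ^ (2 * J))]
          ring
      _ = _ := by rw [Real.mul_self_sqrt (by positivity)]
  calc S ^ 2 * ∑ z ∈ X ×ˢ Y, ‖Dp ((2 * N) ^ J) (fun m => (S : ℂ)⁻¹ * pw (2 * N) c J m)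
        (0 + ((z.1 : ℝ) + z.2))‖ ^ 2
      ≤ S ^ 2 * (C * (2 * N : ℝ) ^ (ε / 2) * ((4 ^ J * (N : ℝ) ^ (2 * J)) * (RX * RY))) := by
        gcongr
        exact h1.trans h4
    _ = B ^ 2 * C * 4 ^ J * ((2 * N : ℝ) ^ (ε / 4) * (2 * N : ℝ) ^ (ε / 4) *
        (2 * N : ℝ) ^ (ε / 2)) * ((N : ℝ) ^ (2 * J) * (RX * RY)) := by
        rw [hS]
        push_cast
        ring
    _ = B ^ 2 * C * 4 ^ J * (2 * N : ℝ) ^ ε * ((N : ℝ) ^ (2 * J) * (RX * RY)) := by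
        rw [← Real.rpow_add (by linarith), ← Real.rpow_add (by linarith)]
        congr 3
        ring
    _ = _ := by
        rw [Real.mul_rpow (by norm_num) hN0.le, Real.rpow_add hN0 (2 * J) ε]
        have : (N : ℝ) ^ (2 * (J : ℝ)) = (N : ℝ) ^ (2 * J) := by
          rw [← Real.rpow_natCast]
          push_cast
          rfl
        rw [this]
        ring

theorem DD_le (N : ℕ) (hN : 1 ≤ N) (b : ℕ → ℂ) (hb : ∀ n, ‖b n‖ ≤ 1) (t : ℝ) :
    ‖DD N b t‖ ≤ 2 * N := by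
  unfold DD
  refine (norm_sum_le _ _).trans ?_
  calc ∑ n ∈ Icc N (2 * N), ‖b n * Complex.exp (((t * Real.log n : ℝ) : ℂ) * I)‖
      ≤ ∑ n ∈ Icc N (2 * N), (1 : ℝ) := by
        apply sum_le_sum
        intro n _
        rw [norm_mul, Complex.norm_exp_ofReal_mul_I, mul_one]
        exact hb n
    _ = ((2 * N + 1 - N : ℕ) : ℝ) := by simp
    _ ≤ 2 * N := by exact_mod_cast (by omega : 2 * N + 1 - N ≤ 2 * N)

/-- **Moments over sets with many almost periods.** -/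
theorem lq_periods (A : ℝ) (k : ℕ) (hk : 2 ≤ k) (J : ℕ) (hJ : 1 ≤ J) (ε : ℝ) (hε : 0 < ε) :
    ∃ C : ℝ, 1 ≤ C ∧ ∀ (N : ℕ) (b : ℕ → ℂ), 1 ≤ N → (∀ n, ‖b n‖ ≤ 1) →
      (∀ X Y : Finset ℤ, (∀ x ∈ X, |(x : ℝ)| ≤ (N : ℝ) ^ A) →
        (∀ y ∈ Y, |(y : ℝ)| ≤ (N : ℝ) ^ A) →
        ∑ z ∈ X ×ˢ Y, ‖DD N b ((z.1 : ℝ) + z.2)‖ ^ (2 * J) ≤ C * (N : ℝ) ^ (2 * J + ε) *
        (√(X.card + (N : ℝ) ^ (-(2 * et' A k J)) * (X.card : ℝ) ^ 2) *
          √(Y.card + (N : ℝ) ^ (-(2 * et' A k J)) * (Y.card : ℝ) ^ 2))) ∧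
      ∀ (W H : Finset ℤ) (K q : ℝ), 1 ≤ K → 2 * J ≤ q →
        (∀ t ∈ W, |(t : ℝ)| ≤ (N : ℝ) ^ A) → (∀ h ∈ H, |(h : ℝ)| ≤ (N : ℝ) ^ A) → H.Nonempty →
        (∀ t ∈ W, (H.card : ℝ) ≤ K * ((H.filter fun h => t - h ∈ W).card : ℝ)) →
        (∑ t ∈ W, ‖DD N b t‖ ^ q ≤ 2 ^ q * C * K * (N : ℝ) ^ (q + ε) *
          √((W.card / H.card) * ((1 + (N : ℝ) ^ (-(2 * et' A k J)) * W.card) *
            (1 + (N : ℝ) ^ (-(2 * et' A k J)) * H.card)))) ∧
        ((W.card : ℝ) ≤ K * H.card → (W.card : ℝ) ≤ (N : ℝ) ^ (2 * et' A k J) →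
          (H.card : ℝ) ≤ (N : ℝ) ^ (2 * et' A k J) →
          ∑ t ∈ W, ‖DD N b t‖ ^ q ≤ 2 ^ (q + 1) * C * (K * √K) * (N : ℝ) ^ (q + ε)) := by
  classical
  obtain ⟨C, hC, h⟩ := moment_int A k hk J ε hε
  refine ⟨C, hC, ?_⟩
  intro N b hN hb
  have hN' : (1 : ℝ) ≤ N := by exact_mod_cast hN
  have hN0 : (0 : ℝ) < N := by linarith
  refine ⟨fun X Y hX hY => h N b X Y hN hb hX hY, ?_⟩
  intro W H K q hK hq hW hH hHne hcl
  have hK0 : 0 < K := by linarith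
  have hg : (0 : ℝ) < H.card := by exact_mod_cast hHne.card_pos
  set w : ℝ := (W.card : ℝ) with hwdef
  set g : ℝ := (H.card : ℝ) with hgdef
  have hw : 0 ≤ w := Nat.cast_nonneg _
  set δ : ℝ := (N : ℝ) ^ (-(2 * et' A k J)) with hδ
  have hδ0 : 0 < δ := Real.rpow_pos_of_pos hN0 _
  have h1 := h N b W H hN hb hW hH
  have hq0 : 0 < q := by
    have : (1 : ℝ) ≤ J := by exact_mod_cast hJ
    linarith
  -- pass to the even moment
  have h2 : ∀ t ∈ W, ‖DD N b t‖ ^ q ≤ (2 * N : ℝ) ^ (q - 2 * J) * ‖DD N b t‖ ^ (2 * J) := by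
    intro t _
    rcases (norm_nonneg (DD N b t)).eq_or_lt with h0 | h0
    · rw [← h0, Real.zero_rpow hq0.ne', zero_pow (by omega), mul_zero]
    · have e : ‖DD N b t‖ ^ q = ‖DD N b t‖ ^ (q - 2 * J) * ‖DD N b t‖ ^ (2 * J) := by
        rw [← Real.rpow_natCast (‖DD N b t‖) (2 * J), ← Real.rpow_add h0]
        congr 1
        push_cast
        ring
      rw [e]
      apply mul_le_mul_of_nonneg_right _ (by positivity)
      exact Real.rpow_le_rpow h0.le (DD_le N hN b hb t) (by linarith)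
  -- the even moment over `W`
  have h3 : g * ∑ t ∈ W, ‖DD N b t‖ ^ (2 * J) ≤
      K * ∑ z ∈ W ×ˢ H, ‖DD N b ((z.1 : ℝ) + z.2)‖ ^ (2 * J) := by
    have e1 : ∑ z ∈ (W ×ˢ H).filter (fun z => z.1 - z.2 ∈ W), ‖DD N b (z.1 : ℝ)‖ ^ (2 * J) ≤
        ∑ z ∈ W ×ˢ H, ‖DD N b ((z.1 : ℝ) + z.2)‖ ^ (2 * J) := by
      have e2 : ∑ z ∈ (W ×ˢ H).filter (fun z => z.1 - z.2 ∈ W), ‖DD N b (z.1 : ℝ)‖ ^ (2 * J) =
          ∑ z ∈ ((W ×ˢ H).filter (fun z => z.1 - z.2 ∈ W)).image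
            (fun z : ℤ × ℤ => ((z.1 - z.2, z.2) : ℤ × ℤ)),
            ‖DD N b ((z.1 : ℝ) + z.2)‖ ^ (2 * J) := by
        rw [sum_image]
        · refine sum_congr rfl fun z _ => ?_
          congr 3
          push_cast
          ring
        · intro z _ z' _ hzz
          simp only [Prod.mk.injEq] at hzz
          ext
          · omega
          · exact hzz.2
      rw [e2]
      apply sum_le_sum_of_subset_of_nonneg
      · intro z hz
        obtain ⟨y, hy, rfl⟩ := mem_image.1 hz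
        rw [mem_filter, mem_product] at hy
        exact mem_product.2 ⟨hy.2, hy.1.2⟩
      · intro _ _ _
        positivity
    have e3 : g * ∑ t ∈ W, ‖DD N b t‖ ^ (2 * J) ≤
        K * ∑ z ∈ (W ×ˢ H).filter (fun z => z.1 - z.2 ∈ W), ‖DD N b (z.1 : ℝ)‖ ^ (2 * J) := by
      rw [sum_filter, sum_product, mul_sum, mul_sum]
      refine sum_le_sum fun t ht => ?_
      have e4 : ∑ y ∈ H, (if t - y ∈ W then ‖DD N b (t : ℝ)‖ ^ (2 * J) else 0) =
          ((H.filter fun h => t - h ∈ W).card : ℝ) * ‖DD N b (t : ℝ)‖ ^ (2 * J) := by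
        rw [← sum_filter, sum_const, nsmul_eq_mul]
      have e5 := hcl t ht
      calc g * ‖DD N b t‖ ^ (2 * J) ≤
            (K * ((H.filter fun h => t - h ∈ W).card : ℝ)) * ‖DD N b t‖ ^ (2 * J) := by gcongr
        _ = K * (((H.filter fun h => t - h ∈ W).card : ℝ) * ‖DD N b t‖ ^ (2 * J)) := by ring
        _ = _ := by rw [← e4]
    calc _ ≤ _ := e3
      _ ≤ _ := by gcongr
  have hgen : ∑ t ∈ W, ‖DD N b t‖ ^ q ≤ 2 ^ q * C * K * (N : ℝ) ^ (q + ε) *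
      √((w / g) * ((1 + δ * w) * (1 + δ * g))) := by
    have e1 : √(w + δ * w ^ 2) * √(g + δ * g ^ 2) =
        g * √((w / g) * ((1 + δ * w) * (1 + δ * g))) := by
      have hwn : 0 ≤ w + δ * w ^ 2 := by positivity
      have hg2 : g * √((w / g) * ((1 + δ * w) * (1 + δ * g))) =
          √(g ^ 2 * ((w / g) * ((1 + δ * w) * (1 + δ * g)))) := by
        rw [Real.sqrt_mul (sq_nonneg g), Real.sqrt_sq hg.le]
      rw [← Real.sqrt_mul hwn, hg2]
      congr 1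
      field_simp
    rw [e1] at h1
    have h4 : g * ∑ t ∈ W, ‖DD N b t‖ ^ (2 * J) ≤
        g * (K * (C * (N : ℝ) ^ (2 * J + ε) * √((w / g) * ((1 + δ * w) * (1 + δ * g))))) := by
      calc _ ≤ _ := h3
        _ ≤ K * (C * (N : ℝ) ^ (2 * J + ε) *
            (g * √((w / g) * ((1 + δ * w) * (1 + δ * g))))) := by gcongr
        _ = _ := by ring
    have h5 := le_of_mul_le_mul_left h4 hg
    have e2 : (2 * N : ℝ) ^ (q - 2 * J) * (N : ℝ) ^ (2 * J + ε) ≤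
        2 ^ q * (N : ℝ) ^ (q + ε) := by
      rw [Real.mul_rpow (by norm_num) hN0.le, mul_assoc, ← Real.rpow_add hN0]
      have e3 : q - 2 * (J : ℝ) + (2 * J + ε) = q + ε := by ring
      rw [e3]
      gcongr
      · norm_num
      · have : (0 : ℝ) ≤ J := Nat.cast_nonneg _
        linarith
    set Rt := √((w / g) * ((1 + δ * w) * (1 + δ * g))) with hRt
    have hRt0 : 0 ≤ Rt := Real.sqrt_nonneg _
    calc ∑ t ∈ W, ‖DD N b t‖ ^ q
        ≤ ∑ t ∈ W, (2 * N : ℝ) ^ (q - 2 * J) * ‖DD N b t‖ ^ (2 * J) := sum_le_sum h2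
      _ = (2 * N : ℝ) ^ (q - 2 * J) * ∑ t ∈ W, ‖DD N b t‖ ^ (2 * J) := by rw [mul_sum]
      _ ≤ (2 * N : ℝ) ^ (q - 2 * J) * (K * (C * (N : ℝ) ^ (2 * J + ε) * Rt)) := by gcongr
      _ = ((2 * N : ℝ) ^ (q - 2 * J) * (N : ℝ) ^ (2 * J + ε)) * (C * K * Rt) := by ring
      _ ≤ (2 ^ q * (N : ℝ) ^ (q + ε)) * (C * K * Rt) := by gcongr
      _ = _ := by ring
  refine ⟨hgen, ?_⟩
  intro hwg hw1 hg1
  have hδe : δ * (N : ℝ) ^ (2 * et' A k J) = 1 := by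
    rw [hδ, ← Real.rpow_add hN0]
    simp
  have e1 : δ * w ≤ 1 := by
    calc δ * w ≤ δ * (N : ℝ) ^ (2 * et' A k J) := by gcongr
      _ = 1 := hδe
  have e2 : δ * g ≤ 1 := by
    calc δ * g ≤ δ * (N : ℝ) ^ (2 * et' A k J) := by gcongr
      _ = 1 := hδe
  have e3 : w / g ≤ K := by
    rw [div_le_iff₀ hg]
    exact hwg
  have e4 : √((w / g) * ((1 + δ * w) * (1 + δ * g))) ≤ 2 * √K := by
    have : 2 * √K = √(K * (2 * 2)) := by
      rw [Real.sqrt_mul hK0.le, Real.sqrt_mul_self (by norm_num)]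
      ring
    rw [this]
    apply Real.sqrt_le_sqrt
    have h6 : 0 ≤ w / g := by positivity
    gcongr
    · linarith
    · linarith
  calc _ ≤ _ := hgen
    _ ≤ 2 ^ q * C * K * (N : ℝ) ^ (q + ε) * (2 * √K) := by gcongr
    _ = _ := by
      rw [Real.rpow_add (by norm_num) q 1, Real.rpow_one]
      ring

end Pool.Agent.Q201.ML
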