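import Pool.Agent.Q201.ML.Bil

set_option autoImplicit false

/-!
# Bilinear mean squares over integers, and almost periods of sets of large values
-/

namespace Pool.Agent.Q201.ML

open Complex Finset

/-- `∑_{N ≤ n ≤ 2N} b n n^{it}` -/
noncomputable def DD (N : ℕ) (b : ℕ → ℂ) (t : ℝ) : ℂ :=
  ∑ n ∈ Icc N (2 * N), b n * Complex.exp (((t * Real.log n : ℝ) : ℂ) * I)

theorem DD_eq (N : ℕ) (hN : 1 ≤ N) (b : ℕ → ℂ) (t : ℝ) :
    DD N b t = Dp (2 * N) (fun n => if N ≤ n then b n else 0) t := by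
  unfold DD Dp
  symm
  have h : Icc N (2 * N) = (Icc 1 (2 * N)).filter (fun n => N ≤ n) := by
    ext n
    simp only [mem_Icc, mem_filter]
    omega
  rw [h, sum_filter]
  refine sum_congr rfl fun n _ => ?_
  by_cases hn : N ≤ n <;> simp [hn]

/-- the saving -/
noncomputable def et (A : ℝ) (k : ℕ) : ℝ := ((k : ℝ) - A) / (2 ^ k - 2)

theorem MT_two (k : ℕ) (hk : 2 ≤ k) (A : ℝ) (N : ℕ) (hN : 1 ≤ N) :
    MT k (2 * N : ℕ) ((N : ℝ) ^ A) ≤ 2 * (N : ℝ) ^ (1 - et A k) := by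
  have hN' : (1 : ℝ) ≤ N := by exact_mod_cast hN
  have hN0 : (0 : ℝ) < N := by linarith
  unfold MT
  push_cast
  rw [Real.mul_rpow (by norm_num) hN0.le, ← Real.rpow_mul hN0.le, mul_assoc,
    ← Real.rpow_add hN0]
  have h1 : ea k + A * eb k = 1 - et A k := by
    unfold ea eb et
    have := two_mul_le_pow hk
    have hk' : (2 : ℝ) ≤ k := by exact_mod_cast hk
    have h2 : (2 : ℝ) ^ k - 2 ≠ 0 := by
      have : 0 < (2 : ℝ) ^ k - 2 := by linarith
      exact this.ne'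
    field_simp
    ring
  rw [h1]
  have h2 : (2 : ℝ) ^ ea k ≤ 2 := by
    calc (2 : ℝ) ^ ea k ≤ 2 ^ (1 : ℝ) := Real.rpow_le_rpow_of_exponent_le (by norm_num) (by
          unfold ea
          have := two_mul_le_pow hk
          have hk' : (2 : ℝ) ≤ k := by exact_mod_cast hk
          have : 0 ≤ (k : ℝ) / (2 ^ k - 2) := by
            apply div_nonneg <;> linarith
          linarith)
      _ = 2 := by simp
  gcongr

theorem co_int (X : Finset ℤ) : co X (fun i : ℤ => ⌊(i : ℝ)⌋) = X.card := by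
  classical
  unfold co
  apply card_nbij' (fun q : ℤ × ℤ => q.1) (fun x => (x, x))
  · intro q hq
    simp only [coe_filter, mem_product, Set.mem_ofPred_eq] at hq
    exact hq.1.1
  · intro x hx
    simp only [coe_filter, mem_product, Set.mem_ofPred_eq]
    exact ⟨⟨hx, hx⟩, trivial⟩
  · intro q hq
    simp only [coe_filter, mem_product, Set.mem_ofPred_eq, Int.floor_intCast] at hq
    ext
    · rfl
    · exact hq.2
  · intro x _
    rfl

/-- **The bilinear mean square over sets of integers.** -/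
theorem bilinear_int (A : ℝ) (k : ℕ) (hk : 2 ≤ k) (ε : ℝ) (hε : 0 < ε) :
    ∃ C : ℝ, 1 ≤ C ∧ ∀ (N : ℕ) (b : ℕ → ℂ) (X Y : Finset ℤ), 1 ≤ N → (∀ n, ‖b n‖ ≤ 1) →
      (∀ x ∈ X, |(x : ℝ)| ≤ (N : ℝ) ^ A) → (∀ y ∈ Y, |(y : ℝ)| ≤ (N : ℝ) ^ A) →
      ∑ z ∈ X ×ˢ Y, ‖DD N b ((z.1 : ℝ) + z.2)‖ ^ 2 ≤ C * (N : ℝ) ^ (2 + ε) *
        (√(X.card + (N : ℝ) ^ (-(2 * et A k)) * (X.card : ℝ) ^ 2) *
          √(Y.card + (N : ℝ) ^ (-(2 * et A k)) * (Y.card : ℝ) ^ 2)) := by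
  obtain ⟨C, hC, h⟩ := bilinear k hk ε hε
  have h2e : (1 : ℝ) ≤ 2 ^ ε := Real.one_le_rpow (by norm_num) hε.le
  refine ⟨C * 2 ^ ε * 4, by nlinarith, ?_⟩
  intro N b X Y hN hb hX hY
  have hN' : (1 : ℝ) ≤ N := by exact_mod_cast hN
  have hN0 : (0 : ℝ) < N := by linarith
  set T : ℝ := (N : ℝ) ^ A with hT
  have hsp : ∀ Z : Finset ℤ, (∀ x ∈ Z, |(x : ℝ)| ≤ T) →
      ∀ i ∈ Z, ∀ j ∈ Z, |((i : ℤ) : ℝ) - ((j : ℤ) : ℝ)| ≤ 2 * T := by
    intro Z hZ i hi j hj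
    have h1 := abs_le.1 (hZ i hi)
    have h2 := abs_le.1 (hZ j hj)
    rw [abs_le]
    constructor <;> linarith [h1.1, h1.2, h2.1, h2.2]
  have h1 := h (2 * N) T ℤ ℤ X (fun i => (i : ℝ)) Y (fun i => (i : ℝ)) (by omega) (hsp X hX)
    (hsp Y hY) (fun n => if N ≤ n then b n else 0) 0 (by
      intro n
      split_ifs
      · exact hb n
      · simp)
  have h3 : ∑ z ∈ X ×ˢ Y, ‖DD N b ((z.1 : ℝ) + z.2)‖ ^ 2 =
      ∑ z ∈ X ×ˢ Y, ‖Dp (2 * N) (fun n => if N ≤ n then b n else 0)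
        (0 + ((z.1 : ℝ) + z.2))‖ ^ 2 := by
    refine sum_congr rfl fun z _ => ?_
    rw [DD_eq N hN, zero_add]
  rw [h3]
  refine h1.trans ?_
  have hM := MT_two k hk A N hN
  rw [← hT] at hM
  have hM0 : 0 ≤ MT k (2 * N : ℕ) T := by unfold MT; positivity
  have hB : ∀ Z : Finset ℤ, B2 k (2 * N) T Z (fun i => (i : ℝ)) ≤
      (4 * (N : ℝ) ^ 2) * (Z.card + (N : ℝ) ^ (-(2 * et A k)) * (Z.card : ℝ) ^ 2) := by
    intro Z
    unfold B2
    rw [co_int]
    have e1 : MT k (2 * N : ℕ) T ^ 2 ≤ 4 * (N : ℝ) ^ 2 * (N : ℝ) ^ (-(2 * et A k)) := by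
      calc MT k (2 * N : ℕ) T ^ 2 ≤ (2 * (N : ℝ) ^ (1 - et A k)) ^ 2 := by gcongr
        _ = 4 * ((N : ℝ) ^ (1 - et A k)) ^ 2 := by ring
        _ = 4 * ((N : ℝ) ^ 2 * (N : ℝ) ^ (-(2 * et A k))) := by
          congr 1
          rw [← Real.rpow_natCast ((N : ℝ) ^ (1 - et A k)) 2, ← Real.rpow_mul hN0.le,
            ← Real.rpow_natCast (N : ℝ) 2, ← Real.rpow_add hN0]
          congr 1
          push_cast
          ring
        _ = _ := by ring
    push_cast at e1 ⊢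
    calc (2 * (N : ℝ)) ^ 2 * Z.card + MT k (2 * (N : ℝ)) T ^ 2 * (Z.card : ℝ) ^ 2
        ≤ (2 * (N : ℝ)) ^ 2 * Z.card +
          (4 * (N : ℝ) ^ 2 * (N : ℝ) ^ (-(2 * et A k))) * (Z.card : ℝ) ^ 2 := by gcongr
      _ = _ := by ring
  calc C * ((2 * N : ℕ) : ℝ) ^ ε * (√(B2 k (2 * N) T X (fun i => (i : ℝ))) *
        √(B2 k (2 * N) T Y (fun i => (i : ℝ))))
      ≤ C * ((2 * N : ℕ) : ℝ) ^ ε *
        (√((4 * (N : ℝ) ^ 2) * (X.card + (N : ℝ) ^ (-(2 * et A k)) * (X.card : ℝ) ^ 2)) *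
        √((4 * (N : ℝ) ^ 2) * (Y.card + (N : ℝ) ^ (-(2 * et A k)) * (Y.card : ℝ) ^ 2))) := by
        gcongr
        · exact hB X
        · exact hB Y
    _ = C * ((2 * N : ℕ) : ℝ) ^ ε * ((√(4 * (N : ℝ) ^ 2) * √(4 * (N : ℝ) ^ 2)) *
        (√(X.card + (N : ℝ) ^ (-(2 * et A k)) * (X.card : ℝ) ^ 2) *
          √(Y.card + (N : ℝ) ^ (-(2 * et A k)) * (Y.card : ℝ) ^ 2))) := by
        rw [Real.sqrt_mul (by positivity : (0 : ℝ) ≤ 4 * (N : ℝ) ^ 2),
          Real.sqrt_mul (by positivity : (0 : ℝ) ≤ 4 * (N : ℝ) ^ 2)]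
        ring
    _ = _ := by
        rw [Real.mul_self_sqrt (by positivity)]
        push_cast
        rw [Real.mul_rpow (by norm_num) hN0.le, Real.rpow_add hN0 2 ε]
        have : (N : ℝ) ^ (2 : ℝ) = (N : ℝ) ^ 2 := by
          rw [← Real.rpow_natCast]; norm_num
        rw [this]
        ring

/-- **Almost periods of sets of large values.** -/
theorem periods (A : ℝ) (k : ℕ) (hk : 2 ≤ k) (ε : ℝ) (hε : 0 < ε) :
    ∃ C : ℝ, 1 ≤ C ∧ ∀ (N : ℕ) (b : ℕ → ℂ), 1 ≤ N → (∀ n, ‖b n‖ ≤ 1) →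
      (∀ X Y : Finset ℤ, (∀ x ∈ X, |(x : ℝ)| ≤ (N : ℝ) ^ A) →
        (∀ y ∈ Y, |(y : ℝ)| ≤ (N : ℝ) ^ A) →
        ∑ z ∈ X ×ˢ Y, ‖DD N b ((z.1 : ℝ) + z.2)‖ ^ 2 ≤ C * (N : ℝ) ^ (2 + ε) *
        (√(X.card + (N : ℝ) ^ (-(2 * et A k)) * (X.card : ℝ) ^ 2) *
          √(Y.card + (N : ℝ) ^ (-(2 * et A k)) * (Y.card : ℝ) ^ 2))) ∧
      ∀ (W H : Finset ℤ) (σ K : ℝ), 1 ≤ K →
        (∀ t ∈ W, 0 ≤ (t : ℝ) ∧ (t : ℝ) ≤ (N : ℝ) ^ A ∧ (N : ℝ) ^ σ < ‖DD N b t‖) →
        (∀ h ∈ H, (W.card : ℝ) ≤ K * ((W.filter fun w => w + h ∈ W).card : ℝ)) →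
        ((W.card : ℝ) ≤ (N : ℝ) ^ (2 * et A k) → (H.card : ℝ) ≤ (N : ℝ) ^ (2 * et A k) →
          √((W.card : ℝ) * H.card) ≤ C * K * (N : ℝ) ^ (2 - 2 * σ + ε)) ∧
        (C * K * (N : ℝ) ^ (2 - 2 * et A k + ε) ≤ (N : ℝ) ^ (2 * σ) →
          min (W.card : ℝ) H.card ≤ C * K * (N : ℝ) ^ (2 - 2 * σ + ε)) := by
  obtain ⟨C, hC, h⟩ := bilinear_int A k hk ε hε
  refine ⟨2 * C, by linarith, ?_⟩
  intro N b hN hb
  have hN' : (1 : ℝ) ≤ N := by exact_mod_cast hN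
  have hN0 : (0 : ℝ) < N := by linarith
  refine ⟨?_, ?_⟩
  · intro X Y hX hY
    refine (h N b X Y hN hb hX hY).trans ?_
    have : 0 ≤ C * (N : ℝ) ^ (2 + ε) *
        (√(X.card + (N : ℝ) ^ (-(2 * et A k)) * (X.card : ℝ) ^ 2) *
          √(Y.card + (N : ℝ) ^ (-(2 * et A k)) * (Y.card : ℝ) ^ 2)) := by positivity
    linarith
  intro W H σ K hK hW hH
  have hK0 : 0 < K := by linarith
  rcases Nat.eq_zero_or_pos W.card with h0 | h0
  · rw [h0]
    constructor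
    · intro _ _
      simp only [Nat.cast_zero, zero_mul, Real.sqrt_zero]
      positivity
    · intro _
      refine (min_le_left _ _).trans ?_
      simp only [Nat.cast_zero]
      positivity
  rcases Nat.eq_zero_or_pos H.card with h0' | h0'
  · rw [h0']
    constructor
    · intro _ _
      simp only [Nat.cast_zero, mul_zero, Real.sqrt_zero]
      positivity
    · intro _
      refine (min_le_right _ _).trans ?_
      simp only [Nat.cast_zero]
      positivity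
  have hw : (0 : ℝ) < W.card := by exact_mod_cast h0
  have hh : (0 : ℝ) < H.card := by exact_mod_cast h0'
  set w : ℝ := (W.card : ℝ) with hwdef
  set g : ℝ := (H.card : ℝ) with hgdef
  have hwg : 0 < w * g := mul_pos hw hh
  set δ : ℝ := (N : ℝ) ^ (-(2 * et A k)) with hδ
  have hδ0 : 0 < δ := Real.rpow_pos_of_pos hN0 _
  have hWA : ∀ t ∈ W, |(t : ℝ)| ≤ (N : ℝ) ^ A := by
    intro t ht
    rw [abs_of_nonneg (hW t ht).1]
    exact (hW t ht).2.1
  have hHA : ∀ y ∈ H, |(y : ℝ)| ≤ (N : ℝ) ^ A := by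
    intro y hy
    have h1 := hH y hy
    have h2 : 0 < (W.filter fun w => w + y ∈ W).card := by
      by_contra hcon
      have h3 : (W.filter fun w => w + y ∈ W).card = 0 := by omega
      rw [h3] at h1
      simp at h1
      linarith
    obtain ⟨v, hv⟩ := card_pos.1 h2
    rw [mem_filter] at hv
    have m1 := hW _ hv.1
    have m2 := hW _ hv.2
    push_cast at m2
    rw [abs_le]
    constructor <;> linarith [m1.1, m1.2.1, m2.1, m2.2.1]
  have h1 := h N b W H hN hb hWA hHA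
  have h2 : (N : ℝ) ^ (2 * σ) * (w * g) ≤
      K * ∑ z ∈ W ×ˢ H, ‖DD N b ((z.1 : ℝ) + z.2)‖ ^ 2 := by
    rw [sum_product_right, mul_sum]
    have h3 : ∀ y ∈ H, (N : ℝ) ^ (2 * σ) * w ≤
        K * ∑ x ∈ W, ‖DD N b ((x : ℝ) + y)‖ ^ 2 := by
      intro y hy
      have h4 : ∑ x ∈ W.filter (fun w => w + y ∈ W), (N : ℝ) ^ (2 * σ) ≤
          ∑ x ∈ W, ‖DD N b ((x : ℝ) + y)‖ ^ 2 := by
        calc ∑ x ∈ W.filter (fun w => w + y ∈ W), (N : ℝ) ^ (2 * σ)
            ≤ ∑ x ∈ W.filter (fun w => w + y ∈ W), ‖DD N b ((x : ℝ) + y)‖ ^ 2 := by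
              refine sum_le_sum fun x hx => ?_
              have h5 := (hW _ (mem_filter.1 hx).2).2.2
              push_cast at h5
              have e1 : (N : ℝ) ^ (2 * σ) = ((N : ℝ) ^ σ) ^ 2 := by
                rw [← Real.rpow_natCast, ← Real.rpow_mul hN0.le]
                congr 1
                push_cast
                ring
              rw [e1]
              gcongr
          _ ≤ _ := sum_le_sum_of_subset_of_nonneg (filter_subset _ _) (fun _ _ _ => sq_nonneg _)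
      rw [sum_const, nsmul_eq_mul] at h4
      calc (N : ℝ) ^ (2 * σ) * w ≤ (N : ℝ) ^ (2 * σ) *
            (K * ((W.filter fun w => w + y ∈ W).card : ℝ)) := by
            have := hH y hy
            gcongr
        _ = K * (((W.filter fun w => w + y ∈ W).card : ℝ) * (N : ℝ) ^ (2 * σ)) := by ring
        _ ≤ _ := by gcongr
    calc (N : ℝ) ^ (2 * σ) * (w * g) = ∑ y ∈ H, (N : ℝ) ^ (2 * σ) * w := by
          rw [sum_const, nsmul_eq_mul]
          ring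
      _ ≤ _ := sum_le_sum h3
  have h3 : (N : ℝ) ^ (2 * σ) * √(w * g) ≤ C * K * (N : ℝ) ^ (2 + ε) *
      (√(1 + δ * w) * √(1 + δ * g)) := by
    have e1 : √(w + δ * w ^ 2) = √w * √(1 + δ * w) := by
      rw [← Real.sqrt_mul hw.le]
      congr 1
      ring
    have e2 : √(g + δ * g ^ 2) = √g * √(1 + δ * g) := by
      rw [← Real.sqrt_mul hh.le]
      congr 1
      ring
    have e3 : w * g = √(w * g) * √(w * g) := (Real.mul_self_sqrt hwg.le).symm
    have e4 : √(w * g) = √w * √g := Real.sqrt_mul hw.le g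
    have hpos : 0 < √(w * g) := Real.sqrt_pos.2 hwg
    refine le_of_mul_le_mul_right ?_ hpos
    calc (N : ℝ) ^ (2 * σ) * √(w * g) * √(w * g) = (N : ℝ) ^ (2 * σ) * (w * g) := by
          rw [mul_assoc, ← e3]
      _ ≤ K * ∑ z ∈ W ×ˢ H, ‖DD N b ((z.1 : ℝ) + z.2)‖ ^ 2 := h2
      _ ≤ K * (C * (N : ℝ) ^ (2 + ε) * (√(w + δ * w ^ 2) * √(g + δ * g ^ 2))) := by gcongr
      _ = _ := by
        rw [e1, e2, e4]
        ring
  have hsplit : (N : ℝ) ^ (2 + ε) = (N : ℝ) ^ (2 * σ) * (N : ℝ) ^ (2 - 2 * σ + ε) := by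
    rw [← Real.rpow_add hN0]
    congr 1
    ring
  have hσ0 : 0 < (N : ℝ) ^ (2 * σ) := Real.rpow_pos_of_pos hN0 _
  -- the inequality in normalised form
  set B : ℝ := C * K * (N : ℝ) ^ (2 - 2 * σ + ε) with hB
  have hB0 : 0 < B := by rw [hB]; positivity
  have h4 : √(w * g) ≤ B * (√(1 + δ * w) * √(1 + δ * g)) := by
    refine le_of_mul_le_mul_left ?_ hσ0
    calc _ ≤ _ := h3
      _ = _ := by
        rw [hsplit, hB]
        ring
  refine ⟨?_, ?_⟩
  · intro hw1 hg1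
    have hδe : δ * (N : ℝ) ^ (2 * et A k) = 1 := by
      rw [hδ, ← Real.rpow_add hN0]
      simp
    have e1 : δ * w ≤ 1 := by
      calc δ * w ≤ δ * (N : ℝ) ^ (2 * et A k) := by gcongr
        _ = 1 := hδe
    have e2 : δ * g ≤ 1 := by
      calc δ * g ≤ δ * (N : ℝ) ^ (2 * et A k) := by gcongr
        _ = 1 := hδe
    calc √(w * g) ≤ B * (√(1 + δ * w) * √(1 + δ * g)) := h4
      _ ≤ B * (√2 * √2) := by
        gcongr <;> linarith
      _ = 2 * B := by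
        rw [Real.mul_self_sqrt (by norm_num)]
        ring
      _ = _ := by rw [hB]; ring
  · intro hσ
    have hBδ : 2 * (B * δ) ≤ 1 := by
      have e1 : (N : ℝ) ^ (2 - 2 * et A k + ε) =
          (N : ℝ) ^ (2 * σ) * ((N : ℝ) ^ (2 - 2 * σ + ε) * δ) := by
        rw [hδ, ← Real.rpow_add hN0, ← Real.rpow_add hN0]
        congr 1
        ring
      rw [e1] at hσ
      have e2 : (N : ℝ) ^ (2 * σ) * (2 * (B * δ)) ≤ (N : ℝ) ^ (2 * σ) * 1 := by
        calc _ = 2 * C * K * ((N : ℝ) ^ (2 * σ) * ((N : ℝ) ^ (2 - 2 * σ + ε) * δ)) := by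
              rw [hB]; ring
          _ ≤ _ := hσ
          _ = _ := by ring
      exact le_of_mul_le_mul_left e2 hσ0
    have h5 : w * g ≤ B ^ 2 * ((1 + δ * w) * (1 + δ * g)) := by
      have hw1 : 0 ≤ 1 + δ * w := by positivity
      have hg1 : 0 ≤ 1 + δ * g := by positivity
      have e1 : w * g = √(w * g) ^ 2 := (Real.sq_sqrt hwg.le).symm
      rw [e1]
      calc √(w * g) ^ 2 ≤ (B * (√(1 + δ * w) * √(1 + δ * g))) ^ 2 :=
            pow_le_pow_left₀ (Real.sqrt_nonneg _) h4 2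
        _ = B ^ 2 * (√(1 + δ * w) ^ 2 * √(1 + δ * g) ^ 2) := by ring
        _ = _ := by
          rw [Real.sq_sqrt hw1, Real.sq_sqrt hg1]
    by_contra hcon
    push Not at hcon
    have hw2 : 2 * B < w := by
      have := lt_of_lt_of_le hcon (min_le_left _ _)
      rw [hB]; linarith
    have hg2 : 2 * B < g := by
      have := lt_of_lt_of_le hcon (min_le_right _ _)
      rw [hB]; linarith
    -- `B ^ 2 (1 + δ w)(1 + δ g) ≤ (B + w/2)(B + g/2)`
    have h6 : B ^ 2 * ((1 + δ * w) * (1 + δ * g)) ≤ (B + w / 2) * (B + g / 2) := by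
      have e1 : B * (1 + δ * w) ≤ B + w / 2 := by nlinarith
      have e2 : B * (1 + δ * g) ≤ B + g / 2 := by nlinarith
      calc _ = (B * (1 + δ * w)) * (B * (1 + δ * g)) := by ring
        _ ≤ _ := by
          apply mul_le_mul e1 e2 (by positivity) (by positivity)
    have h7 : (B + w / 2) * (B + g / 2) < w * g := by
      have : B + w / 2 < w := by linarith
      have : B + g / 2 < g := by linarith
      apply mul_lt_mul'' <;> first | assumption | positivity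
    linarith

end Pool.Agent.Q201.ML
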