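import Mathlib
import Pool.Agent.H31R2.DH.MVd

set_option autoImplicit false

/-!
# Exponential sums `∑ c_t n^{it}` over sets with few coinciding differences
-/

namespace Pool.Agent.Q201.ML.Sid

open Complex Finset

/-- `∑_{n ≤ N} a n n^{it}` -/
noncomputable def Dp (N : ℕ) (a : ℕ → ℂ) (t : ℝ) : ℂ :=
  ∑ n ∈ Icc 1 N, a n * Complex.exp (((t * Real.log n : ℝ) : ℂ) * I)

/-- `∑_{t ∈ S} c t n^{it}` -/
noncomputable def Fs (S : Finset ℝ) (c : ℝ → ℂ) (n : ℕ) : ℂ :=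
  ∑ t ∈ S, c t * Complex.exp (((t * Real.log n : ℝ) : ℂ) * I)

theorem conj_exp (x : ℝ) : (starRingEnd ℂ) (Complex.exp ((x : ℂ) * I)) =
    Complex.exp (((-x : ℝ) : ℂ) * I) := by
  rw [← Complex.exp_conj, map_mul, Complex.conj_ofReal, Complex.conj_I]
  congr 1
  push_cast
  ring

theorem exp_mul (x y : ℝ) : Complex.exp ((x : ℂ) * I) * Complex.exp ((y : ℂ) * I) =
    Complex.exp (((x + y : ℝ) : ℂ) * I) := by
  rw [← Complex.exp_add]
  congr 1
  push_cast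
  ring

theorem sq_norm (z : ℂ) : ((‖z‖ ^ 2 : ℝ) : ℂ) = z * (starRingEnd ℂ) z := by
  rw [Complex.mul_conj, Complex.normSq_eq_norm_sq]

theorem norm_Dp (N : ℕ) (a : ℕ → ℂ) (t : ℝ) :
    ‖Dp N a t‖ = ‖DH31.dp (fun n => (starRingEnd ℂ) (a n)) N t‖ := by
  rw [← RCLike.norm_conj (Dp N a t)]
  congr 1
  unfold Dp DH31.dp
  rw [map_sum]
  refine sum_congr rfl fun n hn => ?_
  rw [mem_Icc] at hn
  have hn0 : (n : ℂ) ≠ 0 := by
    have : n ≠ 0 := by omega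
    exact_mod_cast this
  rw [map_mul, conj_exp, Complex.cpow_def_of_ne_zero hn0, ← Complex.natCast_log]
  congr 2
  push_cast
  ring

theorem norm_Dp_neg (N : ℕ) (g : ℕ → ℝ) (t : ℝ) :
    ‖Dp N (fun n => (g n : ℂ)) (-t)‖ = ‖Dp N (fun n => (g n : ℂ)) t‖ := by
  rw [← RCLike.norm_conj (Dp N _ t)]
  congr 1
  unfold Dp
  rw [map_sum]
  refine sum_congr rfl fun n _ => ?_
  rw [map_mul, conj_exp, Complex.conj_ofReal]
  congr 3
  push_cast
  ring

theorem norm_Dp_abs (N : ℕ) (g : ℕ → ℝ) (t : ℝ) :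
    ‖Dp N (fun n => (g n : ℂ)) t‖ = ‖Dp N (fun n => (g n : ℂ)) |t|‖ := by
  rcases abs_choice t with h | h
  · rw [h]
  · rw [h, norm_Dp_neg]

/-- the constant of the mean value theorem -/
noncomputable def LL (N N0 : ℕ) : ℝ :=
  (2 + Real.log N ^ 2) * (N0 + 8 * N * (1 + Real.log N))

theorem LL_nonneg (N N0 : ℕ) : 0 ≤ LL N N0 := by
  unfold LL
  have : 0 ≤ Real.log N := Real.log_natCast_nonneg N
  positivity

/-- a majorant on unit intervals -/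
theorem exists_maj {ι : Type} (P : Finset ι) (u : ι → ℝ) (N N0 : ℕ) (a : ℕ → ℂ)
    (hu0 : ∀ p ∈ P, 0 ≤ u p) (hu1 : ∀ p ∈ P, ⌊u p⌋₊ < N0) :
    ∃ Y : ℕ → ℝ, (∀ m, 0 ≤ Y m) ∧ (∀ p ∈ P, ‖Dp N a (u p)‖ ≤ Y ⌊u p⌋₊) ∧
      ∑ m ∈ range N0, Y m ^ 2 ≤ LL N N0 * ∑ n ∈ Icc 1 N, ‖a n‖ ^ 2 := by
  classical
  set M : Finset ℕ := P.image fun p => ⌊u p⌋₊ with hM
  have hmax : ∀ m ∈ M, ∃ x : ℝ, 0 ≤ x ∧ ⌊x⌋₊ = m ∧
      ∀ q ∈ P, ⌊u q⌋₊ = m → ‖Dp N a (u q)‖ ≤ ‖Dp N a x‖ := by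
    intro m hm
    obtain ⟨p0, hp0, hp0'⟩ := mem_image.1 hm
    obtain ⟨p, hp, hp'⟩ := (P.filter fun p => ⌊u p⌋₊ = m).exists_max_image
      (fun p => ‖Dp N a (u p)‖) ⟨p0, mem_filter.2 ⟨hp0, hp0'⟩⟩
    rw [mem_filter] at hp
    exact ⟨u p, hu0 p hp.1, hp.2, fun q hq hq' => hp' q (mem_filter.2 ⟨hq, hq'⟩)⟩
  choose! x hx0 hxm hxmax using hmax
  refine ⟨fun m => if m ∈ M then ‖Dp N a (x m)‖ else 0, ?_, ?_, ?_⟩
  · intro m
    dsimp only
    split_ifs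
    · exact norm_nonneg _
    · exact le_rfl
  · intro q hq
    have hqM : ⌊u q⌋₊ ∈ M := mem_image_of_mem _ hq
    simp only [hqM, if_true]
    exact hxmax _ hqM q hq rfl
  · have hMs : M ⊆ range N0 := by
      intro m hm
      obtain ⟨q, hq, rfl⟩ := mem_image.1 hm
      exact mem_range.2 (hu1 q hq)
    have h1 : ∑ m ∈ range N0, (if m ∈ M then ‖Dp N a (x m)‖ else 0) ^ 2 =
        ∑ m ∈ M, ‖Dp N a (x m)‖ ^ 2 := by
      rw [← sum_subset hMs]
      · refine sum_congr rfl fun m hm => ?_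
        rw [if_pos hm]
      · intro m _ hm
        rw [if_neg hm]
        norm_num
    rw [h1]
    have h2 := DH31.discrete_mv (fun n => (starRingEnd ℂ) (a n)) N N0 M hMs x
      (by
        intro m hm
        have e := hxm m hm
        have l1 := Nat.floor_le (hx0 m hm)
        have l2 := Nat.lt_floor_add_one (x m)
        rw [e] at l1 l2
        exact ⟨l1, l2.le⟩)
    calc ∑ m ∈ M, ‖Dp N a (x m)‖ ^ 2
        = ∑ m ∈ M, ‖DH31.dp (fun n => (starRingEnd ℂ) (a n)) N (x m)‖ ^ 2 := by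
          refine sum_congr rfl fun m _ => ?_
          rw [norm_Dp]
      _ ≤ _ := h2
      _ = LL N N0 * ∑ n ∈ Icc 1 N, ‖a n‖ ^ 2 := by
          unfold LL
          congr 1
          refine sum_congr rfl fun n _ => ?_
          rw [RCLike.norm_conj]

/-- the fourth moment over `n` -/
noncomputable def X4 (N : ℕ) (S : Finset ℝ) (c : ℝ → ℂ) : ℝ := ∑ n ∈ Icc 1 N, ‖Fs S c n‖ ^ 4

theorem X4_nonneg (N : ℕ) (S : Finset ℝ) (c : ℝ → ℂ) : 0 ≤ X4 N S c :=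
  sum_nonneg fun _ _ => by positivity

theorem X4_eq (N : ℕ) (S : Finset ℝ) (c : ℝ → ℂ) : (X4 N S c : ℂ) =
    ∑ t ∈ S, ∑ s ∈ S, c t * (starRingEnd ℂ) (c s) *
      Dp N (fun n => ((‖Fs S c n‖ ^ 2 : ℝ) : ℂ)) (t - s) := by
  unfold X4
  rw [Complex.ofReal_sum]
  have h1 : ∀ n ∈ Icc 1 N, ((‖Fs S c n‖ ^ 4 : ℝ) : ℂ) =
      ∑ t ∈ S, ∑ s ∈ S, c t * (starRingEnd ℂ) (c s) * (((‖Fs S c n‖ ^ 2 : ℝ) : ℂ) *
        Complex.exp ((((t - s) * Real.log n : ℝ) : ℂ) * I)) := by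
    intro n _
    have e1 : ((‖Fs S c n‖ ^ 4 : ℝ) : ℂ) = ((‖Fs S c n‖ ^ 2 : ℝ) : ℂ) *
        (Fs S c n * (starRingEnd ℂ) (Fs S c n)) := by
      rw [← sq_norm, ← Complex.ofReal_mul]
      congr 1
      ring
    rw [e1]
    conv_lhs => rw [show Fs S c n = ∑ t ∈ S, c t * Complex.exp (((t * Real.log n : ℝ) : ℂ) * I) from rfl]
    rw [map_sum, sum_mul_sum, mul_sum]
    refine sum_congr rfl fun t _ => ?_
    rw [mul_sum]
    refine sum_congr rfl fun s _ => ?_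
    rw [map_mul, conj_exp]
    have e2 : Complex.exp ((((t - s) * Real.log n : ℝ) : ℂ) * I) =
        Complex.exp (((t * Real.log n : ℝ) : ℂ) * I) *
          Complex.exp (((-(s * Real.log n) : ℝ) : ℂ) * I) := by
      rw [exp_mul]
      congr 3
      ring
    rw [e2]
    unfold Fs
    ring
  rw [sum_congr rfl h1, sum_comm]
  refine sum_congr rfl fun t _ => ?_
  rw [sum_comm]
  refine sum_congr rfl fun s _ => ?_
  unfold Dp
  rw [mul_sum]

theorem X4_le (N : ℕ) (S : Finset ℝ) (c : ℝ → ℂ) : X4 N S c ≤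
    (∑ t ∈ S, ‖c t‖ ^ 2) * (Real.sqrt N * Real.sqrt (X4 N S c)) +
    ∑ p ∈ S.offDiag, ‖c p.1‖ * ‖c p.2‖ *
      ‖Dp N (fun n => ((‖Fs S c n‖ ^ 2 : ℝ) : ℂ)) |p.1 - p.2|‖ := by
  classical
  have h1 : X4 N S c ≤ ∑ t ∈ S, ∑ s ∈ S, ‖c t‖ * ‖c s‖ *
      ‖Dp N (fun n => ((‖Fs S c n‖ ^ 2 : ℝ) : ℂ)) |t - s|‖ := by
    calc X4 N S c = ‖((X4 N S c : ℝ) : ℂ)‖ := by
          rw [Complex.norm_real, Real.norm_of_nonneg (X4_nonneg N S c)]
      _ ≤ ∑ t ∈ S, ∑ s ∈ S, ‖c t * (starRingEnd ℂ) (c s) *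
          Dp N (fun n => ((‖Fs S c n‖ ^ 2 : ℝ) : ℂ)) (t - s)‖ := by
          rw [X4_eq]
          exact (norm_sum_le _ _).trans (sum_le_sum fun t _ => norm_sum_le _ _)
      _ = _ := by
          refine sum_congr rfl fun t _ => sum_congr rfl fun s _ => ?_
          rw [norm_mul, norm_mul, RCLike.norm_conj, norm_Dp_abs]
  refine h1.trans ?_
  rw [← sum_product', ← diag_union_offDiag, sum_union (disjoint_diag_offDiag S)]
  apply add_le_add _ le_rfl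
  rw [sum_diag, sum_mul]
  apply sum_le_sum
  intro t _
  rw [← sq]
  apply mul_le_mul_of_nonneg_left _ (by positivity)
  rw [sub_self, abs_zero]
  calc ‖Dp N (fun n => ((‖Fs S c n‖ ^ 2 : ℝ) : ℂ)) 0‖ ≤ ∑ n ∈ Icc 1 N, 1 * ‖Fs S c n‖ ^ 2 := by
        unfold Dp
        refine (norm_sum_le _ _).trans (sum_le_sum fun n _ => ?_)
        rw [norm_mul, Complex.norm_exp_ofReal_mul_I, mul_one, Complex.norm_real,
          Real.norm_of_nonneg (by positivity), one_mul]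
    _ ≤ Real.sqrt (∑ n ∈ Icc 1 N, (1 : ℝ) ^ 2) * Real.sqrt (∑ n ∈ Icc 1 N, (‖Fs S c n‖ ^ 2) ^ 2) :=
        Real.sum_mul_le_sqrt_mul_sqrt _ _ _
    _ = Real.sqrt N * Real.sqrt (X4 N S c) := by
        congr 2
        · simp
        · unfold X4
          refine sum_congr rfl fun n _ => ?_
          ring

theorem close {X A B : ℝ} (hX : 0 ≤ X) (hA : 0 ≤ A) (hB : 0 ≤ B)
    (h : X ≤ A * Real.sqrt X + B * Real.sqrt X) : X ≤ 2 * (A ^ 2 + B ^ 2) := by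
  have h0 := Real.sqrt_nonneg X
  have h1 := Real.sq_sqrt hX
  set r := Real.sqrt X
  have h2 : r ≤ A + B := by
    by_contra hcon
    push Not at hcon
    nlinarith
  nlinarith [sq_nonneg (A - B)]

theorem sq_sum (N : ℕ) (S : Finset ℝ) (c : ℝ → ℂ) :
    ∑ n ∈ Icc 1 N, ‖((‖Fs S c n‖ ^ 2 : ℝ) : ℂ)‖ ^ 2 = X4 N S c := by
  unfold X4
  refine sum_congr rfl fun n _ => ?_
  rw [Complex.norm_real, Real.norm_of_nonneg (by positivity)]
  ring

/-- few coinciding differences -/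
theorem X4_mult (N : ℕ) (T : ℝ) (S : Finset ℝ) (hS : ∀ t ∈ S, 0 ≤ t ∧ t ≤ T) (K : ℕ)
    (hK : ∀ m : ℕ, (S.offDiag.filter fun p => ⌊|p.1 - p.2|⌋₊ = m).card ≤ K) (c : ℝ → ℂ) :
    X4 N S c ≤ 2 * (∑ t ∈ S, ‖c t‖ ^ 2) ^ 2 * (N + K * LL N (⌊T⌋₊ + 1)) := by
  classical
  set G := ∑ t ∈ S, ‖c t‖ ^ 2 with hG
  have hG0 : 0 ≤ G := sum_nonneg fun _ _ => by positivity
  obtain ⟨Y, hY0, hY1, hY2⟩ := exists_maj S.offDiag (fun p => |p.1 - p.2|) N (⌊T⌋₊ + 1)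
    (fun n => ((‖Fs S c n‖ ^ 2 : ℝ) : ℂ)) (fun p _ => abs_nonneg _)
    (by
      intro p hp
      rw [mem_offDiag] at hp
      have h1 := hS _ hp.1
      have h2 := hS _ hp.2.1
      have h3 : |p.1 - p.2| ≤ T := by
        rw [abs_le]
        constructor <;> linarith
      have := Nat.floor_le_floor h3
      omega)
  rw [sq_sum] at hY2
  have h := X4_le N S c
  have hL := LL_nonneg N (⌊T⌋₊ + 1)
  have hX := X4_nonneg N S c
  have hoff : ∑ p ∈ S.offDiag, ‖c p.1‖ * ‖c p.2‖ *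
      ‖Dp N (fun n => ((‖Fs S c n‖ ^ 2 : ℝ) : ℂ)) |p.1 - p.2|‖ ≤
      G * Real.sqrt (K * LL N (⌊T⌋₊ + 1)) * Real.sqrt (X4 N S c) := by
    calc ∑ p ∈ S.offDiag, ‖c p.1‖ * ‖c p.2‖ *
          ‖Dp N (fun n => ((‖Fs S c n‖ ^ 2 : ℝ) : ℂ)) |p.1 - p.2|‖
        ≤ ∑ p ∈ S.offDiag, (‖c p.1‖ * ‖c p.2‖) * Y ⌊|p.1 - p.2|⌋₊ := by
          apply sum_le_sum
          intro p hp
          exact mul_le_mul_of_nonneg_left (hY1 p hp) (by positivity)
      _ ≤ Real.sqrt (∑ p ∈ S.offDiag, (‖c p.1‖ * ‖c p.2‖) ^ 2) *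
          Real.sqrt (∑ p ∈ S.offDiag, Y ⌊|p.1 - p.2|⌋₊ ^ 2) := Real.sum_mul_le_sqrt_mul_sqrt _ _ _
      _ ≤ G * Real.sqrt (K * LL N (⌊T⌋₊ + 1) * X4 N S c) := by
          apply mul_le_mul _ _ (Real.sqrt_nonneg _) hG0
          · apply Real.sqrt_le_iff.2 ⟨hG0, ?_⟩
            calc ∑ p ∈ S.offDiag, (‖c p.1‖ * ‖c p.2‖) ^ 2
                ≤ ∑ p ∈ S ×ˢ S, (‖c p.1‖ * ‖c p.2‖) ^ 2 := by
                  apply sum_le_sum_of_subset_of_nonneg
                  · intro p hp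
                    rw [mem_offDiag] at hp
                    exact mem_product.2 ⟨hp.1, hp.2.1⟩
                  · intro p _ _
                    positivity
              _ = G ^ 2 := by
                  rw [sum_product, hG, sq, sum_mul_sum]
                  refine sum_congr rfl fun t _ => sum_congr rfl fun s _ => ?_
                  ring
          · apply Real.sqrt_le_sqrt
            have e1 : ∑ p ∈ S.offDiag, Y ⌊|p.1 - p.2|⌋₊ ^ 2 =
                ∑ m ∈ range (⌊T⌋₊ + 1), ∑ p ∈ S.offDiag.filter (fun p => ⌊|p.1 - p.2|⌋₊ = m),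
                  Y m ^ 2 := by
              have hmap : ∀ p ∈ S.offDiag, ⌊|p.1 - p.2|⌋₊ ∈ range (⌊T⌋₊ + 1) := by
                intro p hp
                rw [mem_offDiag] at hp
                have h1 := hS _ hp.1
                have h2 := hS _ hp.2.1
                have h3 : |p.1 - p.2| ≤ T := by
                  rw [abs_le]
                  constructor <;> linarith
                have := Nat.floor_le_floor h3
                rw [mem_range]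
                omega
              rw [← sum_fiberwise_of_maps_to hmap]
              refine sum_congr rfl fun m _ => sum_congr rfl fun p hp => ?_
              rw [(mem_filter.1 hp).2]
            rw [e1]
            calc ∑ m ∈ range (⌊T⌋₊ + 1), ∑ p ∈ S.offDiag.filter (fun p => ⌊|p.1 - p.2|⌋₊ = m),
                  Y m ^ 2 ≤ ∑ m ∈ range (⌊T⌋₊ + 1), (K : ℝ) * Y m ^ 2 := by
                  apply sum_le_sum
                  intro m _
                  rw [sum_const, nsmul_eq_mul]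
                  apply mul_le_mul_of_nonneg_right _ (sq_nonneg _)
                  exact_mod_cast hK m
              _ = K * ∑ m ∈ range (⌊T⌋₊ + 1), Y m ^ 2 := by rw [mul_sum]
              _ ≤ K * (LL N (⌊T⌋₊ + 1) * X4 N S c) :=
                  mul_le_mul_of_nonneg_left hY2 (Nat.cast_nonneg _)
              _ = _ := by ring
      _ = G * Real.sqrt (K * LL N (⌊T⌋₊ + 1)) * Real.sqrt (X4 N S c) := by
          rw [Real.sqrt_mul (by positivity)]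
          ring
  have hfin := close hX (A := G * Real.sqrt N) (B := G * Real.sqrt (K * LL N (⌊T⌋₊ + 1)))
    (by positivity) (by positivity) (by
      refine h.trans ?_
      have := hoff
      nlinarith)
  rw [mul_pow, mul_pow, Real.sq_sqrt (Nat.cast_nonneg _), Real.sq_sqrt (by positivity)] at hfin
  calc X4 N S c ≤ _ := hfin
    _ = _ := by ring

/-- the number of pairs of differences in the same interval -/
noncomputable def R2 (S : Finset ℝ) : ℕ :=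
  ((S.offDiag ×ˢ S.offDiag).filter fun q => ⌊|q.1.1 - q.1.2|⌋₊ = ⌊|q.2.1 - q.2.2|⌋₊).card

theorem R2_eq (S : Finset ℝ) (N0 : ℕ) (h : ∀ p ∈ S.offDiag, ⌊|p.1 - p.2|⌋₊ < N0) :
    ∑ m ∈ range N0, (((S.offDiag.filter fun p => ⌊|p.1 - p.2|⌋₊ = m).card : ℕ) : ℝ) ^ 2 = R2 S := by
  classical
  have h1 : R2 S = ∑ m ∈ range N0,
      (S.offDiag.filter fun p => ⌊|p.1 - p.2|⌋₊ = m).card ^ 2 := by
    unfold R2
    rw [card_eq_sum_card_fiberwise (f := fun q : (ℝ × ℝ) × (ℝ × ℝ) => ⌊|q.1.1 - q.1.2|⌋₊)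
      (t := range N0)]
    · refine sum_congr rfl fun m _ => ?_
      rw [sq, ← card_product]
      congr 1
      ext q
      simp only [mem_filter, mem_product]
      constructor
      · rintro ⟨⟨⟨a1, a2⟩, a3⟩, a4⟩
        exact ⟨⟨a1, a4⟩, a2, by rw [← a3, a4]⟩
      · rintro ⟨⟨a1, a4⟩, a2, a3⟩
        exact ⟨⟨⟨a1, a2⟩, by rw [a4, a3]⟩, a4⟩
    · intro q hq
      have hq' := mem_filter.1 (mem_coe.1 hq)
      rw [mem_product] at hq'
      exact mem_coe.2 (mem_range.2 (h _ hq'.1.1))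
  rw [h1]
  push_cast
  rfl

/-- bounded coefficients -/
theorem X4_energy (N : ℕ) (T : ℝ) (S : Finset ℝ) (hS : ∀ t ∈ S, 0 ≤ t ∧ t ≤ T) (c : ℝ → ℂ)
    (hc : ∀ t, ‖c t‖ ≤ 1) :
    X4 N S c ≤ 2 * ((S.card : ℝ) ^ 2 * N + R2 S * LL N (⌊T⌋₊ + 1)) := by
  classical
  have hmap : ∀ p ∈ S.offDiag, ⌊|p.1 - p.2|⌋₊ < ⌊T⌋₊ + 1 := by
    intro p hp
    rw [mem_offDiag] at hp
    have h1 := hS _ hp.1
    have h2 := hS _ hp.2.1
    have h3 : |p.1 - p.2| ≤ T := by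
      rw [abs_le]
      constructor <;> linarith
    have := Nat.floor_le_floor h3
    omega
  obtain ⟨Y, hY0, hY1, hY2⟩ := exists_maj S.offDiag (fun p => |p.1 - p.2|) N (⌊T⌋₊ + 1)
    (fun n => ((‖Fs S c n‖ ^ 2 : ℝ) : ℂ)) (fun p _ => abs_nonneg _) hmap
  rw [sq_sum] at hY2
  have h := X4_le N S c
  have hL := LL_nonneg N (⌊T⌋₊ + 1)
  have hX := X4_nonneg N S c
  have hoff : ∑ p ∈ S.offDiag, ‖c p.1‖ * ‖c p.2‖ *
      ‖Dp N (fun n => ((‖Fs S c n‖ ^ 2 : ℝ) : ℂ)) |p.1 - p.2|‖ ≤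
      Real.sqrt (R2 S * LL N (⌊T⌋₊ + 1)) * Real.sqrt (X4 N S c) := by
    calc ∑ p ∈ S.offDiag, ‖c p.1‖ * ‖c p.2‖ *
          ‖Dp N (fun n => ((‖Fs S c n‖ ^ 2 : ℝ) : ℂ)) |p.1 - p.2|‖
        ≤ ∑ p ∈ S.offDiag, Y ⌊|p.1 - p.2|⌋₊ := by
          apply sum_le_sum
          intro p hp
          have h1 := hY1 p hp
          have h2 : ‖c p.1‖ * ‖c p.2‖ ≤ 1 := mul_le_one₀ (hc _) (norm_nonneg _) (hc _)
          calc _ ≤ 1 * ‖Dp N (fun n => ((‖Fs S c n‖ ^ 2 : ℝ) : ℂ)) |p.1 - p.2|‖ :=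
                mul_le_mul_of_nonneg_right h2 (norm_nonneg _)
            _ ≤ _ := by rw [one_mul]; exact h1
      _ = ∑ m ∈ range (⌊T⌋₊ + 1),
          (((S.offDiag.filter fun p => ⌊|p.1 - p.2|⌋₊ = m).card : ℕ) : ℝ) * Y m := by
          rw [← sum_fiberwise_of_maps_to (fun p hp => mem_range.2 (hmap p hp))]
          refine sum_congr rfl fun m _ => ?_
          rw [← nsmul_eq_mul, ← sum_const]
          refine sum_congr rfl fun p hp => ?_
          rw [(mem_filter.1 hp).2]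
      _ ≤ Real.sqrt (∑ m ∈ range (⌊T⌋₊ + 1),
          (((S.offDiag.filter fun p => ⌊|p.1 - p.2|⌋₊ = m).card : ℕ) : ℝ) ^ 2) *
          Real.sqrt (∑ m ∈ range (⌊T⌋₊ + 1), Y m ^ 2) := Real.sum_mul_le_sqrt_mul_sqrt _ _ _
      _ ≤ Real.sqrt (R2 S) * Real.sqrt (LL N (⌊T⌋₊ + 1) * X4 N S c) := by
          rw [R2_eq S _ hmap]
          exact mul_le_mul_of_nonneg_left (Real.sqrt_le_sqrt hY2) (Real.sqrt_nonneg _)
      _ = _ := by
          rw [Real.sqrt_mul hL, Real.sqrt_mul (Nat.cast_nonneg _)]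
          ring
  have hG : ∑ t ∈ S, ‖c t‖ ^ 2 ≤ S.card := by
    calc ∑ t ∈ S, ‖c t‖ ^ 2 ≤ ∑ t ∈ S, (1 : ℝ) := by
          apply sum_le_sum
          intro t _
          have := hc t
          have h0 := norm_nonneg (c t)
          nlinarith
      _ = S.card := by simp
  have hfin := close hX (A := S.card * Real.sqrt N) (B := Real.sqrt (R2 S * LL N (⌊T⌋₊ + 1)))
    (by positivity) (by positivity) (by
      refine h.trans ?_
      have h3 : (∑ t ∈ S, ‖c t‖ ^ 2) * (Real.sqrt N * Real.sqrt (X4 N S c)) ≤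
        S.card * (Real.sqrt N * Real.sqrt (X4 N S c)) :=
        mul_le_mul_of_nonneg_right hG (by positivity)
      nlinarith)
  rw [mul_pow, Real.sq_sqrt (Nat.cast_nonneg _), Real.sq_sqrt (by positivity)] at hfin
  exact hfin

end Pool.Agent.Q201.ML.Sid
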