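import Mathlib
import Pool.Agent.Q201.ML.Sid
import Pool.Agent.H510R2.Div

set_option autoImplicit false

/-!
# Sidon-type sets: duality, constants, the squares
-/

namespace Pool.Agent.Q201.ML.Sid

open Complex Finset

/-- the `4/3`-norm -/
noncomputable def B43 (N : ℕ) (a : ℕ → ℂ) : ℝ := ∑ n ∈ Icc 1 N, ‖a n‖ ^ ((4 : ℝ) / 3)

theorem B43_nonneg (N : ℕ) (a : ℕ → ℂ) : 0 ≤ B43 N a :=
  sum_nonneg fun _ _ => by positivity

theorem dual (N : ℕ) (S : Finset ℝ) (c : ℝ → ℂ) (a : ℕ → ℂ) :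
    ‖∑ t ∈ S, c t * Dp N a t‖ ^ 4 ≤ B43 N a ^ 3 * X4 N S c := by
  have h1 : ∑ t ∈ S, c t * Dp N a t = ∑ n ∈ Icc 1 N, a n * Fs S c n := by
    unfold Dp Fs
    simp only [mul_sum]
    rw [sum_comm]
    refine sum_congr rfl fun n _ => sum_congr rfl fun t _ => ?_
    ring
  have h2 : ‖∑ t ∈ S, c t * Dp N a t‖ ≤ ∑ n ∈ Icc 1 N, ‖a n‖ * ‖Fs S c n‖ := by
    rw [h1]
    refine (norm_sum_le _ _).trans (sum_le_sum fun n _ => ?_)
    rw [norm_mul]
  have hpq : (4 / 3 : ℝ).HolderConjugate 4 := by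
    rw [Real.holderConjugate_iff]
    norm_num
  have h3 := Real.inner_le_Lp_mul_Lq_of_nonneg (Icc 1 N) hpq (f := fun n => ‖a n‖)
    (g := fun n => ‖Fs S c n‖) (fun _ _ => norm_nonneg _) (fun _ _ => norm_nonneg _)
  have h4 : ∑ n ∈ Icc 1 N, ‖Fs S c n‖ ^ (4 : ℝ) = X4 N S c := by
    unfold X4
    refine sum_congr rfl fun n _ => ?_
    exact_mod_cast Real.rpow_natCast _ 4
  rw [h4] at h3
  have hB := B43_nonneg N a
  have hX := X4_nonneg N S c
  calc ‖∑ t ∈ S, c t * Dp N a t‖ ^ 4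
      ≤ (B43 N a ^ (1 / (4 / 3 : ℝ)) * X4 N S c ^ (1 / (4 : ℝ))) ^ 4 := by
        gcongr
        exact h2.trans h3
    _ = B43 N a ^ 3 * X4 N S c := by
        rw [mul_pow, ← Real.rpow_natCast (B43 N a ^ (1 / (4 / 3 : ℝ))) 4, ← Real.rpow_mul hB,
          ← Real.rpow_natCast (X4 N S c ^ (1 / (4 : ℝ))) 4, ← Real.rpow_mul hX]
        norm_num

theorem sq_of_four {Y A : ℝ} (hY : 0 ≤ Y) (hA : 0 ≤ A) (h : Y ^ 4 ≤ A * Y ^ 2) : Y ^ 2 ≤ A := by
  rcases hY.eq_or_lt with h0 | h0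
  · rw [← h0]
    simpa using hA
  · have : 0 < Y ^ 2 := by positivity
    by_contra hcon
    push Not at hcon
    nlinarith

/-- mean squares of Dirichlet polynomials on sets with few coinciding differences -/
theorem mean_mult (N : ℕ) (T : ℝ) (S : Finset ℝ) (hS : ∀ t ∈ S, 0 ≤ t ∧ t ≤ T) (K : ℕ)
    (hK : ∀ m : ℕ, (S.offDiag.filter fun p => ⌊|p.1 - p.2|⌋₊ = m).card ≤ K) (a : ℕ → ℂ) :
    (∑ t ∈ S, ‖Dp N a t‖ ^ 2) ^ 2 ≤
      2 * (N + K * LL N (⌊T⌋₊ + 1)) * B43 N a ^ 3 := by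
  have h1 := dual N S (fun t => (starRingEnd ℂ) (Dp N a t)) a
  have h2 := X4_mult N T S hS K hK (fun t => (starRingEnd ℂ) (Dp N a t))
  have e1 : ∑ t ∈ S, (starRingEnd ℂ) (Dp N a t) * Dp N a t =
      ((∑ t ∈ S, ‖Dp N a t‖ ^ 2 : ℝ) : ℂ) := by
    rw [Complex.ofReal_sum]
    refine sum_congr rfl fun t _ => ?_
    rw [sq_norm, mul_comm]
  have e2 : ∑ t ∈ S, ‖(starRingEnd ℂ) (Dp N a t)‖ ^ 2 = ∑ t ∈ S, ‖Dp N a t‖ ^ 2 := by
    refine sum_congr rfl fun t _ => ?_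
    rw [RCLike.norm_conj]
  rw [e1, Complex.norm_real] at h1
  rw [e2] at h2
  set Y := ∑ t ∈ S, ‖Dp N a t‖ ^ 2 with hY
  have hY0 : 0 ≤ Y := sum_nonneg fun _ _ => by positivity
  rw [Real.norm_of_nonneg hY0] at h1
  have hB := B43_nonneg N a
  have hL := LL_nonneg N (⌊T⌋₊ + 1)
  apply sq_of_four hY0 (by positivity)
  calc Y ^ 4 ≤ B43 N a ^ 3 * X4 N S _ := h1
    _ ≤ B43 N a ^ 3 * (2 * Y ^ 2 * (N + K * LL N (⌊T⌋₊ + 1))) := by gcongr
    _ = _ := by ring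

/-- sums of large values on sets of small energy -/
theorem mean_energy (N : ℕ) (T : ℝ) (S : Finset ℝ) (hS : ∀ t ∈ S, 0 ≤ t ∧ t ≤ T) (a : ℕ → ℂ) :
    (∑ t ∈ S, ‖Dp N a t‖) ^ 4 ≤
      2 * ((S.card : ℝ) ^ 2 * N + R2 S * LL N (⌊T⌋₊ + 1)) * B43 N a ^ 3 := by
  set c : ℝ → ℂ := fun t => (starRingEnd ℂ) (Dp N a t) / ‖Dp N a t‖ with hc
  have h1 := dual N S c a
  have h2 := X4_energy N T S hS c (by
    intro t
    rw [hc]
    dsimp only
    rw [norm_div, RCLike.norm_conj, Complex.norm_real, norm_norm]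
    exact div_self_le_one _)
  have e1 : ∑ t ∈ S, c t * Dp N a t = ((∑ t ∈ S, ‖Dp N a t‖ : ℝ) : ℂ) := by
    rw [Complex.ofReal_sum]
    refine sum_congr rfl fun t _ => ?_
    rw [hc]
    dsimp only
    rcases eq_or_ne (Dp N a t) 0 with h0 | h0
    · rw [h0]
      simp
    · have hn : ((‖Dp N a t‖ : ℝ) : ℂ) ≠ 0 := by
        rw [Ne, Complex.ofReal_eq_zero]
        exact norm_ne_zero_iff.2 h0
      rw [div_mul_eq_mul_div, div_eq_iff hn, mul_comm, ← sq_norm]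
      push_cast
      ring
  rw [e1, Complex.norm_real, Real.norm_of_nonneg (sum_nonneg fun _ _ => norm_nonneg _)] at h1
  have hB := B43_nonneg N a
  calc (∑ t ∈ S, ‖Dp N a t‖) ^ 4 ≤ B43 N a ^ 3 * X4 N S c := h1
    _ ≤ B43 N a ^ 3 * (2 * ((S.card : ℝ) ^ 2 * N + R2 S * LL N (⌊T⌋₊ + 1))) := by gcongr
    _ = _ := by ring

theorem LL_le (ε : ℝ) (hε : 0 < ε) : ∃ C : ℝ, 1 ≤ C ∧ ∀ (N : ℕ) (T : ℝ), 1 ≤ N → 1 ≤ T →
    LL N (⌊T⌋₊ + 1) ≤ C * (N : ℝ) ^ ε * (N + T) := by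
  set δ := ε / 3 with hδ
  have hδ0 : 0 < δ := by positivity
  refine ⟨(2 + 1 / δ ^ 2) * (8 + 8 / δ), ?_, ?_⟩
  · have h1 : 0 ≤ 1 / δ ^ 2 := by positivity
    have h2 : 0 ≤ 8 / δ := by positivity
    nlinarith
  intro N T hN hT
  have hN' : (1 : ℝ) ≤ N := by exact_mod_cast hN
  have h0 : 0 ≤ Real.log N := Real.log_nonneg hN'
  have h1 : Real.log N ≤ (N : ℝ) ^ δ / δ := Real.log_le_rpow_div (by linarith) hδ0
  have h2 : 1 ≤ (N : ℝ) ^ δ := Real.one_le_rpow hN' hδ0.le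
  set x := (N : ℝ) ^ δ with hx
  have hx3 : (N : ℝ) ^ ε = x ^ 3 := by
    rw [hx, ← Real.rpow_natCast, ← Real.rpow_mul (by linarith)]
    congr 1
    rw [hδ]
    push_cast
    ring
  have h3 : 2 + Real.log N ^ 2 ≤ (2 + 1 / δ ^ 2) * x ^ 2 := by
    have : Real.log N ^ 2 ≤ (x / δ) ^ 2 := by gcongr
    have h4 : (x / δ) ^ 2 = 1 / δ ^ 2 * x ^ 2 := by
      field_simp
    nlinarith
  have hfl : ((⌊T⌋₊ + 1 : ℕ) : ℝ) ≤ 2 * T := by
    push_cast
    have := Nat.floor_le (by linarith : (0 : ℝ) ≤ T)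
    linarith
  have h5 : ((⌊T⌋₊ + 1 : ℕ) : ℝ) + 8 * N * (1 + Real.log N) ≤ (8 + 8 / δ) * x * (N + T) := by
    have h6 : 1 + Real.log N ≤ (1 + 1 / δ) * x := by
      have : x / δ = 1 / δ * x := by ring
      nlinarith
    have h7 : 8 * N * (1 + Real.log N) ≤ 8 * N * ((1 + 1 / δ) * x) := by gcongr
    have h8 : 0 ≤ 1 / δ := by positivity
    have h9 : 8 / δ = 8 * (1 / δ) := by ring
    have h10 : 0 ≤ x * T := by positivity
    have h11 : T ≤ x * T := by nlinarith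
    have h12 : 0 ≤ 1 / δ * (x * T) := by positivity
    rw [h9]
    nlinarith
  unfold LL
  rw [hx3]
  calc (2 + Real.log N ^ 2) * (((⌊T⌋₊ + 1 : ℕ) : ℝ) + 8 * N * (1 + Real.log N))
      ≤ ((2 + 1 / δ ^ 2) * x ^ 2) * ((8 + 8 / δ) * x * (N + T)) := by
        gcongr
    _ = _ := by ring

/-- The number of quadruples `(a, b, c, d)` of elements of `S` with `|a - b + c - d| ≤ 1`. -/
noncomputable def energy (S : Finset ℝ) : ℕ :=
  ((S ×ˢ S ×ˢ S ×ˢ S).filter fun q => |q.1 - q.2.1 + q.2.2.1 - q.2.2.2| ≤ 1).card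

theorem sq_card_le_energy (S : Finset ℝ) : S.card ^ 2 ≤ energy S := by
  classical
  rw [sq, ← card_product]
  unfold energy
  apply card_le_card_of_injOn (fun q : ℝ × ℝ => (q.1, q.2, q.2, q.1))
  · intro q hq
    have hq' := mem_product.1 (mem_coe.1 hq)
    simp only [coe_filter, mem_product, Set.mem_ofPred_eq]
    refine ⟨⟨hq'.1, hq'.2, hq'.2, hq'.1⟩, ?_⟩
    rw [show q.1 - q.2 + q.2 - q.1 = 0 by ring, abs_zero]
    norm_num
  · intro q _ r _ h
    simp only [Prod.mk.injEq] at h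
    ext
    · exact h.1
    · exact h.2.1

theorem R2_le_energy (S : Finset ℝ) : R2 S ≤ 2 * energy S := by
  classical
  have hab : ∀ q : (ℝ × ℝ) × (ℝ × ℝ), ⌊|q.1.1 - q.1.2|⌋₊ = ⌊|q.2.1 - q.2.2|⌋₊ →
      |q.1.1 - q.1.2 + q.2.2 - q.2.1| ≤ 1 ∨ |q.1.1 - q.1.2 + q.2.1 - q.2.2| ≤ 1 := by
    intro q h
    have l1 := Nat.floor_le (abs_nonneg (q.1.1 - q.1.2))
    have l2 := Nat.lt_floor_add_one |q.1.1 - q.1.2|
    have l3 := Nat.floor_le (abs_nonneg (q.2.1 - q.2.2))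
    have l4 := Nat.lt_floor_add_one |q.2.1 - q.2.2|
    rw [h] at l1 l2
    rcases abs_cases (q.1.1 - q.1.2) with ⟨h1, -⟩ | ⟨h1, -⟩ <;>
      rcases abs_cases (q.2.1 - q.2.2) with ⟨h2, -⟩ | ⟨h2, -⟩
    · left
      rw [abs_le]
      constructor <;> linarith
    · right
      rw [abs_le]
      constructor <;> linarith
    · right
      rw [abs_le]
      constructor <;> linarith
    · left
      rw [abs_le]
      constructor <;> linarith
  set A1 := (S.offDiag ×ˢ S.offDiag).filter fun q : (ℝ × ℝ) × (ℝ × ℝ) =>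
    |q.1.1 - q.1.2 + q.2.2 - q.2.1| ≤ 1 with hA1
  set A2 := (S.offDiag ×ˢ S.offDiag).filter fun q : (ℝ × ℝ) × (ℝ × ℝ) =>
    |q.1.1 - q.1.2 + q.2.1 - q.2.2| ≤ 1 with hA2
  have h1 : A1.card ≤ energy S := by
    unfold energy
    apply card_le_card_of_injOn (fun q : (ℝ × ℝ) × (ℝ × ℝ) => (q.1.1, q.1.2, q.2.2, q.2.1))
    · intro q hq
      have hq' := mem_filter.1 (mem_coe.1 hq)
      rw [mem_product, mem_offDiag, mem_offDiag] at hq'
      simp only [coe_filter, mem_product, Set.mem_ofPred_eq]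
      exact ⟨⟨hq'.1.1.1, hq'.1.1.2.1, hq'.1.2.2.1, hq'.1.2.1⟩, hq'.2⟩
    · intro q _ r _ h
      simp only [Prod.mk.injEq] at h
      obtain ⟨h1, h2, h3, h4⟩ := h
      ext <;> assumption
  have h2 : A2.card ≤ energy S := by
    unfold energy
    apply card_le_card_of_injOn (fun q : (ℝ × ℝ) × (ℝ × ℝ) => (q.1.1, q.1.2, q.2.1, q.2.2))
    · intro q hq
      have hq' := mem_filter.1 (mem_coe.1 hq)
      rw [mem_product, mem_offDiag, mem_offDiag] at hq'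
      simp only [coe_filter, mem_product, Set.mem_ofPred_eq]
      exact ⟨⟨hq'.1.1.1, hq'.1.1.2.1, hq'.1.2.1, hq'.1.2.2.1⟩, hq'.2⟩
    · intro q _ r _ h
      simp only [Prod.mk.injEq] at h
      obtain ⟨h1, h2, h3, h4⟩ := h
      ext <;> assumption
  have h3 : R2 S ≤ (A1 ∪ A2).card := by
    unfold R2
    apply card_le_card
    intro q hq
    rw [mem_filter] at hq
    rw [mem_union, hA1, hA2, mem_filter, mem_filter]
    rcases hab q hq.2 with h | h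
    · exact Or.inl ⟨hq.1, h⟩
    · exact Or.inr ⟨hq.1, h⟩
  have h4 := card_union_le A1 A2
  omega

/-- two-sided multiplicities -/
theorem mult_two (S : Finset ℝ) (hsep : ∀ t ∈ S, ∀ u ∈ S, t ≠ u → 1 ≤ |t - u|) (K : ℕ)
    (hK : ∀ m : ℕ, 1 ≤ m → ((S ×ˢ S).filter fun p : ℝ × ℝ => (m : ℝ) ≤ p.1 - p.2 ∧
      p.1 - p.2 < (m : ℝ) + 1).card ≤ K) (m : ℕ) :
    (S.offDiag.filter fun p => ⌊|p.1 - p.2|⌋₊ = m).card ≤ 2 * K := by
  classical
  rcases Nat.eq_zero_or_pos m with rfl | hm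
  · have : (S.offDiag.filter fun p => ⌊|p.1 - p.2|⌋₊ = 0) = ∅ := by
      rw [filter_eq_empty_iff]
      intro p hp h0
      rw [mem_offDiag] at hp
      have h1 := hsep _ hp.1 _ hp.2.1 hp.2.2
      rw [Nat.floor_eq_zero] at h0
      linarith
    rw [this]
    simp
  · set A := (S ×ˢ S).filter fun p : ℝ × ℝ => (m : ℝ) ≤ p.1 - p.2 ∧
      p.1 - p.2 < (m : ℝ) + 1 with hA
    have h1 : (S.offDiag.filter fun p => ⌊|p.1 - p.2|⌋₊ = m) ⊆ A ∪ A.image Prod.swap := by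
      intro p hp
      rw [mem_filter, mem_offDiag] at hp
      obtain ⟨⟨hp1, hp2, hp3⟩, hp4⟩ := hp
      have l1 := Nat.floor_le (abs_nonneg (p.1 - p.2))
      have l2 := Nat.lt_floor_add_one |p.1 - p.2|
      rw [hp4] at l1 l2
      rw [mem_union, mem_image]
      rcases abs_cases (p.1 - p.2) with ⟨h, -⟩ | ⟨h, -⟩
      · left
        rw [hA, mem_filter, mem_product]
        rw [h] at l1 l2
        exact ⟨⟨hp1, hp2⟩, l1, l2⟩
      · right
        refine ⟨p.swap, ?_, Prod.swap_swap p⟩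
        rw [hA, mem_filter, mem_product]
        rw [h] at l1 l2
        refine ⟨⟨hp2, hp1⟩, ?_, ?_⟩
        · simp only [Prod.fst_swap, Prod.snd_swap]; linarith
        · simp only [Prod.fst_swap, Prod.snd_swap]; linarith
    calc _ ≤ (A ∪ A.image Prod.swap).card := card_le_card h1
      _ ≤ A.card + (A.image Prod.swap).card := card_union_le _ _
      _ ≤ A.card + A.card := Nat.add_le_add_left card_image_le _
      _ ≤ 2 * K := by
          have h9 : A.card ≤ K := by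
            have := hK m hm
            convert this
          omega

/-- the squares -/
noncomputable def sqs (M : ℕ) : Finset ℝ := (Icc 1 M).image fun m : ℕ => ((m ^ 2 : ℕ) : ℝ)

theorem sqs_inj : Function.Injective fun m : ℕ => ((m ^ 2 : ℕ) : ℝ) := by
  intro m n h
  have h1 : m ^ 2 = n ^ 2 := by
    dsimp only at h
    exact_mod_cast h
  exact (Nat.pow_left_injective (by norm_num : (2 : ℕ) ≠ 0)) h1

theorem sqs_sep (M : ℕ) : ∀ t ∈ sqs M, ∀ u ∈ sqs M, t ≠ u → 1 ≤ |t - u| := by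
  intro t ht u hu htu
  obtain ⟨m, _, rfl⟩ := mem_image.1 ht
  obtain ⟨n, _, rfl⟩ := mem_image.1 hu
  have h1 : ((m ^ 2 : ℕ) : ℤ) ≠ ((n ^ 2 : ℕ) : ℤ) := by
    intro h
    apply htu
    exact_mod_cast h
  have h2 : (1 : ℤ) ≤ |((m ^ 2 : ℕ) : ℤ) - ((n ^ 2 : ℕ) : ℤ)| :=
    Int.one_le_abs (sub_ne_zero.2 h1)
  have h3 : ((1 : ℤ) : ℝ) ≤ ((|((m ^ 2 : ℕ) : ℤ) - ((n ^ 2 : ℕ) : ℤ)| : ℤ) : ℝ) := by
    exact_mod_cast h2
  rw [Int.cast_abs] at h3
  push_cast at h3 ⊢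
  exact h3

theorem sqs_mult (M k : ℕ) (hk : 1 ≤ k) : ((sqs M ×ˢ sqs M).filter fun p : ℝ × ℝ =>
    (k : ℝ) ≤ p.1 - p.2 ∧ p.1 - p.2 < (k : ℝ) + 1).card ≤ k.divisors.card := by
  classical
  set A := ((Icc 1 M) ×ˢ (Icc 1 M)).filter fun p : ℕ × ℕ => p.1 ^ 2 = p.2 ^ 2 + k with hA
  have h1 : ((sqs M ×ˢ sqs M).filter fun p : ℝ × ℝ =>
      (k : ℝ) ≤ p.1 - p.2 ∧ p.1 - p.2 < (k : ℝ) + 1) ⊆
      A.image fun p : ℕ × ℕ => (((p.1 ^ 2 : ℕ) : ℝ), ((p.2 ^ 2 : ℕ) : ℝ)) := by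
    intro p hp
    rw [mem_filter, mem_product] at hp
    obtain ⟨⟨hp1, hp2⟩, hp3, hp4⟩ := hp
    obtain ⟨m, hm, hm'⟩ := mem_image.1 hp1
    obtain ⟨n, hn, hn'⟩ := mem_image.1 hp2
    rw [mem_image]
    refine ⟨(m, n), ?_, Prod.ext hm' hn'⟩
    rw [hA, mem_filter, mem_product]
    refine ⟨⟨hm, hn⟩, ?_⟩
    dsimp only at hm' hn' ⊢
    rw [← hm', ← hn'] at hp3 hp4
    have h3 : n ^ 2 + k ≤ m ^ 2 := by
      have : ((n ^ 2 + k : ℕ) : ℝ) ≤ ((m ^ 2 : ℕ) : ℝ) := by push_cast at hp3 ⊢; linarith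
      exact_mod_cast this
    have h4 : m ^ 2 < n ^ 2 + k + 1 := by
      have : ((m ^ 2 : ℕ) : ℝ) < ((n ^ 2 + k + 1 : ℕ) : ℝ) := by push_cast at hp4 ⊢; linarith
      exact_mod_cast this
    omega
  calc _ ≤ (A.image _).card := card_le_card h1
    _ ≤ A.card := card_image_le
    _ ≤ k.divisors.card := by
        apply card_le_card_of_injOn (fun p : ℕ × ℕ => p.1 - p.2)
        · intro p hp
          have hp' := mem_filter.1 (mem_coe.1 hp)
          have h5 := hp'.2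
          have hle : p.2 ≤ p.1 := by
            by_contra hcon
            push Not at hcon
            have : p.1 ^ 2 < p.2 ^ 2 := Nat.pow_lt_pow_left hcon (by norm_num)
            omega
          simp only [mem_coe, Nat.mem_divisors]
          refine ⟨⟨p.1 + p.2, ?_⟩, by omega⟩
          obtain ⟨d, hd⟩ := Nat.exists_eq_add_of_le hle
          rw [hd] at h5 ⊢
          have : p.2 + d - p.2 = d := by omega
          rw [this]
          nlinarith
        · intro p hp q hq h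
          have hp' := (mem_filter.1 (mem_coe.1 hp)).2
          have hq' := (mem_filter.1 (mem_coe.1 hq)).2
          have hle : ∀ p : ℕ × ℕ, p.1 ^ 2 = p.2 ^ 2 + k → p.2 ≤ p.1 := by
            intro p h5
            by_contra hcon
            push Not at hcon
            have : p.1 ^ 2 < p.2 ^ 2 := Nat.pow_lt_pow_left hcon (by norm_num)
            omega
          obtain ⟨d, hd⟩ := Nat.exists_eq_add_of_le (hle p hp')
          obtain ⟨e, he⟩ := Nat.exists_eq_add_of_le (hle q hq')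
          dsimp only at h
          have hde : d = e := by omega
          subst hde
          rw [hd] at hp'
          rw [he] at hq'
          have hd0 : 0 < d := by
            rcases Nat.eq_zero_or_pos d with h0 | h0
            · rw [h0] at hp'
              simp at hp'
              omega
            · exact h0
          have h6 : d * (2 * p.2 + d) = k := by nlinarith
          have h7 : d * (2 * q.2 + d) = k := by nlinarith
          have h8 : 2 * p.2 + d = 2 * q.2 + d := Nat.eq_of_mul_eq_mul_left hd0 (h6.trans h7.symm)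
          ext
          · omega
          · omega

end Pool.Agent.Q201.ML.Sid
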