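import Pool.Agent.W347.EH.KT
import Pool.Agent.W903.EH.BK

set_option autoImplicit false

/-!
# The k-th derivative test for the sums of `n ^ (-it)`
-/

namespace Pool.Agent.Q201.ML

open Complex Finset
open Pool.Agent.Helper153.Vdc (ee dd Cond)
open Pool.Agent.H442R2.EHI (EL EL_bounds SL SL_le)
open Pool.Agent.W186.EH (VB S_KT)
open Pool.Agent.W903.EH (cond_log sum_rev VB_scale ee_eq)

/-- part of a dyadic block of the zeta sum -/
noncomputable def blk (t : ℝ) (J m : ℕ) : ℂ :=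
  ∑ n ∈ range m, ee (-(t / (2 * Real.pi)) * Real.log ((J : ℝ) + 1 + n))

theorem blk_kt (k : ℕ) (hk : 2 ≤ k) (ε : ℝ) (hε : 0 < ε) : ∃ C : ℝ, 1 ≤ C ∧
    ∀ (t : ℝ) (J m : ℕ), 0 < t → 1 ≤ J → m ≤ J →
      ‖blk t J m‖ ≤ C * (J : ℝ) ^ ε * VB k J (t / (J : ℝ) ^ k) := by
  obtain ⟨C, hC, hC1⟩ := Pool.Agent.W347.EH.kt k hk (3 ^ k) (one_le_pow₀ (by norm_num)) ε hε
  set c : ℝ := (k - 1).factorial / (2 * Real.pi * 3 ^ k) with hc
  have hc0 : 0 < c := by
    have := Real.pi_pos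
    rw [hc]
    positivity
  set D : ℝ := c ^ (1 / ((2 : ℝ) ^ k - 2)) + c ^ (-(1 / ((2 : ℝ) ^ k - 2))) with hD
  have hD0 : 0 < D := by rw [hD]; positivity
  refine ⟨C * (D + 1), by nlinarith, ?_⟩
  intro t J m ht0 hJ hm
  have hpi := Real.pi_pos
  have hJ' : (1 : ℝ) ≤ J := by exact_mod_cast hJ
  have hJ0 : (0 : ℝ) < J := by linarith
  set Z : ℝ := t / (2 * Real.pi) with hZ
  have hZ0 : 0 < Z := by rw [hZ]; positivity
  have hlam : Z * ((k - 1).factorial / (3 * (J : ℝ)) ^ k) = c * (t / (J : ℝ) ^ k) := by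
    rw [hZ, hc, mul_pow]
    field_simp
  have hx0 : 0 < t / (J : ℝ) ^ k := by positivity
  unfold blk
  rw [← hZ, sum_rev Z J m]
  have h1 := hC1 J m (fun n : ℕ => -Z * Real.log ((J : ℝ) + m - n))
    (Z * ((k - 1).factorial / (3 * (J : ℝ)) ^ k)) hJ hm (by positivity)
    (cond_log (by omega) hZ0 hJ hm)
  refine h1.trans ?_
  rw [hlam]
  have h2 := VB_scale (k := k) (N := (J : ℝ)) hc0 hJ0 hx0
  have hv0 : 0 ≤ VB k J (t / (J : ℝ) ^ k) := by
    unfold VB
    positivity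
  have hJe : 0 ≤ (J : ℝ) ^ ε := by positivity
  calc C * (J : ℝ) ^ ε * VB k J (c * (t / (J : ℝ) ^ k))
      ≤ C * (J : ℝ) ^ ε * (D * VB k J (t / (J : ℝ) ^ k)) := by gcongr
    _ ≤ C * (J : ℝ) ^ ε * ((D + 1) * VB k J (t / (J : ℝ) ^ k)) := by gcongr; linarith
    _ = _ := by ring

theorem blk_one {t : ℝ} {J m : ℕ} (ht0 : 0 < t) (hJ : 1 ≤ J) (hm : m ≤ J) (hJt : t ≤ J) :
    ‖blk t J m‖ ≤ 12 * Real.pi * J / t := by
  have hpi := Real.pi_pos
  have hJ' : (1 : ℝ) ≤ J := by exact_mod_cast hJ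
  have hJ0 : (0 : ℝ) < J := by linarith
  set Z : ℝ := t / (2 * Real.pi) with hZ
  have hZ0 : 0 < Z := by rw [hZ]; positivity
  have hm' : (m : ℝ) ≤ J := by exact_mod_cast hm
  have h1 := SL_le Z hZ0 J ((J : ℝ) + 1) m hJ (by linarith) (by linarith) [] (by simp) (by
    simp only [List.length_nil, zero_add, Nat.factorial_zero, Nat.cast_one, List.prod_nil,
      mul_one, pow_one]
    rw [hZ]
    have h3 : 3 < Real.pi := Real.pi_gt_three
    have e1 : 2 * (t / (2 * Real.pi) * (1 / (J : ℝ))) = t / (Real.pi * J) := by field_simp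
    rw [e1, div_le_one (by positivity)]
    nlinarith)
  have e2 : ‖blk t J m‖ = ‖SL Z ((J : ℝ) + 1) m []‖ := by
    unfold SL blk
    rw [← Pool.Agent.H469R2.NK.norm_sum_neg]
    simp only [List.sum_nil, Nat.sub_zero, EL]
    congr 1
    refine sum_congr rfl fun n _ => ?_
    rw [ee_eq, ← hZ]
    congr 1
    ring
  rw [e2]
  refine h1.trans (le_of_eq ?_)
  simp only [List.length_nil, zero_add, Nat.factorial_zero, Nat.cast_one, List.prod_nil,
      mul_one, pow_one]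
  rw [hZ]
  field_simp
  ring

/-- the exponent of the length -/
noncomputable def ea (k : ℕ) : ℝ := 1 - k / ((2 : ℝ) ^ k - 2)

/-- the exponent of the height -/
noncomputable def eb (k : ℕ) : ℝ := 1 / ((2 : ℝ) ^ k - 2)

theorem two_pow_gt {k : ℕ} (hk : 2 ≤ k) : (2 : ℝ) < (2 : ℝ) ^ k := by
  calc (2 : ℝ) < 2 ^ 2 := by norm_num
    _ ≤ 2 ^ k := pow_le_pow_right₀ (by norm_num) hk

theorem eb_pos {k : ℕ} (hk : 2 ≤ k) : 0 < eb k := by
  unfold eb
  have := two_pow_gt hk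
  have h : 0 < (2 : ℝ) ^ k - 2 := by linarith
  positivity

theorem two_mul_le_pow {k : ℕ} (hk : 2 ≤ k) : (k : ℝ) ≤ (2 : ℝ) ^ k - 2 := by
  induction k, hk using Nat.le_induction with
  | base => norm_num
  | succ k hk ih =>
    have hk' : (2 : ℝ) ≤ k := by exact_mod_cast hk
    push_cast
    rw [pow_succ]
    linarith

theorem ea_nonneg {k : ℕ} (hk : 2 ≤ k) : 0 ≤ ea k := by
  unfold ea
  have := two_pow_gt hk
  have h : 0 < (2 : ℝ) ^ k - 2 := by linarith
  have h2 : (k : ℝ) / ((2 : ℝ) ^ k - 2) ≤ 1 := by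
    rw [div_le_one h]
    exact two_mul_le_pow hk
  linarith

theorem ea_le {k : ℕ} (hk : 2 ≤ k) : ea k ≤ 1 := by
  unfold ea
  have := two_pow_gt hk
  have h : 0 < (2 : ℝ) ^ k - 2 := by linarith
  have h2 : 0 ≤ (k : ℝ) / ((2 : ℝ) ^ k - 2) := by positivity
  linarith

/-- the main term of the bound -/
noncomputable def MT (k : ℕ) (J t : ℝ) : ℝ := J ^ ea k * t ^ eb k

theorem MT_pos {k : ℕ} {J t : ℝ} (hJ : 0 < J) (ht : 0 < t) : 0 < MT k J t := by
  unfold MT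
  positivity

theorem VB_le {k : ℕ} (hk : 2 ≤ k) {J t : ℝ} (hJ : 0 < J) (ht : 0 < t)
    (h : Real.log J * ((k : ℝ) - 2 + 4 / (2 : ℝ) ^ k) ≤ Real.log t) :
    VB k J (t / J ^ k) ≤ 2 * MT k J t := by
  have h2 := two_pow_gt hk
  have hP : 0 < (2 : ℝ) ^ k - 2 := by linarith
  have hP0 : (0:ℝ) < (2 : ℝ) ^ k := by positivity
  have hb := eb_pos hk
  have hlog : Real.log (t / J ^ k) = Real.log t - k * Real.log J := by
    rw [Real.log_div ht.ne' (pow_ne_zero _ hJ.ne'), Real.log_pow]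
  have hx : 0 < t / J ^ k := by positivity
  have e1 : J * (t / J ^ k) ^ (1 / ((2 : ℝ) ^ k - 2)) = MT k J t := by
    unfold MT ea eb
    rw [Real.rpow_def_of_pos hx, Real.rpow_def_of_pos hJ, Real.rpow_def_of_pos ht, hlog,
      ← Real.exp_add]
    nth_rw 1 [← Real.exp_log hJ]
    rw [← Real.exp_add]
    congr 1
    field_simp
    ring
  have e2 : J ^ (1 - 4 / (2 : ℝ) ^ k) * (t / J ^ k) ^ (-(1 / ((2 : ℝ) ^ k - 2))) ≤ MT k J t := by
    unfold MT ea eb
    rw [Real.rpow_def_of_pos hx, Real.rpow_def_of_pos hJ, Real.rpow_def_of_pos hJ,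
      Real.rpow_def_of_pos ht, hlog, ← Real.exp_add, ← Real.exp_add, Real.exp_le_exp]
    set x := Real.log J
    set y := Real.log t
    set P := (2 : ℝ) ^ k
    have e3 : x * (1 - k / (P - 2)) + y * (1 / (P - 2)) -
        (x * (1 - 4 / P) + (y - k * x) * -(1 / (P - 2))) =
        2 / (P - 2) * (y - x * ((k : ℝ) - 2 + 4 / P)) := by
      field_simp
      ring
    have e4 : 0 ≤ 2 / (P - 2) * (y - x * ((k : ℝ) - 2 + 4 / P)) :=
      mul_nonneg (by positivity) (by linarith)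
    linarith
  unfold VB
  linarith

theorem MT_mono {k : ℕ} (hk : 2 ≤ k) {J t : ℝ} (hJ : 0 < J) (ht : 0 < t)
    (h : Real.log t ≤ Real.log J * (((k + 1 : ℕ) : ℝ) - 2 + 4 / (2 : ℝ) ^ (k + 1))) :
    MT k J t ≤ MT (k + 1) J t := by
  have h2 := two_pow_gt hk
  have hP : 0 < (2 : ℝ) ^ k - 2 := by linarith
  have hP0 : (0:ℝ) < (2 : ℝ) ^ k := by positivity
  have e0 : (2 : ℝ) ^ (k + 1) = 2 * (2 : ℝ) ^ k := by rw [pow_succ]; ring
  unfold MT ea eb
  rw [e0] at h ⊢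
  rw [Real.rpow_def_of_pos hJ, Real.rpow_def_of_pos ht, Real.rpow_def_of_pos hJ,
      Real.rpow_def_of_pos ht, ← Real.exp_add, ← Real.exp_add, Real.exp_le_exp]
  push_cast at h ⊢
  set x := Real.log J
  set y := Real.log t
  set P := (2 : ℝ) ^ k
  have hP2 : 0 < 2 * P - 2 := by linarith
  have hP1 : 0 < P - 1 := by linarith
  have e3 : x * (1 - ((k : ℝ) + 1) / (2 * P - 2)) + y * (1 / (2 * P - 2)) -
      (x * (1 - k / (P - 2)) + y * (1 / (P - 2))) =
      P / ((P - 2) * (2 * P - 2)) * (x * ((k : ℝ) + 1 - 2 + 4 / (2 * P)) - y) := by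
    field_simp
    ring
  have e4 : 0 ≤ P / ((P - 2) * (2 * P - 2)) * (x * ((k : ℝ) + 1 - 2 + 4 / (2 * P)) - y) :=
    mul_nonneg (by positivity) (by linarith)
  linarith

/-- **The derivative test for blocks**, with the first derivative test for small `t`. -/
theorem blk_le (k : ℕ) (hk : 2 ≤ k) (ε : ℝ) (hε : 0 < ε) : ∃ C : ℝ, 1 ≤ C ∧
    ∀ (t : ℝ) (J m : ℕ), 0 < t → 1 ≤ J → m ≤ J →
      ‖blk t J m‖ ≤ C * (J : ℝ) ^ ε * (J / t + MT k J t) := by
  have hpi := Real.pi_gt_three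
  have hpi4 := Real.pi_le_four
  induction k, hk using Nat.le_induction with
  | base =>
    obtain ⟨C, hC, hC1⟩ := blk_kt 2 le_rfl ε hε
    refine ⟨2 * C + 48, by linarith, ?_⟩
    intro t J m ht hJ hm
    have hJ' : (1 : ℝ) ≤ J := by exact_mod_cast hJ
    have hJ0 : (0 : ℝ) < J := by linarith
    have hJe : 1 ≤ (J : ℝ) ^ ε := Real.one_le_rpow hJ' hε.le
    have hM := MT_pos (k := 2) hJ0 ht
    have hq : 0 < (J : ℝ) / t := by positivity
    rcases le_total t J with h | h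
    · refine (blk_one ht hJ hm h).trans ?_
      calc 12 * Real.pi * J / t = 12 * Real.pi * (J / t) := by ring
        _ ≤ 48 * (J / t) := by gcongr; linarith
        _ ≤ 48 * 1 * (J / t + MT 2 J t) := by rw [mul_one]; gcongr; linarith
        _ ≤ (2 * C + 48) * (J : ℝ) ^ ε * (J / t + MT 2 J t) := by gcongr; linarith
    · refine (hC1 t J m ht hJ hm).trans ?_
      have hv := VB_le (k := 2) le_rfl hJ0 ht (by
        norm_num
        exact Real.log_le_log hJ0 h)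
      calc C * (J : ℝ) ^ ε * VB 2 J (t / (J : ℝ) ^ 2)
          ≤ C * (J : ℝ) ^ ε * (2 * MT 2 J t) := by gcongr
        _ = 2 * C * (J : ℝ) ^ ε * MT 2 J t := by ring
        _ ≤ (2 * C + 48) * (J : ℝ) ^ ε * (J / t + MT 2 J t) := by gcongr <;> linarith
  | succ k hk ih =>
    obtain ⟨C0, hC0, hC01⟩ := ih
    obtain ⟨C, hC, hC1⟩ := blk_kt (k + 1) (by omega) ε hε
    refine ⟨2 * C + C0, by linarith, ?_⟩
    intro t J m ht hJ hm
    have hJ' : (1 : ℝ) ≤ J := by exact_mod_cast hJ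
    have hJ0 : (0 : ℝ) < J := by linarith
    have hJe : 0 < (J : ℝ) ^ ε := by positivity
    have hM := MT_pos (k := k + 1) hJ0 ht
    have hM' := MT_pos (k := k) hJ0 ht
    have hq : 0 < (J : ℝ) / t := by positivity
    rcases le_total (Real.log J * (((k + 1 : ℕ) : ℝ) - 2 + 4 / (2 : ℝ) ^ (k + 1))) (Real.log t)
      with h | h
    · refine (hC1 t J m ht hJ hm).trans ?_
      have hv := VB_le (k := k + 1) (by omega) hJ0 ht h
      calc C * (J : ℝ) ^ ε * VB (k + 1) J (t / (J : ℝ) ^ (k + 1))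
          ≤ C * (J : ℝ) ^ ε * (2 * MT (k + 1) J t) := by gcongr
        _ = 2 * C * (J : ℝ) ^ ε * MT (k + 1) J t := by ring
        _ ≤ (2 * C + C0) * (J : ℝ) ^ ε * (J / t + MT (k + 1) J t) := by gcongr <;> linarith
    · refine (hC01 t J m ht hJ hm).trans ?_
      have hv := MT_mono hk hJ0 ht h
      calc C0 * (J : ℝ) ^ ε * (J / t + MT k J t)
          ≤ (2 * C + C0) * (J : ℝ) ^ ε * (J / t + MT (k + 1) J t) := by gcongr; linarith

/-- the zeta sum -/
noncomputable def ZS (N : ℕ) (t : ℝ) : ℂ :=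
  ∑ n ∈ range N, ee (-(t / (2 * Real.pi)) * Real.log ((n : ℝ) + 1))

theorem ZS_split (t : ℝ) (J m : ℕ) : ZS (J + m) t = ZS J t + blk t J m := by
  unfold ZS blk
  rw [sum_range_add]
  congr 1
  apply sum_congr rfl
  intro n _
  push_cast
  congr 3
  ring

theorem ZS_clog {k : ℕ} (hk : 2 ≤ k) {ε C t : ℝ} (hε : 0 < ε) (hC : 1 ≤ C) (ht : 0 < t)
    (h : ∀ (J m : ℕ), 1 ≤ J → m ≤ J → ‖blk t J m‖ ≤ C * (J : ℝ) ^ ε * (J / t + MT k J t))
    (N : ℕ) : ‖ZS N t‖ ≤ 1 + Nat.clog 2 N * (C * (N : ℝ) ^ ε * (N / t + MT k N t)) := by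
  induction N using Nat.strong_induction_on with
  | _ N ih =>
    rcases Nat.lt_or_ge N 2 with h2 | h2
    · interval_cases N
      · simp [ZS]
      · unfold ZS
        simp [ee]
    · have hJ1 : 1 ≤ (N + 1) / 2 := by omega
      have hJN : (N + 1) / 2 < N := by omega
      have hN : N = (N + 1) / 2 + N / 2 := by omega
      set J := (N + 1) / 2 with hJ
      have hcl : Nat.clog 2 N = Nat.clog 2 J + 1 := by
        rw [Nat.clog_of_two_le (by norm_num) h2]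
        rfl
      have h3 := ih J hJN
      have h4 := h J (N / 2) hJ1 (by omega)
      have hJ0 : (0 : ℝ) < J := by exact_mod_cast hJ1
      have hJN' : (J : ℝ) ≤ N := by exact_mod_cast hJN.le
      have hN0 : (0 : ℝ) < N := by linarith
      have hb := ea_nonneg hk
      have hmono : C * (J : ℝ) ^ ε * (J / t + MT k J t) ≤
          C * (N : ℝ) ^ ε * (N / t + MT k N t) := by
        unfold MT
        gcongr
      have e1 : ‖ZS N t‖ ≤ ‖ZS J t‖ + ‖blk t J (N / 2)‖ := by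
        have : ZS N t = ZS J t + blk t J (N / 2) := by
          rw [← ZS_split]
          congr 1
        rw [this]
        exact norm_add_le _ _
      rw [hcl]
      push_cast
      have h5 : (Nat.clog 2 J : ℝ) * (C * (J : ℝ) ^ ε * (J / t + MT k J t)) ≤
          (Nat.clog 2 J : ℝ) * (C * (N : ℝ) ^ ε * (N / t + MT k N t)) := by gcongr
      linarith

theorem clog_le (N : ℕ) (hN : 1 ≤ N) {ε : ℝ} (hε : 0 < ε) :
    (1 : ℝ) + Nat.clog 2 N ≤ (2 + 1 / (ε * Real.log 2)) * (N : ℝ) ^ ε := by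
  have hN' : (1 : ℝ) ≤ N := by exact_mod_cast hN
  have hNe : 1 ≤ (N : ℝ) ^ ε := Real.one_le_rpow hN' hε.le
  have hl2 : 0 < Real.log 2 := Real.log_pos (by norm_num)
  have h1 : Real.log N ≤ (N : ℝ) ^ ε / ε := Real.log_le_rpow_div (by linarith) hε
  have h2 : (Nat.clog 2 N : ℝ) ≤ 1 + Real.log N / Real.log 2 := by
    rcases Nat.lt_or_ge N 2 with h | h
    · have : N = 1 := by omega
      subst this
      simp
    · have h3 := Nat.pow_pred_clog_lt_self (b := 2) (by norm_num) (show 1 < N by omega)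
      have h4 : ((2 : ℝ)) ^ ((Nat.clog 2 N).pred) ≤ N := by exact_mod_cast h3.le
      have h5 := Real.log_le_log (by positivity) h4
      rw [Real.log_pow] at h5
      have h6 : ((Nat.clog 2 N : ℕ) : ℝ) - 1 ≤ ((Nat.clog 2 N).pred : ℕ) := by
        have : Nat.clog 2 N ≤ (Nat.clog 2 N).pred + 1 := by
          rw [Nat.pred_eq_sub_one]; omega
        have : ((Nat.clog 2 N : ℕ) : ℝ) ≤ ((Nat.clog 2 N).pred : ℕ) + 1 := by exact_mod_cast this
        linarith
      have h7 : ((Nat.clog 2 N : ℕ) : ℝ) - 1 ≤ Real.log N / Real.log 2 := by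
        rw [le_div_iff₀ hl2]
        calc _ ≤ (((Nat.clog 2 N).pred : ℕ) : ℝ) * Real.log 2 := by gcongr
          _ ≤ _ := h5
      linarith
  have h3 : Real.log N / Real.log 2 ≤ 1 / (ε * Real.log 2) * (N : ℝ) ^ ε := by
    calc Real.log N / Real.log 2 ≤ ((N : ℝ) ^ ε / ε) / Real.log 2 := by gcongr
      _ = _ := by field_simp
  nlinarith

/-- **The k-th derivative test for the zeta sum.** -/
theorem ZS_le (k : ℕ) (hk : 2 ≤ k) (ε : ℝ) (hε : 0 < ε) : ∃ C : ℝ, 1 ≤ C ∧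
    ∀ (N : ℕ) (t : ℝ), 1 ≤ N → 1 ≤ t →
      ‖ZS N t‖ ≤ C * (N : ℝ) ^ ε * (N / t + MT k N t) := by
  obtain ⟨C, hC, h⟩ := blk_le k hk (ε / 2) (by positivity)
  have hl2 : 0 < Real.log 2 := Real.log_pos (by norm_num)
  refine ⟨C * (2 + 1 / (ε / 2 * Real.log 2)), ?_, ?_⟩
  · have : 0 < 1 / (ε / 2 * Real.log 2) := by positivity
    nlinarith
  intro N t hN ht
  have hN' : (1 : ℝ) ≤ N := by exact_mod_cast hN
  have ht0 : 0 < t := by linarith
  have h1 := ZS_clog hk (by positivity : 0 < ε / 2) hC ht0 (fun J m => h t J m ht0) N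
  have h2 := clog_le N hN (by positivity : 0 < ε / 2)
  set Y := C * (N : ℝ) ^ (ε / 2) * (N / t + MT k N t) with hY
  have hM : 1 ≤ MT k N t := by
    unfold MT
    exact one_le_mul_of_one_le_of_one_le (Real.one_le_rpow hN' (ea_nonneg hk))
      (Real.one_le_rpow ht (eb_pos hk).le)
  have hNe : 1 ≤ (N : ℝ) ^ (ε / 2) := Real.one_le_rpow hN' (by positivity)
  have hq : 0 < (N : ℝ) / t := by positivity
  have hY1 : 1 ≤ Y := by
    rw [hY]
    exact one_le_mul_of_one_le_of_one_le (one_le_mul_of_one_le_of_one_le hC hNe) (by linarith)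
  calc ‖ZS N t‖ ≤ 1 + Nat.clog 2 N * Y := h1
    _ ≤ Y + Nat.clog 2 N * Y := by linarith
    _ = (1 + Nat.clog 2 N) * Y := by ring
    _ ≤ ((2 + 1 / (ε / 2 * Real.log 2)) * (N : ℝ) ^ (ε / 2)) * Y := by gcongr
    _ = C * (2 + 1 / (ε / 2 * Real.log 2)) * ((N : ℝ) ^ (ε / 2) * (N : ℝ) ^ (ε / 2)) *
        (N / t + MT k N t) := by rw [hY]; ring
    _ = _ := by
      rw [← Real.rpow_add (by linarith)]
      congr 3
      ring

end Pool.Agent.Q201.ML
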